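import Pool.Agent.NH43.AD.StmL
import Pool.Agent.TH973.SD.W1

set_option autoImplicit false
set_option linter.unusedSectionVars false

/-!
# Project AD: correlations of the discrepancy (AD-13) and the r-functions (AD-14)
-/

namespace Pool.Agent.NH43.AD

open Finset
open Pool.Agent.H397R2.SD (E E_congr E_add E_sum E_smul E_smul' E_mono E_const abs_E_le hit)
open Pool.Agent.W776.GD (Om flp rad fE empt flp_flp rad_self rad_ne rad_other rad_sq abs_rad fE_le
  fE_odd fE_flp E_hit prod_half le_of_sum)
open Pool.Agent.TH973.SD (discw discw_eq sum_dl_zero empt_mono)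

namespace CorH

variable {d n : ℕ}

theorem flp_apply (c : Fin d) (i : ℕ) (x : Om d n) (c' : Fin d) (k : Fin (n + 1)) :
    flp c i x c' k = if c' = c ∧ (k : ℕ) = i then !(x c' k) else x c' k := by
  by_cases hc : c' = c
  · subst hc
    by_cases hk : (k : ℕ) = i
    · subst hk
      rw [if_pos ⟨rfl, rfl⟩]
      exact Pool.Agent.W776.GD.flp_self c' k k.2 x
    · rw [if_neg (fun h => hk h.2)]
      exact Pool.Agent.W776.GD.flp_digit c' i x k hk
  · rw [if_neg (fun h => hc h.1)]
    rw [Pool.Agent.W776.GD.flp_other c c' hc]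

theorem flp_comm (c : Fin d) (i : ℕ) (c' : Fin d) (j : ℕ) (x : Om d n) :
    flp c i (flp c' j x) = flp c' j (flp c i x) := by
  funext e k
  rw [flp_apply, flp_apply, flp_apply, flp_apply]
  split_ifs <;> rfl

theorem rad_or (c : Fin d) (i : ℕ) (x : Om d n) : rad c i x = 1 ∨ rad c i x = -1 := by
  unfold rad
  split_ifs
  · exact Or.inl rfl
  · exact Or.inr rfl
  · exact Or.inl rfl

theorem rad_fix (i : Fin d) (v : ℕ) (j : Fin d) (u : ℕ) (x : Om d n) (h : (i, v) ≠ (j, u)) :
    rad i v (flp j u x) = rad i v x := by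
  by_cases hij : i = j
  · subst hij
    exact rad_ne i i u v (fun e => h (by rw [e])) x
  · exact rad_other j i hij u v x

/-- the value of the pairing on the support of `g` -/
theorem core {ι : Type} (P : Finset ι) (w : ι → ℝ) (V : ℝ)
    (o : ι → Fin d → ℕ) (a : Fin d → ℕ) (g : Om d n → ℝ)
    (hs : ∀ x, g x ≠ 0 → empt P o a x) (x : Om d n) :
    (∏ c, rad c (a c) x) * g x *
        (∑ i ∈ P, w i * ∏ c, Pool.Agent.H397R2.SD.dl n (o i c) (a c) (x c) - V * ∏ c, (1 / 2 : ℝ) ^ (a c + 1)) =
      -(V * (1 / 2 : ℝ) ^ (∑ c, a c) * (1 / 2) ^ d) * ((∏ c, rad c (a c) x) * g x) := by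
  by_cases hx : g x = 0
  · rw [hx]; ring
  · rw [sum_dl_zero P w o a x (hs x hx), prod_half a]
    ring

theorem quarter (d : ℕ) : (1 / 2 : ℝ) ^ d * (1 / 2 : ℝ) ^ d = (1 / 4 : ℝ) ^ d := by
  rw [← mul_pow]; norm_num

end CorH

open CorH

/-- (AD-13) -/
theorem t_COR : S_COR := by
  intro d n ι P w V o u a g hV ha hodd hs
  have hE := discw_eq P w V o u a ha g hodd
  rw [E_congr (fun x => core P w V o a g hs x), E_smul] at hE
  have hpos : 0 ≤ V * (1 / 2 : ℝ) ^ (∑ c, a c) * (1 / 2) ^ d := by positivity
  refine ⟨?_, ?_⟩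
  · have h1 : |E (fun x : Om d n => (∏ c, rad c (a c) x) * g x)| ≤ E (fun x => |g x|) := by
      refine (abs_E_le _).trans (E_mono fun x => ?_)
      rw [abs_mul, abs_prod]
      simp only [abs_rad, prod_const_one, one_mul]
      exact le_rfl
    rw [hE, abs_mul, abs_mul, abs_neg, abs_of_nonneg hpos,
      abs_of_nonneg (by positivity : (0 : ℝ) ≤ (1 / 2) ^ d)]
    calc (1 / 2 : ℝ) ^ d * (V * (1 / 2 : ℝ) ^ (∑ c, a c) * (1 / 2) ^ d *
          |E (fun x : Om d n => (∏ c, rad c (a c) x) * g x)|)
        ≤ (1 / 2 : ℝ) ^ d * (V * (1 / 2 : ℝ) ^ (∑ c, a c) * (1 / 2) ^ d * E (fun x => |g x|)) := by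
          apply mul_le_mul_of_nonneg_left _ (by positivity)
          exact mul_le_mul_of_nonneg_left h1 hpos
      _ = V * (1 / 2 : ℝ) ^ (∑ c, a c) * ((1 / 2 : ℝ) ^ d * (1 / 2) ^ d) * E (fun x => |g x|) := by
          ring
      _ = _ := by rw [quarter]
  · intro G hG hn hgG
    have h2 : ∀ x : Om d n, (∏ c, rad c (a c) x) * g x = (-1) * |g x| := by
      intro x
      rw [hgG x]
      unfold fE
      by_cases he : empt P o a x
      · rw [if_pos ⟨hn, he⟩]
        have r0 : (∏ c, rad c (a c) x) * (∏ c, rad c (a c) x) = 1 := by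
          rw [← Finset.prod_mul_distrib]
          exact Finset.prod_eq_one fun c _ => rad_sq c (a c) x
        have r1 : |∏ c, rad c (a c) x| = 1 := by
          rw [Finset.abs_prod]
          simp only [abs_rad, Finset.prod_const_one]
        rw [abs_mul, abs_neg, r1, one_mul, abs_of_nonneg (hG x)]
        linear_combination (-G x) * r0
      · rw [if_neg (fun h => he h.2)]
        simp
    rw [hE, E_congr h2, E_smul, hn]
    calc (1 / 2 : ℝ) ^ d * (-(V * (1 / 2 : ℝ) ^ n * (1 / 2) ^ d) * ((-1) * E (fun x : Om d n => |g x|)))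
        = V * (1 / 2 : ℝ) ^ n * ((1 / 2 : ℝ) ^ d * (1 / 2) ^ d) * E (fun x : Om d n => |g x|) := by
          ring
      _ = _ := by rw [quarter]

/-- (AD-14) -/
theorem t_HYP : S_HYP := by
  classical
  intro d n ι P o hd
  refine ⟨?_, ?_, ?_⟩
  · exact
      { inv := fun i v x => flp_flp i v x
        comm := fun i v j u x => flp_comm i v j u x
        sgn := fun i v x => rad_or i v x
        odd := fun i v x hv => rad_self i v hv x
        fixX := fun i v j u x h => rad_fix i v j u x h
        le := fun r x => fE_le P o r x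
        zero := fun r x h => by
          unfold fE
          rw [if_neg (fun h' => h h'.1)]
        oddf := fun r i x => fE_odd P o r i x
        fixf := fun r i v x h => fE_flp P o r i v h x }
  · intro r p x hrp hp hne
    unfold fE
    rw [if_neg (fun h => hne (empt_mono P o r p hrp hp x h.2))]
  · intro a hn hP
    have ha : ∀ c, a c ≤ n := le_of_sum hn
    have hpt : ∀ x : Om d n, |fE P o a x| = if empt P o a x then 1 else 0 := by
      intro x
      unfold fE
      by_cases he : empt P o a x
      · rw [if_pos ⟨hn, he⟩, if_pos he, abs_neg, Finset.abs_prod]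
        simp only [abs_rad, Finset.prod_const_one]
      · rw [if_neg (fun h => he h.2), if_neg he, abs_zero]
    rw [E_congr hpt]
    have hne : E (fun x : Om d n => if empt P o a x then (0 : ℝ) else 1) ≤
        (P.card : ℝ) * (1 / 2 : ℝ) ^ n := by
      calc E (fun x : Om d n => if empt P o a x then (0 : ℝ) else 1)
          ≤ E (fun x : Om d n =>
              ∑ i ∈ P, ∏ c, if hit n (o i c) (a c) (x c) then (1 : ℝ) else 0) := by
            refine E_mono fun x => ?_
            have hnn : ∀ i ∈ P, 0 ≤ ∏ c, (if hit n (o i c) (a c) (x c) then (1 : ℝ) else 0) := by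
              intro i _
              apply prod_nonneg
              intro c _
              split_ifs <;> norm_num
            split_ifs with he
            · exact sum_nonneg hnn
            · unfold empt at he
              push Not at he
              obtain ⟨i, hi, h0⟩ := he
              refine le_trans ?_ (single_le_sum hnn hi)
              rw [Finset.prod_eq_one fun c _ => if_pos (h0 c)]
        _ = ∑ i ∈ P, E (fun x : Om d n =>
              ∏ c, if hit n (o i c) (a c) (x c) then (1 : ℝ) else 0) :=
            E_sum P _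
        _ ≤ ∑ i ∈ P, (1 / 2 : ℝ) ^ n := by
            refine sum_le_sum fun i _ => ?_
            have := E_hit (n := n) (o i) a ha
            rwa [hn] at this
        _ = _ := by rw [sum_const, nsmul_eq_mul]
    have hadd : E (fun x : Om d n => if empt P o a x then (1 : ℝ) else 0) +
        E (fun x : Om d n => if empt P o a x then (0 : ℝ) else 1) = 1 := by
      rw [← E_add]
      have : ∀ x : Om d n, (if empt P o a x then (1 : ℝ) else 0) +
          (if empt P o a x then (0 : ℝ) else 1) = 1 := by
        intro x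
        split_ifs <;> norm_num
      rw [E_congr this, E_const]
    have hpow : (0 : ℝ) < 2 ^ n := by positivity
    have hq1 : (P.card : ℝ) * (1 / 2 : ℝ) ^ n ≤ 1 / 2 := by
      have h1 : (2 : ℝ) * P.card ≤ 2 ^ n := by exact_mod_cast hP
      rw [one_div_pow, mul_one_div, div_le_iff₀ hpow]
      linarith
    linarith

end Pool.Agent.NH43.AD
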