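import Pool.Agent.NH43.AD.StmP

set_option autoImplicit false

/-!
# Project AD: the deterministic facts at the first bad cell (AD-35)
-/

namespace Pool.Agent.NH43.AD

open Finset
open Pool.Agent.NH99.WZ (wal)
open Pool.Agent.NH44.AD (Kn MO SB inn LL HH MM AC sd HM G0 bx box pr Th HB FB TV KN RM U1 n1 n2 cd)

variable {d : ℕ}

namespace Dtm

theorem wal_abs (m a i : ℕ) : |wal m a i| ≤ 1 := by
  unfold wal
  rw [abs_prod]
  apply prod_le_one
  · intro k _
    exact abs_nonneg _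
  · intro k _
    split_ifs <;> norm_num

theorem mem_box {P s : Ce d} : s ∈ box P ↔ ∀ i, s i ≤ P i := by
  unfold Pool.Agent.NH44.AD.box
  rw [Fintype.mem_piFinset]
  simp only [mem_range, Nat.lt_succ_iff]

theorem good_of {m : ℕ} {η : ℕ → ℝ} {X : Fin d → ℕ → ℝ} {y : Ce d → ℝ} {P Q : Ce d}
    (h : Pregood m η X y Q) (hle : ∀ i, P i ≤ Q i) (hne : P ≠ Q) : Good m η X y P := by
  intro r hr
  refine h r (fun i => (hr i).trans (hle i)) ?_
  rintro rfl
  exact hne (funext fun i => le_antisymm (hle i) (hr i))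

theorem good_box {m : ℕ} {η : ℕ → ℝ} {X : Fin d → ℕ → ℝ} {y : Ce d → ℝ} {P s : Ce d}
    (h : Good m η X y P) (hs : s ∈ box P) : Good m η X y s := by
  intro r hr
  exact h r (fun i => (hr i).trans (mem_box.1 hs i))

theorem upd_le {Q : Ce d} (τ : Fin d) (i : Fin d) : Function.update Q τ (Q τ - 1) i ≤ Q i := by
  by_cases h : i = τ
  · subst h
    rw [Function.update_self]
    omega
  · rw [Function.update_of_ne h]

theorem upd_ne {Q : Ce d} {τ : Fin d} (h : 1 ≤ Q τ) : Function.update Q τ (Q τ - 1) ≠ Q := by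
  intro hc
  have := congrFun hc τ
  rw [Function.update_self] at this
  omega

theorem n1_nonneg (R : Finset (Ce d)) (x : Ce d → ℝ) : 0 ≤ n1 R x := Real.sqrt_nonneg _

theorem n2_nonneg (R : Finset (Ce d)) (V : ℕ) (z : Ce d → ℕ → ℝ) : 0 ≤ n2 R V z :=
  Real.sqrt_nonneg _

theorem MO.mono {R C : Finset (Ce d)} {M : Ce d → Ce d → ℝ} {κ κ' : ℝ} (h : MO R C M κ)
    (hk : κ ≤ κ') : MO R C M κ' := by
  intro x z
  refine (h x z).trans ?_
  exact mul_le_mul_of_nonneg_right hk (mul_nonneg (n1_nonneg _ _) (n1_nonneg _ _))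

theorem SB.mono {R C : Finset (Ce d)} {V : ℕ} {M : ℕ → Ce d → Ce d → ℝ} {κ κ' : ℝ}
    (h : SB R C V M κ) (hk : κ ≤ κ') : SB R C V M κ' := by
  intro x z
  obtain ⟨h1, h2⟩ := h x z
  exact ⟨h1.trans (mul_le_mul_of_nonneg_right hk (mul_nonneg (n1_nonneg _ _) (n2_nonneg _ _ _))),
    h2.trans (mul_le_mul_of_nonneg_right hk (mul_nonneg (n1_nonneg _ _) (n2_nonneg _ _ _)))⟩

theorem cd_le (d m : ℕ) : cd d m ≤ 6 ^ d * ((m : ℝ) + 1) ^ d := by
  unfold cd
  rw [← mul_pow]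
  have : (0 : ℝ) ≤ m := Nat.cast_nonneg m
  apply pow_le_pow_left₀ (by positivity)
  linarith

theorem cd_pos (d m : ℕ) : 0 < cd d m := by
  unfold cd
  positivity

theorem one_le_cd (d m : ℕ) : 1 ≤ cd d m := by
  unfold cd
  have : (0 : ℝ) ≤ m := Nat.cast_nonneg m
  apply one_le_pow₀
  linarith

/-- the constant -/
def KC (d : ℕ) : ℕ :=
  16 * (4 * (d + 1)) ^ (4 * d + 4) * 6 ^ d + 2 ^ (d + 6) * 6 ^ (2 * d) + 3 * d * 6 ^ d +
    2 ^ (d + 6) * 6 ^ d + 6 * d * 2 ^ d + 3 * 2 ^ d + 2 * d + 1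

theorem kc1 (d m : ℕ) (c : ℝ) (hc0 : 0 ≤ c) (hc : c * 6 ^ d ≤ KC d) :
    c * cd d m ≤ KC d * ((m : ℝ) + 1) ^ (KC d) := by
  have hm : (1 : ℝ) ≤ (m : ℝ) + 1 := by
    have : (0 : ℝ) ≤ m := Nat.cast_nonneg m
    linarith
  calc c * cd d m ≤ c * (6 ^ d * ((m : ℝ) + 1) ^ d) :=
        mul_le_mul_of_nonneg_left (cd_le d m) hc0
    _ = (c * 6 ^ d) * ((m : ℝ) + 1) ^ d := by ring
    _ ≤ KC d * ((m : ℝ) + 1) ^ (KC d) := by
        apply mul_le_mul hc _ (by positivity) (by positivity)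
        apply pow_le_pow_right₀ hm
        unfold KC
        omega

theorem kc2 (d m : ℕ) (c : ℝ) (hc0 : 0 ≤ c) (hc : c * 6 ^ (2 * d) ≤ KC d) :
    c * cd d m ^ 2 ≤ KC d * ((m : ℝ) + 1) ^ (KC d) := by
  have hm : (1 : ℝ) ≤ (m : ℝ) + 1 := by
    have : (0 : ℝ) ≤ m := Nat.cast_nonneg m
    linarith
  calc c * cd d m ^ 2 ≤ c * (6 ^ d * ((m : ℝ) + 1) ^ d) ^ 2 := by
        apply mul_le_mul_of_nonneg_left _ hc0
        exact pow_le_pow_left₀ (cd_pos d m).le (cd_le d m) 2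
    _ = (c * 6 ^ (2 * d)) * ((m : ℝ) + 1) ^ (2 * d) := by
        rw [mul_pow, ← pow_mul, ← pow_mul, mul_comm d 2]
        ring
    _ ≤ KC d * ((m : ℝ) + 1) ^ (KC d) := by
        apply mul_le_mul hc _ (by positivity) (by positivity)
        apply pow_le_pow_right₀ hm
        unfold KC
        omega

theorem ka (d : ℕ) : (16 * (4 * ((d : ℝ) + 1)) ^ (4 * d + 4)) * 6 ^ d ≤ (KC d : ℝ) := by
  have h : 16 * (4 * (d + 1)) ^ (4 * d + 4) * 6 ^ d ≤ KC d := by
    unfold KC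
    omega
  exact_mod_cast h

theorem kb (d : ℕ) : (2 : ℝ) ^ (d + 6) * 6 ^ (2 * d) ≤ (KC d : ℝ) := by
  have h : 2 ^ (d + 6) * 6 ^ (2 * d) ≤ KC d := by
    unfold KC
    omega
  exact_mod_cast h

theorem kcc (d : ℕ) : (3 * (d : ℝ)) * 6 ^ d ≤ (KC d : ℝ) := by
  have h : 3 * d * 6 ^ d ≤ KC d := by
    unfold KC
    omega
  exact_mod_cast h

theorem kd' (d : ℕ) : (2 : ℝ) ^ (d + 6) * 6 ^ d ≤ (KC d : ℝ) := by
  have h : 2 ^ (d + 6) * 6 ^ d ≤ KC d := by
    unfold KC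
    omega
  exact_mod_cast h

theorem ke (d : ℕ) : 6 * (d : ℝ) * 2 ^ d ≤ (KC d : ℝ) := by
  have h : 6 * d * 2 ^ d ≤ KC d := by
    unfold KC
    omega
  exact_mod_cast h

theorem kf (d : ℕ) : 3 * (2 : ℝ) ^ d ≤ (KC d : ℝ) := by
  have h : 3 * 2 ^ d ≤ KC d := by
    unfold KC
    omega
  exact_mod_cast h

theorem one_le_KC (d : ℕ) : 1 ≤ KC d := by
  unfold KC
  omega

/-- the norms of the chains in a subbox -/
theorem chain_norm (h6 : Pool.Agent.NH44.AD.S_HBT) (h11 : Pool.Agent.NH44.AD.S_DET)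
    (h15 : Pool.Agent.NH44.AD.S_SDN) (h19 : Pool.Agent.NH44.AD.S_CHN)
    (h22 : Pool.Agent.NH44.AD.S_G0N) (h12 : Pool.Agent.NH44.AD.S_KNT)
    (n m : ℕ) (η : ℕ → ℝ) (ρ h : ℝ) (X : Fin d → ℕ → ℝ) (y : Ce d → ℝ) (hd : 3 ≤ d)
    (hn : n + 2 ≤ 2 ^ m) (hX : ∀ i v, X i v = 1 ∨ X i v = -1) (hy : ∀ r, |y r| ≤ ρ)
    (hy0 : ∀ r : Ce d, ∑ i, r i ≠ n → y r = 0)
    (hρ : ρ * ((n : ℝ) + 1) ^ (((d : ℝ) - 2) / 2) ≤ η d)
    (hη : ∀ k, 1 ≤ k → k ≤ d → 0 < η k ∧ η k ≤ h)
    (hc2 : 2 ^ (d + 6) * (cd d m ^ 2 * h) ≤ 1)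
    (Q : Ce d) (hQ : ∀ i, Q i ≤ n) (hp : Pregood m η X y Q) (S A B : Finset (Fin d)) (θ : Ce d)
    (k : Fin d) (hA : A.Nonempty) (hB : B.Nonempty) (hAB : A ∪ B = S) (hk : k ∉ S)
    (hθ : θ ∈ Th d m) (P : Ce d) (hPQ : ∀ i, P i ≤ Q i) (hne : P ≠ Q) (j : ℕ) (σ : Fin d) :
    KN m P (bx A Q) (bx B Q) σ ∅ (GJ m η X y Q S A B θ k j σ)
      (2 ^ d * (3 * η (S.card + 1)) * (d * (cd d m * (3 * h))) ^ j) := by
  have hgood := good_of hp hPQ hne
  have hPm : ∀ i, P i < 2 ^ m := fun i => by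
    have := hPQ i
    have := hQ i
    omega
  have hPn : ∀ i, P i ≤ n := fun i => (hPQ i).trans (hQ i)
  obtain ⟨g1, g2, g3⟩ := h11 d n m η X y ρ h P (by omega) hX hy hy0 hPn (by omega) hρ hη hc2 hgood
  have hh0 : 0 < h := (hη 1 le_rfl (by omega)).1.trans_le (hη 1 le_rfl (by omega)).2
  have hSne : S.Nonempty := by
    rw [← hAB]
    exact hA.mono subset_union_left
  have hcard : S.card + 1 ≤ d := by
    have : S.card < (univ : Finset (Fin d)).card :=
      card_lt_card ⟨subset_univ _, fun hc => hk (hc (mem_univ k))⟩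
    rw [card_univ, Fintype.card_fin] at this
    omega
  have hηS := hη (S.card + 1) (by omega) hcard
  -- the cut off families
  have hgc : ∀ (c : Fin d) (T : Finset (Fin d)), T.Nonempty → c ∉ T →
      HB m P (insert c T) (gc m η X y c T) (3 * η (T.card + 1)) := by
    intro c T hT hcT
    refine (h6 d m P (insert c T) (insert_nonempty _ _) hPm).2.1 _ _ _ ?_ (g1 c T hT hcT)
    intro s hs
    unfold gc
    rw [if_pos (good_box hgood hs)]
  have hhc : ∀ c τ : Fin d, c ≠ τ → HB m P {c, τ} (hc m η X y c τ) (3 * h) := by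
    intro c τ hcτ
    have e1 := hgc c {τ} (singleton_nonempty _) (by rw [mem_singleton]; exact hcτ)
    rw [card_singleton] at e1
    exact (h6 d m P {c, τ} (insert_nonempty _ _) hPm).1 _ _ _ e1
      (by linarith [(hη 2 (by omega) (by omega)).2])
  have hcdp := cd_pos d m
  have hcd1 := one_le_cd d m
  have hγ1 : cd d m * (3 * h) ≤ 1 := by
    have e1 : cd d m * h ≤ cd d m ^ 2 * h := by
      apply mul_le_mul_of_nonneg_right _ hh0.le
      nlinarith
    have e2 : (3 : ℝ) ≤ 2 ^ (d + 6) := by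
      calc (3 : ℝ) ≤ 2 ^ 6 := by norm_num
        _ ≤ 2 ^ (d + 6) := pow_le_pow_right₀ (by norm_num) (by omega)
    have e3 : 0 < cd d m ^ 2 * h := by positivity
    nlinarith
  induction j generalizing σ with
  | zero =>
    rw [pow_zero, mul_one]
    have e1 := h22 d m P Q θ S A B (insert k S)ᶜ k (gc m η X y k S) (3 * η (S.card + 1)) hPm hPQ hθ
      hA hB hAB hk rfl (by linarith [hηS.1]) (hgc k S hSne hk)
    have e2 := h15 d m P Q θ (bx A Q) (bx B Q) (hc m η X y) (3 * h) hPm hPQ hθ (by linarith) hγ1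
      hhc ((insert k S)ᶜ.sort (· ≤ ·)) k (G0 m Q A B θ k (gc m η X y k S)) (3 * η (S.card + 1))
      (sort_nodup _ _) (by
        rw [mem_sort, mem_compl]
        exact fun hcon => hcon (mem_insert_self _ _)) (by linarith [hηS.1])
      (by rw [sort_toFinset]; exact e1) σ
    refine (h12 d m P (bx A Q) (bx B Q) σ ∅).1 _ _ _ e2 ?_
    apply mul_le_mul_of_nonneg_right _ (by linarith [hηS.1])
    apply pow_le_pow_right₀ (by norm_num)
    rw [length_sort]
    exact (card_le_univ _).trans (by rw [Fintype.card_fin])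
  | succ j ih =>
    have e1 : GJ m η X y Q S A B θ k (j + 1) =
        AC (hc m η X y) Q (GJ m η X y Q S A B θ k j) := by
      unfold GJ
      rw [Function.iterate_succ_apply']
    rw [e1]
    have e2 := h19 d m P Q (bx A Q) (bx B Q) (hc m η X y) (3 * h) hPm hPQ (by linarith) hhc
      (GJ m η X y Q S A B θ k j) (2 ^ d * (3 * η (S.card + 1)) * (d * (cd d m * (3 * h))) ^ j)
      (by
        have := hηS.1
        positivity) ih σ
    refine (h12 d m P (bx A Q) (bx B Q) σ ∅).1 _ _ _ e2 (le_of_eq ?_)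
    rw [pow_succ]
    ring

end Dtm

open Dtm in
theorem t_DTM (hG : S_PGQ) (h6 : Pool.Agent.NH44.AD.S_HBT) (h11 : Pool.Agent.NH44.AD.S_DET)
    (h15 : Pool.Agent.NH44.AD.S_SDN) (h18 : Pool.Agent.NH44.AD.S_CHI)
    (h19 : Pool.Agent.NH44.AD.S_CHN) (h20 : Pool.Agent.NH44.AD.S_KSB)
    (h21 : Pool.Agent.NH44.AD.S_REM) (h22 : Pool.Agent.NH44.AD.S_G0N)
    (h23 : Pool.Agent.NH44.AD.S_DEC) (h25 : Pool.Agent.NH44.AD.S_RMN)
    (h12 : Pool.Agent.NH44.AD.S_KNT) : S_DTM := by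
  intro d hd
  refine ⟨KC d, one_le_KC d, ?_⟩
  intro n m η ρ h X y hn hX hy hy0 hρ0 hρ hη hsm Q hQ hp
  have hh0 : 0 < h := (hη 1 le_rfl (by omega)).1.trans_le (hη 1 le_rfl (by omega)).2
  have hcdp := cd_pos d m
  have hcd1 := one_le_cd d m
  set K : ℝ := (KC d : ℝ) with hK
  set L : ℝ := ((m : ℝ) + 1) ^ (KC d) with hL
  have hK1 : 1 ≤ K := by
    rw [hK]
    exact_mod_cast one_le_KC d
  have hca : (16 * (4 * ((d : ℝ) + 1)) ^ (4 * d + 4)) * cd d m ≤ K * L :=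
    kc1 d m _ (by positivity) (ka d)
  have hcb : (2 : ℝ) ^ (d + 6) * cd d m ^ 2 ≤ K * L := kc2 d m _ (by positivity) (kb d)
  have hcc : (3 * (d : ℝ)) * cd d m ≤ K * L := kc1 d m _ (by positivity) (kcc d)
  have hcd' : (2 : ℝ) ^ (d + 6) * cd d m ≤ K * L := kc1 d m _ (by positivity) (kd' d)
  have hc2 : 2 ^ (d + 6) * (cd d m ^ 2 * h) ≤ 1 := by
    calc 2 ^ (d + 6) * (cd d m ^ 2 * h) = (2 ^ (d + 6) * cd d m ^ 2) * h := by ring
      _ ≤ (K * L) * h := by gcongr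
      _ ≤ 1 := hsm
  obtain ⟨hD, hKK, hU1, hinc⟩ := hG d n m η X y ρ h (by omega) hn hX hy hy0 hρ0 hρ hη (by
    calc (16 * (4 * ((d : ℝ) + 1)) ^ (4 * d + 4)) * (cd d m * h)
        = ((16 * (4 * ((d : ℝ) + 1)) ^ (4 * d + 4)) * cd d m) * h := by ring
      _ ≤ (K * L) * h := by gcongr
      _ ≤ 1 := hsm) Q hQ hp
  refine ⟨hD, hKK, ?_⟩
  intro S A B θ k J hA hB hAB hk hθ
  have hSne : S.Nonempty := by
    rw [← hAB]
    exact hA.mono subset_union_left
  have hcard : S.card + 1 ≤ d := by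
    have : S.card < (univ : Finset (Fin d)).card :=
      card_lt_card ⟨subset_univ _, fun hc => hk (hc (mem_univ k))⟩
    rw [card_univ, Fintype.card_fin] at this
    omega
  have hηS := hη (S.card + 1) (by omega) hcard
  have hηS0 := hηS.1
  -- the norms of the chains
  have hchain := chain_norm h6 h11 h15 h19 h22 h12 n m η ρ h X y hd hn hX hy hy0 hρ hη hc2 Q hQ hp
    S A B θ k hA hB hAB hk hθ
  have hKL0 : 0 ≤ K * L * h := by positivity
  have hq : (d : ℝ) * (cd d m * (3 * h)) ≤ K * L * h := by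
    calc (d : ℝ) * (cd d m * (3 * h)) = (3 * (d : ℝ)) * cd d m * h := by ring
      _ ≤ K * L * h := by gcongr
  have hkap : ∀ j : ℕ, 2 ^ d * (3 * η (S.card + 1)) * (d * (cd d m * (3 * h))) ^ j ≤
      K * η (S.card + 1) * (K * L * h) ^ j := by
    intro j
    apply mul_le_mul _ _ (by positivity) (by positivity)
    · calc (2 : ℝ) ^ d * (3 * η (S.card + 1)) = (3 * 2 ^ d) * η (S.card + 1) := by ring
        _ ≤ K * η (S.card + 1) := by
          gcongr
          exact kf d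
    · exact pow_le_pow_left₀ (by positivity) hq j
  constructor
  · -- stacks
    intro j _ τ
    rcases Nat.eq_zero_or_pos (Q τ) with h0 | h1
    · rw [h0]
      intro x z
      rw [range_zero, sum_empty, sum_empty, abs_zero]
      exact ⟨mul_nonneg (by positivity) (mul_nonneg (n1_nonneg _ _) (n2_nonneg _ _ _)),
        mul_nonneg (by positivity) (mul_nonneg (n1_nonneg _ _) (n2_nonneg _ _ _))⟩
    · have e1 := hchain (Function.update Q τ (Q τ - 1)) (upd_le τ) (upd_ne h1) j τ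
      exact SB.mono (h20 d m _ Q _ _ τ _ _ h1 rfl e1) (hkap j)
  · -- the chain identity
    intro j _ a e
    have e1 : GJ m η X y Q S A B θ k (j + 1) =
        AC (hc m η X y) Q (GJ m η X y Q S A B θ k j) := by
      unfold GJ
      rw [Function.iterate_succ_apply']
    rw [e1]
    exact h18 d Q X (bc m η X y) (hc m η X y) hU1 (GJ m η X y Q S A B θ k j) a e
  · -- the remainder
    have e1 := h21 d m n Q (bx A Q) (bx B Q) X (bc m η X y) (GJ m η X y Q S A B θ k J)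
      (2 ^ d * (3 * η (S.card + 1)) * (d * (cd d m * (3 * h))) ^ J) h hX hQ (by omega)
      (by positivity) hh0.le (by
        intro τ hτ
        refine ⟨hchain (Function.update Q τ (Q τ - 1)) (upd_le τ) (upd_ne hτ) J τ, ?_⟩
        have hgood := good_of hp (upd_le τ) (upd_ne hτ)
        have hPm : ∀ i, Function.update Q τ (Q τ - 1) i < 2 ^ m := fun i => by
          have := upd_le (Q := Q) τ i
          have := hQ i
          omega
        obtain ⟨_, g2, _⟩ := h11 d n m η X y ρ h (Function.update Q τ (Q τ - 1)) (by omega) hX hy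
          hy0 (fun i => (upd_le τ i).trans (hQ i)) (by omega) hρ hη hc2 hgood
        refine (h6 d m _ {τ} (singleton_nonempty _) hPm).2.1 _ _ _ ?_ (g2 τ)
        intro s hs
        unfold bc
        rw [if_pos (good_box hgood hs)])
    refine MO.mono e1 ?_
    have hcdh : cd d m * h ≤ 1 := by
      have q1 : cd d m * h ≤ cd d m ^ 2 * h := by
        apply mul_le_mul_of_nonneg_right _ hh0.le
        nlinarith
      have q2 : (1 : ℝ) ≤ 2 ^ (d + 6) := one_le_pow₀ (by norm_num)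
      have q3 : 0 < cd d m ^ 2 * h := by positivity
      nlinarith
    have hsq : Real.sqrt ((n : ℝ) + 1) ≤ (n : ℝ) + 1 := by
      have : (0 : ℝ) ≤ n := Nat.cast_nonneg n
      rw [Real.sqrt_le_left (by linarith)]
      nlinarith
    have hkJ0 : 0 ≤ 2 ^ d * (3 * η (S.card + 1)) * (d * (cd d m * (3 * h))) ^ J := by positivity
    calc (d : ℝ) * (Real.sqrt ((n : ℝ) + 1) * ((1 + cd d m * h) *
          (2 ^ d * (3 * η (S.card + 1)) * (d * (cd d m * (3 * h))) ^ J)))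
        ≤ (d : ℝ) * (((n : ℝ) + 1) * ((1 + 1) *
          (2 ^ d * (3 * η (S.card + 1)) * (K * L * h) ^ J))) := by
          gcongr
      _ = (6 * (d : ℝ) * 2 ^ d) * ((n : ℝ) + 1) * η (S.card + 1) * (K * L * h) ^ J := by ring
      _ ≤ K * ((n : ℝ) + 1) * η (S.card + 1) * (K * L * h) ^ J := by
          gcongr
          exact ke d
  · -- the non-linear part
    obtain ⟨i1, i2⟩ := hinc S k hSne hk
    have e0 : GJ m η X y Q S A B θ k 0 =
        sd m (hc m η X y) Q θ ((insert k S)ᶜ.sort (· ≤ ·)) k (G0 m Q A B θ k (gc m η X y k S)) :=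
      rfl
    have e1 : (fun a e => HM m Q S A B θ (KK X y S) a e -
        LL X (bc m η X y) Q (GJ m η X y Q S A B θ k 0) a e) =
        RM m Q S A B θ k (ps X y k S) := by
      funext a e
      rw [h23 d m Q θ X (bc m η X y) (hc m η X y) S A B k (KK X y S) (gc m η X y k S)
        (ps X y k S) hU1 hk hAB i1 i2 a e, e0]
      ring
    rw [e1]
    have hle : 2 ^ (d + 6) * (cd d m * h ^ 2) ≤ K * L * h ^ 2 := by
      calc 2 ^ (d + 6) * (cd d m * h ^ 2) = (2 ^ (d + 6) * cd d m) * h ^ 2 := by ring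
        _ ≤ K * L * h ^ 2 := by gcongr
    refine MO.mono (h25 d m (Function.update Q k (Q k - 1)) Q θ S A B k (ps X y k S)
      (2 ^ (d + 6) * (cd d m * h ^ 2)) hA hB hAB hk (by positivity) (fun _ => rfl) ?_) hle
    intro hQk
    have hgood := good_of hp (upd_le k) (upd_ne hQk)
    obtain ⟨_, _, g3⟩ := h11 d n m η X y ρ h (Function.update Q k (Q k - 1)) (by omega) hX hy
      hy0 (fun i => (upd_le k i).trans (hQ i)) (by omega) hρ hη hc2 hgood
    exact g3 k S (fun v => wal m (θ k) (v + 1)) θ hSne hk (fun v => wal_abs _ _ _) hθ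

end Pool.Agent.NH43.AD
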