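import Pool.Agent.NH43.AD.StmL

/-!
# Project AD: bounds for the exponential and the logarithm of set functions
-/

set_option autoImplicit false

namespace Pool.Agent.NH43.AD

open Finset

namespace Exb

theorem key (K : ℝ) (hK0 : 0 ≤ K) (m : ℕ) (hK : (m : ℝ) ≤ K) :
    (K + 1) ^ m * (K - m) ≤ K ^ m * K := by
  induction m with
  | zero => simp
  | succ m ih =>
    have ih' := ih (le_trans (by push_cast; linarith) hK)
    have hm : (0 : ℝ) ≤ m := Nat.cast_nonneg m
    calc (K + 1) ^ (m + 1) * (K - ((m + 1 : ℕ) : ℝ)) = (K + 1) ^ m * ((K + 1) * (K - m - 1)) := by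
          push_cast; ring
      _ ≤ (K + 1) ^ m * (K * (K - m)) := mul_le_mul_of_nonneg_left (by nlinarith) (by positivity)
      _ = K * ((K + 1) ^ m * (K - m)) := by ring
      _ ≤ K * (K ^ m * K) := mul_le_mul_of_nonneg_left ih' hK0
      _ = K ^ (m + 1) * K := by ring

variable {d : ℕ}

theorem sum_compl (S : Finset (Fin d)) (i : Fin d) (hi : i ∈ S) (g : Finset (Fin d) → ℝ) :
    ∑ B ∈ S.powerset.filter (fun B => i ∈ B), g (S \ B) = ∑ C ∈ (S.erase i).powerset, g C := by
  refine Finset.sum_nbij' (fun B => S \ B) (fun C => S \ C) ?_ ?_ ?_ ?_ ?_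
  · intro B hB
    rw [mem_filter, mem_powerset] at hB
    rw [mem_powerset]
    intro x hx
    rw [mem_sdiff] at hx
    rw [mem_erase]
    exact ⟨fun h => hx.2 (h ▸ hB.2), hx.1⟩
  · intro C hC
    rw [mem_powerset] at hC
    rw [mem_filter, mem_powerset]
    exact ⟨sdiff_subset, mem_sdiff.2 ⟨hi, fun h => (mem_erase.1 (hC h)).1 rfl⟩⟩
  · intro B hB
    exact Finset.sdiff_sdiff_eq_self (mem_powerset.1 (mem_filter.1 hB).1)
  · intro C hC
    exact Finset.sdiff_sdiff_eq_self ((mem_powerset.1 hC).trans (erase_subset _ _))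
  · intro B _
    rfl

theorem sum_K (S : Finset (Fin d)) (i : Fin d) (hi : i ∈ S) (K : ℝ) :
    ∑ B ∈ S.powerset.filter (fun B => i ∈ B), K ^ (S \ B).card = (K + 1) ^ (S.card - 1) := by
  rw [sum_compl S i hi (fun C => K ^ C.card)]
  have h := Finset.sum_pow_mul_eq_add_pow K 1 (S.erase i)
  rw [card_erase_of_mem hi] at h
  rw [← h]
  simp

theorem sum_M (S : Finset (Fin d)) (i : Fin d) (hi : i ∈ S) (M : ℝ) :
    ∑ B ∈ S.powerset.filter (fun B => i ∈ B), M ^ B.card = M * (M + 1) ^ (S.card - 1) := by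
  have h1 : ∑ B ∈ S.powerset.filter (fun B => i ∈ B), M ^ B.card =
      ∑ B ∈ S.powerset.filter (fun B => i ∈ B), M ^ (S.card - (S \ B).card) := by
    refine sum_congr rfl fun B hB => ?_
    rw [mem_filter, mem_powerset] at hB
    have h2 := card_sdiff_add_card_eq_card hB.1
    congr 1
    omega
  rw [h1, sum_compl S i hi (fun C => M ^ (S.card - C.card))]
  have h := Finset.sum_pow_mul_eq_add_pow 1 M (S.erase i)
  rw [card_erase_of_mem hi] at h
  rw [add_comm M 1, ← h, mul_sum]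
  refine sum_congr rfl fun C hC => ?_
  have h3 := card_le_card (mem_powerset.1 hC)
  rw [card_erase_of_mem hi] at h3
  have h4 : 0 < S.card := card_pos.2 ⟨i, hi⟩
  rw [one_pow, one_mul, show S.card - C.card = (S.card - 1 - C.card) + 1 by omega, pow_succ,
    mul_comm]

theorem numK (S : Finset (Fin d)) (hS : S.Nonempty) :
    ((d : ℝ) + 1 + 1) ^ (S.card - 1) ≤ ((d : ℝ) + 1) ^ S.card := by
  have h1 : S.card ≤ d := by simpa using card_le_univ S
  have h2 : 0 < S.card := card_pos.2 hS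
  have h3 : ((S.card - 1 : ℕ) : ℝ) + 1 ≤ d := by
    have : S.card - 1 + 1 ≤ d := by omega
    exact_mod_cast this
  have h4 := key ((d : ℝ) + 1) (by positivity) (S.card - 1) (by linarith)
  have h5 : ((d : ℝ) + 1) ^ S.card = ((d : ℝ) + 1) ^ (S.card - 1) * ((d : ℝ) + 1) := by
    rw [← pow_succ]
    congr 1
    omega
  rw [h5]
  refine le_trans ?_ h4
  refine le_mul_of_one_le_right (by positivity) ?_
  linarith

theorem numM (S : Finset (Fin d)) (hS : S.Nonempty) :
    (4 * ((d : ℝ) + 1)) * (4 * ((d : ℝ) + 1) + 1) ^ (S.card - 1) ≤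
      4 / 3 * (4 * ((d : ℝ) + 1)) ^ S.card := by
  have h1 : S.card ≤ d := by simpa using card_le_univ S
  have h2 : 0 < S.card := card_pos.2 hS
  have h3 : ((S.card - 1 : ℕ) : ℝ) + 1 ≤ d := by
    have : S.card - 1 + 1 ≤ d := by omega
    exact_mod_cast this
  set M : ℝ := 4 * ((d : ℝ) + 1) with hM
  have hd0 : (0 : ℝ) ≤ d := Nat.cast_nonneg d
  have hM0 : 0 < M := by positivity
  have h4 := key M hM0.le (S.card - 1) (by linarith)
  have h5 : M ^ S.card = M ^ (S.card - 1) * M := by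
    rw [← pow_succ]
    congr 1
    omega
  rw [h5]
  have h6 : (3 / 4 : ℝ) * M ≤ M - ((S.card - 1 : ℕ) : ℝ) := by linarith
  have h7 : (M + 1) ^ (S.card - 1) * ((3 / 4 : ℝ) * M) ≤ M ^ (S.card - 1) * M :=
    (mul_le_mul_of_nonneg_left h6 (by positivity)).trans h4
  nlinarith

/-- bounds for the exponential -/
theorem ex_bd (hEX : S_EX) (f : Finset (Fin d) → ℝ) (S₀ : Finset (Fin d)) (c : ℝ) (hc0 : 0 ≤ c)
    (hc1 : c ≤ 1) (hf : ∀ B ⊆ S₀, B.Nonempty → |f B| ≤ c) (S : Finset (Fin d)) : S ⊆ S₀ →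
    S.Nonempty → |ex f S| ≤ c * ((d : ℝ) + 1) ^ S.card ∧
      |ex f S - f S| ≤ c ^ 2 * ((d : ℝ) + 1) ^ S.card := by
  induction S using Finset.strongInduction with
  | H S ih =>
  intro hS0 hS
  obtain ⟨i, hi⟩ := hS
  have he := (hEX d f f f (fun _ => 1) S).2.1 i hi
  have hemp : ex f ∅ = 1 := (hEX d f f f (fun _ => 1) S).1
  set F := S.powerset.filter (fun B => i ∈ B) with hF
  have hK0 : (0 : ℝ) < (d : ℝ) + 1 := by positivity
  have hb : ∀ B ∈ F, |f B| ≤ c := by
    intro B hB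
    rw [hF, mem_filter, mem_powerset] at hB
    exact hf B (hB.1.trans hS0) ⟨i, hB.2⟩
  have hc : ∀ B ∈ F, B ≠ S → |ex f (S \ B)| ≤ c * ((d : ℝ) + 1) ^ (S \ B).card := by
    intro B hB hne
    rw [hF, mem_filter, mem_powerset] at hB
    have h1 : (S \ B).Nonempty := by
      rw [sdiff_nonempty]
      intro h
      exact hne (Subset.antisymm hB.1 h)
    exact (ih (S \ B) ⟨sdiff_subset, fun h => (mem_sdiff.1 (h hi)).2 hB.2⟩
      (sdiff_subset.trans hS0) h1).1
  have hc' : ∀ B ∈ F, |ex f (S \ B)| ≤ ((d : ℝ) + 1) ^ (S \ B).card := by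
    intro B hB
    by_cases hne : B = S
    · rw [hne, sdiff_self]
      show |ex f ∅| ≤ ((d : ℝ) + 1) ^ (∅ : Finset (Fin d)).card
      rw [hemp]
      simp
    · refine (hc B hB hne).trans ?_
      exact mul_le_of_le_one_left (by positivity) hc1
  have hsum := sum_K S i hi ((d : ℝ) + 1)
  rw [← hF] at hsum
  have hnum := numK S ⟨i, hi⟩
  constructor
  · rw [he]
    calc |∑ B ∈ F, f B * ex f (S \ B)| ≤ ∑ B ∈ F, |f B * ex f (S \ B)| := abs_sum_le_sum_abs _ _
      _ ≤ ∑ B ∈ F, c * ((d : ℝ) + 1) ^ (S \ B).card := by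
          refine sum_le_sum fun B hB => ?_
          rw [abs_mul]
          exact mul_le_mul (hb B hB) (hc' B hB) (abs_nonneg _) hc0
      _ = c * ((d : ℝ) + 1 + 1) ^ (S.card - 1) := by rw [← mul_sum, hsum]
      _ ≤ _ := mul_le_mul_of_nonneg_left hnum hc0
  · have hSF : S ∈ F := by
      rw [hF, mem_filter, mem_powerset]
      exact ⟨Subset.refl _, hi⟩
    have h1 : ex f S - f S = ∑ B ∈ F.erase S, f B * ex f (S \ B) := by
      rw [he, ← add_sum_erase F _ hSF, sdiff_self]
      show f S * ex f ∅ + _ - f S = _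
      rw [hemp]
      ring
    rw [h1]
    calc |∑ B ∈ F.erase S, f B * ex f (S \ B)| ≤ ∑ B ∈ F.erase S, |f B * ex f (S \ B)| :=
          abs_sum_le_sum_abs _ _
      _ ≤ ∑ B ∈ F.erase S, c ^ 2 * ((d : ℝ) + 1) ^ (S \ B).card := by
          refine sum_le_sum fun B hB => ?_
          rw [mem_erase] at hB
          rw [abs_mul, sq, mul_assoc]
          exact mul_le_mul (hb B hB.2) (hc B hB.2 hB.1) (abs_nonneg _) hc0
      _ ≤ ∑ B ∈ F, c ^ 2 * ((d : ℝ) + 1) ^ (S \ B).card :=
          sum_le_sum_of_subset_of_nonneg (erase_subset _ _) fun B _ _ => by positivity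
      _ = c ^ 2 * ((d : ℝ) + 1 + 1) ^ (S.card - 1) := by rw [← mul_sum, hsum]
      _ ≤ _ := mul_le_mul_of_nonneg_left hnum (by positivity)

/-- bounds for the logarithm -/
theorem lo_bd (f : Finset (Fin d) → ℝ) (S₀ : Finset (Fin d)) (c : ℝ) (hc0 : 0 ≤ c)
    (hc1 : c ≤ 1) (hf : ∀ B ⊆ S₀, B.Nonempty → |f B| ≤ c) (S : Finset (Fin d)) : S ⊆ S₀ →
    S.Nonempty →
    |lo (fun B => if B = ∅ then 1 else f B) S| ≤ c * (4 * ((d : ℝ) + 1)) ^ S.card ∧
      |lo (fun B => if B = ∅ then 1 else f B) S - f S| ≤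
        c ^ 2 * (4 * ((d : ℝ) + 1)) ^ S.card := by
  induction S using Finset.strongInduction with
  | H S ih =>
  intro hS0 hS
  set φ : Finset (Fin d) → ℝ := fun B => if B = ∅ then 1 else f B with hφ
  set M : ℝ := 4 * ((d : ℝ) + 1) with hM
  have hd0 : (0 : ℝ) ≤ d := Nat.cast_nonneg d
  have hM0 : 0 < M := by positivity
  have hM4 : 4 ≤ M := by linarith
  have hφS : φ S = f S := by rw [hφ]; exact if_neg hS.ne_empty
  have hmin := S.min'_mem hS
  have hcard : 0 < S.card := card_pos.2 hS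
  have hMn : (4 : ℝ) ≤ M ^ S.card := by
    calc (4 : ℝ) ≤ M := hM4
      _ = M ^ 1 := (pow_one M).symm
      _ ≤ M ^ S.card := pow_le_pow_right₀ (by linarith) hcard
  have h1 : |lo φ S - f S| ≤ c ^ 2 * (M ^ S.card / 3) := by
    rw [lo, dif_pos hS, hφS, sub_sub_cancel_left, abs_neg]
    calc |∑ B ∈ S.powerset, if _hB : S.min' hS ∈ B ∧ B ⊂ S then lo φ B * φ (S \ B) else 0| ≤
          ∑ B ∈ S.powerset, |if _hB : S.min' hS ∈ B ∧ B ⊂ S then lo φ B * φ (S \ B) else 0| :=
          abs_sum_le_sum_abs _ _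
      _ ≤ ∑ B ∈ S.powerset, if S.min' hS ∈ B ∧ B ⊂ S then c ^ 2 * M ^ B.card else 0 := by
          refine sum_le_sum fun B _ => ?_
          by_cases hB : S.min' hS ∈ B ∧ B ⊂ S
          · rw [dif_pos hB, if_pos hB, abs_mul]
            have h2 := (ih B hB.2 (hB.2.1.trans hS0) ⟨_, hB.1⟩).1
            have h3 : (S \ B).Nonempty := sdiff_nonempty.2 hB.2.2
            have h4 : |φ (S \ B)| ≤ c := by
              rw [hφ]
              show |if S \ B = ∅ then 1 else f (S \ B)| ≤ c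
              rw [if_neg h3.ne_empty]
              exact hf _ (sdiff_subset.trans hS0) h3
            calc |lo φ B| * |φ (S \ B)| ≤ (c * M ^ B.card) * c :=
                  mul_le_mul h2 h4 (abs_nonneg _) (by positivity)
              _ = c ^ 2 * M ^ B.card := by ring
          · rw [dif_neg hB, if_neg hB, abs_zero]
      _ = ∑ B ∈ (S.powerset.filter (fun B => S.min' hS ∈ B)).erase S, c ^ 2 * M ^ B.card := by
          rw [← sum_filter]
          refine sum_congr ?_ fun _ _ => rfl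
          ext B
          rw [mem_filter, mem_erase, mem_filter, mem_powerset, ssubset_iff_subset_ne]
          tauto
      _ = c ^ 2 * (M * (M + 1) ^ (S.card - 1) - M ^ S.card) := by
          have hSF : S ∈ S.powerset.filter (fun B => S.min' hS ∈ B) := by
            rw [mem_filter, mem_powerset]
            exact ⟨Subset.refl _, hmin⟩
          have h5 := sum_M S _ hmin M
          rw [← add_sum_erase _ _ hSF] at h5
          rw [← mul_sum, ← h5]
          ring
      _ ≤ c ^ 2 * (M ^ S.card / 3) := by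
          have h6 := numM S hS
          rw [← hM] at h6
          refine mul_le_mul_of_nonneg_left ?_ (by positivity)
          linarith
  have h2 : c ^ 2 * (M ^ S.card / 3) ≤ c * (M ^ S.card / 3) := by
    refine mul_le_mul_of_nonneg_right ?_ (by positivity)
    nlinarith
  have h3 := hf S hS0 hS
  constructor
  · calc |lo φ S| = |(lo φ S - f S) + f S| := by ring_nf
      _ ≤ |lo φ S - f S| + |f S| := abs_add_le _ _
      _ ≤ c * (M ^ S.card / 3) + c := add_le_add (h1.trans h2) h3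
      _ ≤ c * M ^ S.card := by nlinarith
  · refine h1.trans ?_
    refine mul_le_mul_of_nonneg_left ?_ (by positivity)
    linarith

end Exb

/-- **AD-3.** -/
theorem t_EXB (h : S_EX) : S_EXB := by
  intro d f S c hS hc0 hc1 hf
  obtain ⟨h1, h2⟩ := Exb.ex_bd h f S c hc0 hc1 hf S (Subset.refl _) hS
  obtain ⟨h3, h4⟩ := Exb.lo_bd f S c hc0 hc1 hf S (Subset.refl _) hS
  have hcard : S.card ≤ d := by simpa using card_le_univ S
  have hd0 : (0 : ℝ) ≤ d := Nat.cast_nonneg d
  have h5 : ((d : ℝ) + 1) ^ S.card ≤ ((d : ℝ) + 1) ^ d :=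
    pow_le_pow_right₀ (by linarith) hcard
  have h6 : (4 * ((d : ℝ) + 1)) ^ S.card ≤ (4 * ((d : ℝ) + 1)) ^ (2 * d) :=
    pow_le_pow_right₀ (by linarith) (by omega)
  exact ⟨h1.trans (mul_le_mul_of_nonneg_left h5 hc0),
    h2.trans (mul_le_mul_of_nonneg_left h5 (by positivity)),
    h3.trans (mul_le_mul_of_nonneg_left h6 hc0),
    h4.trans (mul_le_mul_of_nonneg_left h6 (by positivity))⟩

end Pool.Agent.NH43.AD
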