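import Pool.Agent.NH43.AD.StmL
import Pool.Agent.NH99.FD.Grid
import Pool.Agent.NH99.FD.Fin5

set_option autoImplicit false

/-!
# Project AD: the grid statement from the parts, and the final estimate (AD-17, AD-19)
-/

namespace Pool.Agent.NH43.AD

open Finset MeasureTheory
open Pool.Agent.H397R2.SD (E)
open Pool.Agent.W776.GD (Om flp rad fE empt)
open Pool.Agent.TH973.SD (discw locD transfer measurable_locD)

namespace Fin19

theorem E_mul_le {Ω : Type} [Fintype Ω] [Nonempty Ω] (g h : Ω → ℝ) (A B : ℝ) (hA : 0 ≤ A)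
    (hg : ∀ x, |g x| ≤ A) (hh : E (fun x => |h x|) ≤ B) :
    E (fun x => g x * (h x - 1)) ≤ A * (B + 1) := by
  have hc : (0 : ℝ) < (Fintype.card Ω : ℝ) := by exact_mod_cast Fintype.card_pos
  have h1 : E (fun x => g x * (h x - 1)) ≤ A * (E (fun x => |h x|) + 1) := by
    unfold E
    have h2 : (∑ x : Ω, |h x|) / (Fintype.card Ω : ℝ) + 1 =
        (∑ x : Ω, (|h x| + 1)) / (Fintype.card Ω : ℝ) := by
      rw [Finset.sum_add_distrib, add_div]
      congr 1
      rw [Finset.sum_const, Finset.card_univ, nsmul_eq_mul, mul_one, div_self hc.ne']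
    rw [h2, mul_div_assoc', Finset.mul_sum]
    apply div_le_div_of_nonneg_right _ hc.le
    apply Finset.sum_le_sum
    intro x _
    calc g x * (h x - 1) ≤ |g x * (h x - 1)| := le_abs_self _
      _ = |g x| * |h x - 1| := abs_mul _ _
      _ ≤ A * (|h x| + 1) := by
          apply mul_le_mul (hg x) _ (abs_nonneg _) hA
          calc |h x - 1| ≤ |h x| + |(1 : ℝ)| := abs_sub _ _
            _ = |h x| + 1 := by rw [abs_one]
  refine h1.trans ?_
  apply mul_le_mul_of_nonneg_left _ hA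
  linarith

theorem one_le_E {Ω : Type} [Fintype Ω] [Nonempty Ω] (g : Ω → ℝ) (hg : ∀ x, 0 ≤ g x)
    (x₀ : Ω) (h : (Fintype.card Ω : ℝ) ≤ g x₀) : 1 ≤ E g := by
  have hc : (0 : ℝ) < (Fintype.card Ω : ℝ) := by exact_mod_cast Fintype.card_pos
  unfold E
  rw [le_div_iff₀ hc, one_mul]
  exact h.trans (Finset.single_le_sum (f := g) (fun x _ => hg x) (Finset.mem_univ x₀))

end Fin19

theorem t_GRIDP : S_GRIDP := by
  intro hPF hL1 hPA hHY d hd a ha
  obtain ⟨C, hC⟩ := hPF d (2 * d + 1) hd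
  obtain ⟨n1, H⟩ := hC a ha
  obtain ⟨c0, C0, hc0, hC0, HP⟩ := hPA d (by omega)
  refine ⟨c0 / 4, by positivity, max n1 (max (2 ^ d) (max 8 ⌈C0 ^ (1 / a)⌉₊)), ?_⟩
  intro n hn ι P w V o u hP1 hP2 hP3
  have hn1 : n1 ≤ n := le_trans (le_max_left _ _) hn
  have hn2 : 2 ^ d ≤ n := le_trans (le_trans (le_max_left _ _) (le_max_right _ _)) hn
  have hn3 : 8 ≤ n :=
    le_trans (le_trans (le_max_left _ _) (le_trans (le_max_right _ _) (le_max_right _ _))) hn
  have hn4 : ⌈C0 ^ (1 / a)⌉₊ ≤ n :=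
    le_trans (le_trans (le_max_right _ _) (le_trans (le_max_right _ _) (le_max_right _ _))) hn
  set N : ℝ := (n : ℝ) + 1 with hN
  have hn2' : (2 : ℝ) ^ d ≤ n := by exact_mod_cast hn2
  have hn3' : (8 : ℝ) ≤ n := by exact_mod_cast hn3
  have hN0 : 0 < N := by rw [hN]; positivity
  have hN1 : 1 ≤ N := by rw [hN]; linarith
  have hNC : C0 ≤ N ^ a := by
    have h1 : C0 ^ (1 / a) ≤ N := by
      rw [hN]
      have := Nat.ceil_le.1 hn4
      linarith
    have h2 := Real.rpow_le_rpow (by positivity) h1 ha.le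
    rwa [← Real.rpow_mul hC0.le, one_div_mul_cancel ha.ne', Real.rpow_one] at h2
  -- the size of the births
  have hρ0 : 0 < rh d n a := Real.rpow_pos_of_pos hN0 _
  have hd3 : (3 : ℝ) ≤ d := by exact_mod_cast hd
  have hρ1 : C0 * rh d n a ≤ 1 := by
    have h1 : rh d n a ≤ N ^ (-a) := by
      unfold rh
      apply Real.rpow_le_rpow_of_exponent_le hN1
      linarith
    calc C0 * rh d n a ≤ N ^ a * N ^ (-a) := by gcongr
      _ = 1 := by rw [← Real.rpow_add hN0, add_neg_cancel, Real.rpow_zero]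
  obtain ⟨hhyp, -, -⟩ := hHY d n ι P o (by omega)
  set κ : ℝ := 1 / N ^ (2 * d + 1) with hκ
  have hκ0 : 0 ≤ κ := by positivity
  have hpf : ∀ q : Ce d, (∀ i, q i ≤ n) →
      PF (mm n) (et C d n a) (rh d n a) (fun i v (x : Om d n) => rad i v x)
        (fun r x => fE P o r x) q ≤ κ := by
    intro q hq
    exact H n hn1 (Om d n) _ _ _ hhyp q hq
  have hl1 := hL1 d n (mm n) (et C d n a) (Om d n) _ _ _ (rh d n a) κ (by omega) hhyp hκ0 hpf
  have hl2 : E (fun x : Om d n => |Psi n (mm n) (et C d n a) (rh d n a)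
      (fun i v (x : Om d n) => rad i v x) (fun r x => fE P o r x) x|) ≤ 2 := by
    refine hl1.trans ?_
    have h1 : 2 ^ d * N ^ (2 * d) * κ = 2 ^ d / N := by
      rw [hκ, pow_succ]
      field_simp
    rw [h1]
    have h2 : (2 : ℝ) ^ d / N ≤ 1 := by
      rw [div_le_one hN0, hN]
      linarith
    linarith
  have hk8 : 8 * N ^ d * κ ≤ 1 := by
    have h1 : 8 * N ^ d * κ = 8 / N ^ (d + 1) := by
      rw [hκ]
      have : N ^ (2 * d + 1) = N ^ d * N ^ (d + 1) := by
        rw [← pow_add]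
        congr 1
        ring
      rw [this]
      field_simp
    rw [h1, div_le_one (by positivity)]
    calc (8 : ℝ) ≤ N := by rw [hN]; linarith
      _ = N ^ 1 := (pow_one N).symm
      _ ≤ N ^ (d + 1) := pow_le_pow_right₀ hN1 (by omega)
  have hpair := HP n (mm n) (et C d n a) ι P w V o u (rh d n a) κ hρ0 hρ1 hP1 hP2 hP3 hκ0 hk8 hpf
  by_contra hcon
  push Not at hcon
  have hR0 : 0 < N ^ ((d : ℝ) / 2 - a) := Real.rpow_pos_of_pos hN0 _
  have hup := Fin19.E_mul_le (fun x : Om d n => discw P w V o u x)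
    (fun x : Om d n => Psi n (mm n) (et C d n a) (rh d n a)
      (fun i v (x : Om d n) => rad i v x) (fun r x => fE P o r x) x)
    (c0 / 4 * N ^ ((d : ℝ) / 2 - a)) 2 (by positivity) (fun x => (hcon x).le) hl2
  have heq : N ^ (d - 1) * rh d n a = N ^ ((d : ℝ) / 2 - a) := by
    unfold rh
    rw [← Real.rpow_natCast, ← Real.rpow_add hN0]
    congr 1
    rw [Nat.cast_sub (by omega)]
    push_cast
    ring
  have hfin : c0 * N ^ ((d : ℝ) / 2 - a) ≤ c0 / 4 * N ^ ((d : ℝ) / 2 - a) * (2 + 1) := by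
    calc c0 * N ^ ((d : ℝ) / 2 - a) = c0 * N ^ (d - 1) * rh d n a := by rw [← heq]; ring
      _ ≤ _ := hpair
      _ ≤ _ := hup
  have : 0 < c0 * N ^ ((d : ℝ) / 2 - a) := by positivity
  linarith

theorem t_GFIN : S_GFIN := by
  intro hG d hd ε hε
  obtain ⟨c₁, hc₁, n₁, H⟩ := hG d hd ε hε
  obtain ⟨c₂, hc₂, B⟩ := Pool.Agent.NH99.FD.Fin5.base d (by omega)
  have hprob := Pool.Agent.NH99.FD.Fin5.isProb d
  set e : ℝ := (d : ℝ) / 2 - ε with he
  obtain ⟨m₀, hm₀⟩ : ∃ m₀ : ℕ, m₀ = 2 ^ (n₁ + 1000) := ⟨_, rfl⟩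
  have hm₀3 : 3 ≤ m₀ := by
    rw [hm₀]
    calc 3 ≤ 2 ^ 2 := by norm_num
      _ ≤ 2 ^ (n₁ + 1000) := Nat.pow_le_pow_right (by norm_num) (by omega)
  set L₀ : ℝ := Real.log m₀ with hL₀
  have hL₀1 : 1 ≤ L₀ := by
    rw [hL₀, Real.le_log_iff_exp_le (by exact_mod_cast (by omega : 0 < m₀))]
    have h1 : Real.exp 1 < 3 := lt_trans Real.exp_one_lt_d9 (by norm_num)
    have h2 : (3 : ℝ) ≤ m₀ := by exact_mod_cast hm₀3
    linarith
  have h3e : (0 : ℝ) < 3 ^ e := by positivity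
  have hmin0 : 0 < min (1 : ℝ) (3 ^ e) := lt_min one_pos h3e
  set c : ℝ := min (c₁ / 2 * min 1 (3 ^ e)) (c₂ / L₀) with hc
  have hc0 : 0 < c := lt_min (by positivity) (by positivity)
  refine ⟨c, hc0, fun m hm lam ξ hξ => ?_⟩
  have hm3 : (3 : ℝ) ≤ m := by exact_mod_cast hm
  have hmpos : (0 : ℝ) < m := by linarith
  set L : ℝ := Real.log m with hL
  have hL1 : 1 ≤ L := by
    rw [hL, Real.le_log_iff_exp_le hmpos]
    have h1 : Real.exp 1 < 3 := lt_trans Real.exp_one_lt_d9 (by norm_num)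
    linarith
  have hL0 : 0 < L := by linarith
  by_cases hmm : m < m₀
  · -- bounded case
    have hb := B m (by omega) lam ξ hξ ⊤ (by simp)
    refine le_trans (ENNReal.ofReal_le_ofReal ?_) hb
    apply div_le_div_of_nonneg_right _ hmpos.le
    have hLL : L ≤ L₀ := by
      rw [hL, hL₀]
      apply Real.log_le_log hmpos
      exact_mod_cast hmm.le
    have hcc : c * L₀ ≤ c₂ := by
      have : c ≤ c₂ / L₀ := min_le_right _ _
      rwa [le_div_iff₀ (by positivity)] at this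
    have h1 : L ^ e ≤ L ^ (((d : ℝ) - 1) / 2) * L₀ := by
      calc L ^ e ≤ L ^ ((((d : ℝ) - 1) / 2) + 1) := by
            apply Real.rpow_le_rpow_of_exponent_le hL1
            rw [he]
            linarith
        _ = L ^ (((d : ℝ) - 1) / 2) * L := by rw [Real.rpow_add_one hL0.ne']
        _ ≤ _ := by
            apply mul_le_mul_of_nonneg_left hLL
            positivity
    calc c * L ^ e ≤ c * (L ^ (((d : ℝ) - 1) / 2) * L₀) := by gcongr
      _ = c * L₀ * L ^ (((d : ℝ) - 1) / 2) := by ring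
      _ ≤ c₂ * L ^ (((d : ℝ) - 1) / 2) := by gcongr
  · rw [not_lt] at hmm
    have hm0 : m ≠ 0 := by omega
    obtain ⟨n, hn⟩ : ∃ n, n = Nat.log 2 m + 2 := ⟨_, rfl⟩
    have hlog : n₁ + 1000 ≤ Nat.log 2 m := by
      rw [Nat.le_log_iff_pow_le (by norm_num) hm0, ← hm₀]
      exact hmm
    have hnn : n₁ ≤ n := by omega
    have hn1000 : 1000 ≤ n := by omega
    obtain ⟨f1, f2, f3, f4⟩ := Pool.Agent.NH99.FD.Grid.facts hm0 hn hn1000
    set N : ℝ := (n : ℝ) + 1 with hN
    have hn1R : (1000 : ℝ) ≤ n := by exact_mod_cast hn1000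
    have hN0 : 0 < N := by rw [hN]; linarith
    have hLN : L ≤ N := by rw [hN]; linarith
    have hNL : N ≤ 3 * L := by rw [hN]; linarith
    have hNe : min 1 (3 ^ e) * L ^ e ≤ N ^ e := by
      have hLe : 0 ≤ L ^ e := Real.rpow_nonneg hL0.le _
      rcases le_total 0 e with h0 | h0
      · calc min 1 (3 ^ e) * L ^ e ≤ 1 * L ^ e :=
              mul_le_mul_of_nonneg_right (min_le_left _ _) hLe
          _ = L ^ e := one_mul _
          _ ≤ N ^ e := Real.rpow_le_rpow hL0.le hLN h0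
      · calc min 1 (3 ^ e) * L ^ e ≤ 3 ^ e * L ^ e :=
              mul_le_mul_of_nonneg_right (min_le_right _ _) hLe
          _ = (3 * L) ^ e := (Real.mul_rpow (by norm_num) hL0.le).symm
          _ ≤ N ^ e := Real.rpow_le_rpow_of_nonpos hN0 hNL h0
    have hNe0 : 0 < N ^ e := Real.rpow_pos_of_pos hN0 _
    set V : ℝ := c₁ / 2 * N ^ e with hV
    have hV0 : 0 < V := mul_pos (half_pos hc₁) hNe0
    have htr := transfer (d := d) (Nat.pos_of_ne_zero hm0) n ((n + 1) * d) V hV0 lam ξ hξ (by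
      intro o u
      obtain ⟨x, hx⟩ := H n hnn (Fin m) Finset.univ (fun μ => (m : ℝ) * lam μ) (m : ℝ) o u
        (by simpa using f1) (by exact_mod_cast f2) (by
          have : m ≤ 2 ^ n := by omega
          exact_mod_cast this)
      have hev : Even (2 * ((n + 1) * d) + 2) := ⟨(n + 1) * d + 1, by ring⟩
      apply Fin19.one_le_E _ (fun x => hev.pow_nonneg _) x
      have hcard : (Fintype.card (Om d n) : ℝ) = 2 ^ ((n + 1) * d) := by
        simp [pow_mul]
      rw [hcard, ← hev.pow_abs]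
      have h2 : (2 : ℝ) ≤ |discw Finset.univ (fun μ => (m : ℝ) * lam μ) (m : ℝ) o u x / V| := by
        rw [abs_div, abs_of_pos hV0, le_div_iff₀ hV0]
        calc 2 * V = c₁ * N ^ e := by rw [hV]; ring
          _ ≤ _ := hx
      calc (2 : ℝ) ^ ((n + 1) * d) ≤ 2 ^ (2 * ((n + 1) * d) + 2) :=
            pow_le_pow_right₀ (by norm_num) (by omega)
        _ ≤ _ := pow_le_pow_left₀ (by norm_num) h2 _)
    refine le_trans (ENNReal.ofReal_le_ofReal ?_) (htr.trans
      (eLpNorm_le_eLpNorm_of_exponent_le le_top (measurable_locD lam ξ).aestronglyMeasurable))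
    apply div_le_div_of_nonneg_right _ hmpos.le
    calc c * L ^ e ≤ c₁ / 2 * min 1 (3 ^ e) * L ^ e := by
          apply mul_le_mul_of_nonneg_right (min_le_left _ _)
          positivity
      _ = c₁ / 2 * (min 1 (3 ^ e) * L ^ e) := by ring
      _ ≤ c₁ / 2 * N ^ e := by gcongr
      _ = V := hV.symm

end Pool.Agent.NH43.AD
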