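import Pool.Agent.NH43.AD.StmP
import Pool.Agent.NH99.WZ.StmC

set_option autoImplicit false

/-!
# Project AD, AD-30: matrix Freedman inequality for finite sets of rows and columns
-/

namespace Pool.Agent.NH43.AD

open Finset
open Pool.Agent.H397R2.SD (E)
open Pool.Agent.NH44.AD (MO SB n1 n2)
open Pool.Agent.NH99.WZ (Fl Op)

namespace Fr2

variable {d : ℕ}

/-- an enumeration of `R` -/
noncomputable def en (R : Finset (Ce d)) (k : ℕ) : Ce d :=
  if h : k < R.card then (R.equivFin.symm ⟨k, h⟩).1 else fun _ => 0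

open Classical in
/-- the number of an element of `R` -/
noncomputable def ix (R : Finset (Ce d)) (a : Ce d) : ℕ :=
  if h : a ∈ R then (R.equivFin ⟨a, h⟩ : ℕ) else 0

theorem ix_en (R : Finset (Ce d)) {k : ℕ} (hk : k < R.card) : ix R (en R k) = k := by
  unfold en
  rw [dif_pos hk]
  have hm : (R.equivFin.symm ⟨k, hk⟩).1 ∈ R := (R.equivFin.symm ⟨k, hk⟩).2
  unfold ix
  rw [dif_pos hm]
  have : (⟨(R.equivFin.symm ⟨k, hk⟩).1, hm⟩ : R) = R.equivFin.symm ⟨k, hk⟩ := rfl
  rw [this, Equiv.apply_symm_apply]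

theorem sum_en (R : Finset (Ce d)) (g : Ce d → ℝ) :
    ∑ a ∈ R, g a = ∑ k ∈ range R.card, g (en R k) := by
  rw [← Finset.sum_coe_sort R g, Finset.sum_range fun k => g (en R k),
    ← Equiv.sum_comp R.equivFin.symm]
  refine Finset.sum_congr rfl fun i _ => ?_
  unfold en
  rw [dif_pos i.2]

theorem sum_trunc {n K : ℕ} (h : n ≤ K) (g : ℕ → ℝ) :
    ∑ k ∈ range K, (if k < n then g k else 0) = ∑ k ∈ range n, g k := by
  rw [← Finset.sum_filter]
  congr 1
  ext k
  simp only [mem_filter, mem_range]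
  omega

/-- the matrix on the numbers -/
noncomputable def mat (R C : Finset (Ce d)) (A : Ce d → Ce d → ℝ) (k j : ℕ) : ℝ :=
  if k < R.card ∧ j < C.card then A (en R k) (en C j) else 0

theorem sum_mat {R C : Finset (Ce d)} {K : ℕ} (hR : R.card ≤ K) (hC : C.card ≤ K)
    (F : ℕ → ℕ → ℝ) (A : Ce d → Ce d → ℝ) :
    ∑ k ∈ range K, ∑ j ∈ range K, F k j * mat R C A k j =
      ∑ k ∈ range R.card, ∑ j ∈ range C.card, F k j * A (en R k) (en C j) := by
  rw [← sum_trunc hR]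
  refine Finset.sum_congr rfl fun k _ => ?_
  split_ifs with hk
  · rw [← sum_trunc hC]
    refine Finset.sum_congr rfl fun j _ => ?_
    unfold mat
    split_ifs with h1 h2 h2
    · rfl
    · exact absurd h1.2 h2
    · exact absurd ⟨hk, h2⟩ h1
    · rw [mul_zero]
  · refine Finset.sum_eq_zero fun j _ => ?_
    unfold mat
    rw [if_neg fun h => hk h.1, mul_zero]

theorem sum_mat' {R C : Finset (Ce d)} {K : ℕ} (hR : R.card ≤ K) (hC : C.card ≤ K)
    (F : ℕ → ℕ → ℝ) (F' : Ce d → Ce d → ℝ) (A : Ce d → Ce d → ℝ)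
    (hF : ∀ k < R.card, ∀ j < C.card, F' (en R k) (en C j) = F k j) :
    ∑ k ∈ range K, ∑ j ∈ range K, F k j * mat R C A k j =
      ∑ a ∈ R, ∑ e ∈ C, F' a e * A a e := by
  rw [sum_mat hR hC, sum_en R]
  refine Finset.sum_congr rfl fun k hk => ?_
  rw [sum_en C]
  refine Finset.sum_congr rfl fun j hj => ?_
  rw [hF k (mem_range.1 hk) j (mem_range.1 hj)]

theorem n1_le {R : Finset (Ce d)} {K : ℕ} (hR : R.card ≤ K) (x : ℕ → ℝ) :
    n1 R (fun a => x (ix R a)) ≤ Real.sqrt (∑ k ∈ range K, x k ^ 2) := by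
  unfold n1
  apply Real.sqrt_le_sqrt
  rw [sum_en R fun a => x (ix R a) ^ 2]
  calc ∑ k ∈ range R.card, x (ix R (en R k)) ^ 2 = ∑ k ∈ range R.card, x k ^ 2 :=
        Finset.sum_congr rfl fun k hk => by rw [ix_en R (mem_range.1 hk)]
    _ ≤ _ := Finset.sum_le_sum_of_subset_of_nonneg (range_mono hR) fun _ _ _ => sq_nonneg _

theorem n2_le {R : Finset (Ce d)} {K V : ℕ} (hR : R.card ≤ K) (z : ℕ → ℕ → ℝ) :
    n2 R V (fun a v => z (ix R a) v) ≤
      Real.sqrt (∑ k ∈ range K, ∑ v ∈ range V, z k v ^ 2) := by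
  unfold n2
  apply Real.sqrt_le_sqrt
  rw [sum_en R fun a => ∑ v ∈ range V, z (ix R a) v ^ 2]
  calc ∑ k ∈ range R.card, ∑ v ∈ range V, z (ix R (en R k)) v ^ 2 =
        ∑ k ∈ range R.card, ∑ v ∈ range V, z k v ^ 2 :=
        Finset.sum_congr rfl fun k hk => by rw [ix_en R (mem_range.1 hk)]
    _ ≤ _ := Finset.sum_le_sum_of_subset_of_nonneg (range_mono hR) fun _ _ _ =>
        Finset.sum_nonneg fun _ _ => sq_nonneg _

theorem swap3 {K V : ℕ} (F : ℕ → ℕ → ℕ → ℝ) :
    ∑ k ∈ range K, ∑ j ∈ range K, ∑ v ∈ range V, F k j v =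
      ∑ v ∈ range V, ∑ k ∈ range K, ∑ j ∈ range K, F k j v := by
  rw [Finset.sum_comm (s := range V)]
  refine Finset.sum_congr rfl fun k _ => ?_
  rw [Finset.sum_comm]

theorem fl_of {R C : Finset (Ce d)} {K V : ℕ} {M : ℕ → Ce d → Ce d → ℝ} {ν : ℝ} (hν : 0 ≤ ν)
    (hR : R.card ≤ K) (hC : C.card ≤ K) (h : SB R C V M ν) :
    Fl K V (fun k j v => mat R C (M v) k j) ν := by
  intro x Z
  constructor
  · have h1 := (h (fun a => x (ix R a)) (fun e v => Z (ix C e) v)).1
    have h2 : ∑ k ∈ range K, ∑ j ∈ range K, ∑ v ∈ range V, x k * Z j v * mat R C (M v) k j =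
        ∑ v ∈ range V, ∑ a ∈ R, ∑ e ∈ C, x (ix R a) * Z (ix C e) v * M v a e := by
      rw [swap3]
      refine Finset.sum_congr rfl fun v _ => ?_
      refine sum_mat' hR hC (fun k j => x k * Z j v) (fun a e => x (ix R a) * Z (ix C e) v) _ ?_
      intro k hk j hj
      rw [ix_en R hk, ix_en C hj]
    rw [h2]
    refine h1.trans (mul_le_mul_of_nonneg_left ?_ hν)
    exact mul_le_mul (n1_le hR x) (n2_le hC Z) (Real.sqrt_nonneg _) (Real.sqrt_nonneg _)
  · have h1 := (h (fun e => x (ix C e)) (fun a v => Z (ix R a) v)).2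
    have h2 : ∑ k ∈ range K, ∑ j ∈ range K, ∑ v ∈ range V, x j * Z k v * mat R C (M v) k j =
        ∑ v ∈ range V, ∑ a ∈ R, ∑ e ∈ C, x (ix C e) * Z (ix R a) v * M v a e := by
      rw [swap3]
      refine Finset.sum_congr rfl fun v _ => ?_
      refine sum_mat' hR hC (fun k j => x j * Z k v) (fun a e => x (ix C e) * Z (ix R a) v) _ ?_
      intro k hk j hj
      rw [ix_en R hk, ix_en C hj]
    rw [h2]
    refine h1.trans (mul_le_mul_of_nonneg_left ?_ hν)
    exact mul_le_mul (n1_le hC x) (n2_le hR Z) (Real.sqrt_nonneg _) (Real.sqrt_nonneg _)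

theorem mat_sum {R C : Finset (Ce d)} {V : ℕ} (c : ℕ → ℝ) (M : ℕ → Ce d → Ce d → ℝ) (k j : ℕ) :
    ∑ v ∈ range V, c v * mat R C (M v) k j =
      mat R C (fun a e => ∑ v ∈ range V, c v * M v a e) k j := by
  unfold mat
  split_ifs
  · rfl
  · simp

theorem n1_eq {R : Finset (Ce d)} {K : ℕ} (hR : R.card ≤ K) (x : Ce d → ℝ) :
    Real.sqrt (∑ k ∈ range K, (if k < R.card then x (en R k) else 0) ^ 2) = n1 R x := by
  unfold n1
  congr 1
  rw [sum_en R, ← sum_trunc hR]
  refine Finset.sum_congr rfl fun k _ => ?_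
  split_ifs
  · rfl
  · norm_num

theorem mo_of {R C : Finset (Ce d)} {K V : ℕ} {M : ℕ → Ce d → Ce d → ℝ} {c : ℕ → ℝ} {a : ℝ}
    (hR : R.card ≤ K) (hC : C.card ≤ K)
    (h : Op K K (fun k j => ∑ v ∈ range V, c v * mat R C (M v) k j) a) :
    MO R C (fun k j => ∑ v ∈ range V, c v * M v k j) a := by
  intro x z
  have h1 := h (fun k => if k < R.card then x (en R k) else 0)
    (fun k => if k < C.card then z (en C k) else 0)
  rw [n1_eq hR, n1_eq hC] at h1
  refine le_of_eq_of_le ?_ h1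
  congr 1
  simp only [mat_sum]
  rw [← sum_mat' hR hC (fun k j => (if k < R.card then x (en R k) else 0) *
    (if j < C.card then z (en C j) else 0)) (fun a e => x a * z e)
    (fun a e => ∑ v ∈ range V, c v * M v a e)]
  intro k hk j hj
  rw [if_pos hk, if_pos hj]

theorem E_mono {Ω : Type} [Fintype Ω] {f g : Ω → ℝ} (h : ∀ x, f x ≤ g x) : E f ≤ E g := by
  unfold E
  exact div_le_div_of_nonneg_right (Finset.sum_le_sum fun x _ => h x) (Nat.cast_nonneg _)

end Fr2

open Fr2 in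
theorem t_FR2 (h : Pool.Agent.NH99.WZ.S_FRD) : S_FR2 := by
  classical
  intro d R C Ω _ _ V T X α M ν a hT hX hXT hXT' hα hM hα1 hν ha
  have hR : R.card ≤ R.card + C.card := Nat.le_add_right _ _
  have hC : C.card ≤ R.card + C.card := Nat.le_add_left _ _
  have h1 := h Ω V (R.card + C.card) T X α (fun v x => mat R C (M v x)) ν a hT hX hXT hXT' hα
    (fun v u x huv => by rw [hM v u x huv]) hα1 hν ha
  have h2 : 4 * (((R.card + C.card : ℕ) : ℝ) + 1) * Real.exp (-(a ^ 2 / (2 * ν ^ 2))) =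
      4 * ((R.card : ℝ) + C.card + 1) * Real.exp (-(a ^ 2 / (2 * ν ^ 2))) := by
    push_cast
    ring
  rw [h2] at h1
  refine le_trans (E_mono fun x => ?_) h1
  have hprod : 0 ≤ ∏ v ∈ range V, (1 + X v x * α v x) := by
    refine Finset.prod_nonneg fun v _ => ?_
    have h3 := hα1 v x
    rw [abs_le] at h3
    rcases hX v x with h4 | h4 <;> rw [h4] <;> linarith [h3.1, h3.2]
  by_cases hc : SB R C V (fun v => M v x) ν ∧
      ¬ MO R C (fun k j => ∑ v ∈ range V, (X v x - α v x) * M v x k j) a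
  · rw [if_pos hc, if_pos]
    refine ⟨fl_of hν.le hR hC hc.1, fun hop => hc.2 ?_⟩
    exact mo_of (c := fun v => X v x - α v x) hR hC hop
  · rw [if_neg hc]
    split_ifs
    · exact hprod
    · exact le_refl _

end Pool.Agent.NH43.AD
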