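import Pool.Agent.NH43.AD.StmL

/-!
# AD-8: the conditions are functions of the digits below the cell (helper45)
-/

set_option autoImplicit false

namespace Pool.Agent.NH43.AD

open Finset
open Pool.Agent.NH99.WZ (wal)
open Pool.Agent.NH44.AD (HB TV bx pr)

namespace Gpre

variable {d : ℕ}

theorem HB_congr (m : ℕ) (P : Ce d) (I : Finset (Fin d)) {u u' : Ce d → ℝ} (r : ℝ)
    (hu : ∀ s : Ce d, (∀ i, s i ≤ P i) → u s = u' s) (h : HB m P I u r) : HB m P I u' r := by
  intro θ hθ A B hA hB hAB x z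
  have h1 := h θ hθ A B hA hB hAB x z
  have h2 : ∀ s ∈ bx I P, TV m P Iᶜ θ u' s = TV m P Iᶜ θ u s := by
    intro s hs
    unfold TV
    refine sum_congr rfl fun q hq => ?_
    rw [hu q fun i => ?_]
    have hqi := Fintype.mem_piFinset.1 hq i
    have hsi := Fintype.mem_piFinset.1 hs i
    by_cases hi : i ∈ I
    · rw [if_neg (by rw [mem_compl, not_not]; exact hi), mem_singleton] at hqi
      rw [if_pos hi, mem_range] at hsi
      rw [hqi]
      exact Nat.lt_succ_iff.1 hsi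
    · rw [if_pos (mem_compl.2 hi), mem_range] at hqi
      exact Nat.lt_succ_iff.1 hqi
  have h3 : ∑ s ∈ bx I P, x (pr A P s) * z (pr B P s) * TV m P Iᶜ θ u' s =
      ∑ s ∈ bx I P, x (pr A P s) * z (pr B P s) * TV m P Iᶜ θ u s :=
    sum_congr rfl fun s hs => by rw [h2 s hs]
  rw [h3]
  exact h1

theorem Cond_congr (m : ℕ) (η : ℕ → ℝ) {X X' : Fin d → ℕ → ℝ} {y y' : Ce d → ℝ} (q : Ce d)
    (hD : DD y q = DD y' q)
    (hK : ∀ S : Finset (Fin d), S.Nonempty → ∀ s : Ce d, (∀ i, s i ≤ q i) →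
      KK X y S s = KK X' y' S s)
    (h : Cond m η X y q) : Cond m η X' y' q := by
  obtain ⟨h1, h2, h3⟩ := h
  refine ⟨hD ▸ h1, fun S hS => ?_, fun S hS hSu => ?_⟩
  · rw [← hK S hS q fun i => le_rfl]
    exact h2 S hS
  · exact HB_congr m q S _ (hK S hS) (h3 S hS hSu)

end Gpre

open Gpre in
theorem t_GPRE (h3 : S_LAW) (hP : S_POS) (h7 : S_PRE) : S_GPRE := by
  intro d n m η Ω _ T X f ρ hd hyp q hq
  obtain ⟨p1, -, p3, -⟩ := h7 d n Ω T X f ρ hd hyp
  -- one direction for a single condition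
  have key : ∀ (r : Ce d) (x : Ω), (∀ i, r i ≤ n) →
      (∀ s : Ce d, (∀ j, s j ≤ r j) → DD (yx ρ f x) s ≠ 0) → ∀ (i : Fin d) (v : ℕ), r i ≤ v →
      Cond m η (Xx X x) (yx ρ f x) r → Cond m η (Xx X (T i v x)) (yx ρ f (T i v x)) r := by
    intro r x hr hne i v hv hc
    refine Cond_congr m η r (p1 r i v hv x).symm (fun S hS s hs => ?_) hc
    exact (p3 S s x hS (fun j => (hs j).trans (hr j))
      (fun s' hs' => hne s' fun j => (hs' j).trans (hs j)) i v ((hs i).trans hv)).symm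
  have good1 : ∀ (i : Fin d) (v : ℕ), q i ≤ v → ∀ x : Ω, Good m η (Xx X x) (yx ρ f x) q →
      Good m η (Xx X (T i v x)) (yx ρ f (T i v x)) q := by
    intro i v hv x hg r hr
    exact key r x (fun j => (hr j).trans (hq j))
      (fun s hs => (hg s fun j => (hs j).trans (hr j)).1.ne') i v ((hr i).trans hv) (hg r hr)
  have pre1 : ∀ (i : Fin d) (v : ℕ), q i ≤ v → ∀ x : Ω, Pregood m η (Xx X x) (yx ρ f x) q →
      Pregood m η (Xx X (T i v x)) (yx ρ f (T i v x)) q := by
    intro i v hv x hg r hr hrq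
    refine key r x (fun j => (hr j).trans (hq j)) (fun s hs => ?_) i v ((hr i).trans hv)
      (hg r hr hrq)
    refine (hg s (fun j => (hs j).trans (hr j)) ?_).1.ne'
    rintro rfl
    exact hrq (funext fun j => le_antisymm (hr j) (hs j))
  have pre2 : ∀ (i : Fin d) (v : ℕ), q i ≤ v → ∀ x : Ω, Pregood m η (Xx X x) (yx ρ f x) q →
      Cond m η (Xx X x) (yx ρ f x) q → Cond m η (Xx X (T i v x)) (yx ρ f (T i v x)) q := by
    intro i v hv x hg hc
    refine key q x hq (fun s hs => ?_) i v hv hc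
    by_cases hsq : s = q
    · rw [hsq]; exact hc.1.ne'
    · exact (hg s hs hsq).1.ne'
  refine ⟨fun i v hv x => propext ⟨fun h => ?_, good1 i v hv x⟩,
    fun i v hv x => propext ⟨fun h => ?_, pre1 i v hv x⟩,
    fun i v hv x => propext ⟨fun h => ?_, fun h => ?_⟩⟩
  · have := good1 i v hv _ h
    rwa [hyp.inv] at this
  · have := pre1 i v hv _ h
    rwa [hyp.inv] at this
  · have h1 := pre1 i v hv _ h.1
    rw [hyp.inv] at h1
    exact ⟨h1, fun hc => h.2 (pre2 i v hv x h1 hc)⟩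
  · refine ⟨pre1 i v hv x h.1, fun hc => h.2 ?_⟩
    have := pre2 i v hv _ (pre1 i v hv x h.1) hc
    rwa [hyp.inv] at this

end Pool.Agent.NH43.AD
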