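import Pool.Agent.NH43.AD.StmL

/-!
# The `L_1` norm of the test function (AD-10)
-/

set_option autoImplicit false

namespace Pool.Agent.NH43.AD

open Finset
open Pool.Agent.H397R2.SD (E)

namespace L1

variable {d : ℕ}

theorem E_mono {Ω : Type} [Fintype Ω] {g h : Ω → ℝ} (H : ∀ x, g x ≤ h x) : E g ≤ E h := by
  unfold E
  exact div_le_div_of_nonneg_right (sum_le_sum fun x _ => H x) (Nat.cast_nonneg _)

theorem E_sum {Ω ι : Type} [Fintype Ω] (s : Finset ι) (g : ι → Ω → ℝ) :
    E (fun x => ∑ i ∈ s, g i x) = ∑ i ∈ s, E (g i) := by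
  unfold E
  rw [sum_comm, sum_div]

theorem E_add {Ω : Type} [Fintype Ω] (g h : Ω → ℝ) :
    E (fun x => g x + h x) = E g + E h := by
  unfold E
  rw [sum_add_distrib, add_div]

theorem mem_cells {s r : Ce d} : r ∈ cells s ↔ ∀ i, r i ≤ s i := by
  unfold cells
  rw [Fintype.mem_piFinset]
  refine forall_congr' fun i => ?_
  rw [mem_range]
  omega

theorem card_cells (n : ℕ) : (cells (fun _ : Fin d => n)).card = (n + 1) ^ d := by
  unfold cells
  rw [Fintype.card_piFinset]
  simp

/-! ### Telescoping -/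

theorem inner_prod (g : Fin d → ℕ → ℝ) (p : Ce d) :
    ∑ U : Finset (Fin d), (-1 : ℝ) ^ (d - U.card) * ∏ i, g i (up U p i) =
      ∏ i, (g i (p i + 1) - g i (p i)) := by
  have e : ∀ i, g i (p i + 1) - g i (p i) = g i (p i + 1) + (-g i (p i)) := fun i => by ring
  rw [prod_congr rfl fun i _ => e i, prod_add]
  rw [powerset_univ]
  refine sum_congr rfl fun U _ => ?_
  have h1 : ∏ i, g i (up U p i) = (∏ i ∈ univ \ U, g i (p i)) * ∏ i ∈ U, g i (p i + 1) := by
    rw [← prod_sdiff (subset_univ U)]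
    refine congrArg₂ _ (prod_congr rfl fun i hi => ?_) (prod_congr rfl fun i hi => ?_)
    · unfold up
      rw [if_neg (mem_sdiff.1 hi).2]
    · unfold up
      rw [if_pos hi]
  have h2 : ∏ i ∈ univ \ U, -g i (p i) = (-1 : ℝ) ^ (d - U.card) * ∏ i ∈ univ \ U, g i (p i) := by
    have h3 : (univ \ U).card = d - U.card := by
      rw [card_sdiff_of_subset (subset_univ U), card_univ, Fintype.card_fin]
    rw [← h3, ← prod_const, ← prod_mul_distrib]
    refine prod_congr rfl fun i _ => ?_
    ring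
  rw [h1, h2]
  ring

theorem tele_prod (n : ℕ) (g : Fin d → ℕ → ℝ) :
    ∑ p ∈ cells (fun _ : Fin d => n), ∑ U : Finset (Fin d),
      (-1 : ℝ) ^ (d - U.card) * ∏ i, g i (up U p i) = ∏ i, (g i (n + 1) - g i 0) := by
  rw [sum_congr rfl fun p _ => inner_prod g p]
  unfold cells
  rw [← prod_univ_sum (fun _ : Fin d => range (n + 1)) (fun i j => g i (j + 1) - g i j)]
  exact prod_congr rfl fun i _ => sum_range_sub _ _

theorem up_mem {n : ℕ} {p : Ce d} (hp : p ∈ cells (fun _ : Fin d => n)) (U : Finset (Fin d)) :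
    up U p ∈ cells (fun _ : Fin d => n + 1) := by
  rw [mem_cells] at hp ⊢
  intro i
  have := hp i
  unfold up
  split_ifs <;> omega

theorem delta {n : ℕ} (G : Ce d → ℝ) {t : Ce d} (ht : t ∈ cells (fun _ : Fin d => n + 1)) :
    G t = ∑ s ∈ cells (fun _ : Fin d => n + 1), G s * ∏ i, (if t i = s i then (1 : ℝ) else 0) := by
  rw [sum_eq_single_of_mem t ht]
  · simp
  · intro s _ hs
    obtain ⟨i, hi⟩ := Function.ne_iff.1 hs
    rw [prod_eq_zero (mem_univ i), mul_zero]
    rw [if_neg]
    exact fun h => hi h.symm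

theorem tele (n : ℕ) (G : Ce d → ℝ) (hG : ∀ s : Ce d, (∃ i, s i = 0) → G s = 0) :
    ∑ p ∈ cells (fun _ : Fin d => n), ∑ U : Finset (Fin d),
      (-1 : ℝ) ^ (d - U.card) * G (up U p) = G (fun _ => n + 1) := by
  have e1 : ∀ p ∈ cells (fun _ : Fin d => n), ∑ U : Finset (Fin d),
      (-1 : ℝ) ^ (d - U.card) * G (up U p) = ∑ s ∈ cells (fun _ : Fin d => n + 1),
        G s * ∑ U : Finset (Fin d), (-1 : ℝ) ^ (d - U.card) *
          ∏ i, (if up U p i = s i then (1 : ℝ) else 0) := by
    intro p hp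
    have e2 : ∀ U ∈ (univ : Finset (Finset (Fin d))), (-1 : ℝ) ^ (d - U.card) * G (up U p) =
        ∑ s ∈ cells (fun _ : Fin d => n + 1), G s * ((-1 : ℝ) ^ (d - U.card) *
          ∏ i, (if up U p i = s i then (1 : ℝ) else 0)) := by
      intro U _
      rw [delta G (up_mem hp U), mul_sum]
      refine sum_congr rfl fun s _ => ?_
      ring
    rw [sum_congr rfl e2, sum_comm]
    refine sum_congr rfl fun s _ => ?_
    rw [mul_sum]
  rw [sum_congr rfl e1, sum_comm]
  have e3 : ∀ s ∈ cells (fun _ : Fin d => n + 1), ∑ p ∈ cells (fun _ : Fin d => n),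
      G s * ∑ U : Finset (Fin d), (-1 : ℝ) ^ (d - U.card) *
          ∏ i, (if up U p i = s i then (1 : ℝ) else 0) =
      G s * ∏ i, (if n + 1 = s i then (1 : ℝ) else 0) := by
    intro s _
    rw [← mul_sum, tele_prod n (fun i v => if v = s i then (1 : ℝ) else 0)]
    by_cases h : ∃ i, s i = 0
    · rw [hG s h, zero_mul, zero_mul]
    · push Not at h
      refine congrArg _ (prod_congr rfl fun i _ => ?_)
      rw [if_neg (fun h0 => h i h0.symm : ¬ (0 = s i)), sub_zero]
  rw [sum_congr rfl e3]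
  have hmem : (fun _ : Fin d => n + 1) ∈ cells (fun _ : Fin d => n + 1) :=
    mem_cells.2 fun i => le_rfl
  exact (delta G hmem).symm

theorem tele_one (n : ℕ) (hd : 1 ≤ d) (F : Ce d → ℝ) (hF : ∀ s : Ce d, (∃ i, s i = 0) → F s = 1) :
    ∑ p ∈ cells (fun _ : Fin d => n), ∑ U : Finset (Fin d),
      (-1 : ℝ) ^ (d - U.card) * F (up U p) = F (fun _ => n + 1) - 1 := by
  have h := tele n (fun s => F s - 1) (fun s hs => by rw [hF s hs, sub_self])
  rw [← h]
  refine sum_congr rfl fun p _ => ?_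
  have h0 : ∑ U : Finset (Fin d), (-1 : ℝ) ^ (d - U.card) * 1 = 0 := by
    have h1 := inner_prod (fun _ _ => (1 : ℝ)) p
    simp only [prod_const_one, sub_self] at h1
    rw [h1]
    exact prod_eq_zero (mem_univ (⟨0, by omega⟩ : Fin d)) rfl
  have e : ∀ U ∈ (univ : Finset (Finset (Fin d))), (-1 : ℝ) ^ (d - U.card) * (F (up U p) - 1) =
      (-1 : ℝ) ^ (d - U.card) * F (up U p) - (-1 : ℝ) ^ (d - U.card) * 1 := fun U _ => by ring
  rw [sum_congr rfl e, sum_sub_distrib, h0, sub_zero]

/-! ### Bad cells -/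

variable {m : ℕ} {η : ℕ → ℝ} {X : Fin d → ℕ → ℝ} {y : Ce d → ℝ}

theorem good_of_le {p q : Ce d} (h : Good m η X y p) (hq : ∀ i, q i ≤ p i) :
    Good m η X y q := fun r hr => h r fun i => (hr i).trans (hq i)

theorem exists_bad {p : Ce d} (h : ¬ Good m η X y p) :
    ∃ q ∈ cells p, Pregood m η X y q ∧ ¬ Cond m η X y q := by
  classical
  unfold Good at h
  push Not at h
  obtain ⟨r, hr, hc⟩ := h
  have hex : ∃ k : ℕ, ∃ q : Ce d, (∀ i, q i ≤ p i) ∧ ¬ Cond m η X y q ∧ ∑ i, q i = k :=
    ⟨_, r, hr, hc, rfl⟩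
  obtain ⟨q, hq, hqc, hqs⟩ := Nat.find_spec hex
  refine ⟨q, mem_cells.2 hq, fun r' hr' hne => ?_, hqc⟩
  by_contra hbad
  have hlt : ∑ i, r' i < ∑ i, q i := by
    obtain ⟨j, hj⟩ := Function.ne_iff.1 hne
    exact sum_lt_sum (fun i _ => hr' i) ⟨j, mem_univ _, lt_of_le_of_ne (hr' j) hj⟩
  rw [hqs] at hlt
  exact Nat.find_min hex hlt ⟨r', fun i => (hr' i).trans (hq i), hbad, rfl⟩

end L1

open L1 in
open Classical in
theorem t_L1 (h3 : S_LAW) (_hP : S_POS) (h8 : S_GPRE) (h9 : S_SUP) : S_L1 := by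
  intro d n m η Ω _ _ T X f ρ κ hd hH hκ hPF
  have hes1 : ∀ (x : Ω) (s : Ce d), (∃ i, s i = 0) → es m η ρ X f s x = 1 := by
    intro x s hs
    unfold es
    rw [if_pos hs]
  have hes2 : ∀ (x : Ω) (s : Ce d), ¬ (∃ i, s i = 0) → es m η ρ X f s x =
      if Good m η (Xx X x) (yx ρ f x) (fun i => s i - 1) then DD (yx ρ f x) s else 0 := by
    intro x s hs
    unfold es
    rw [if_neg hs]
  have hDD1 : ∀ (x : Ω) (s : Ce d), (∃ i, s i = 0) → DD (yx ρ f x) s = 1 := by
    intro x s hs
    exact (h3 d (Xx X x) (yx ρ f x) hd (fun i v => hH.sgn i v x)).1 s hs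
  have hesnn : ∀ (s : Ce d), (∀ i, s i ≤ n + 1) → ∀ x, 0 ≤ es m η ρ X f s x := fun s hs =>
    (h9 d n m η Ω T X f ρ hd hH s s (fun _ => le_rfl) hs).1
  have hupn : ∀ p ∈ cells (fun _ : Fin d => n), ∀ U : Finset (Fin d), ∀ i, up U p i ≤ n + 1 :=
    fun p hp U => mem_cells.1 (up_mem hp U)
  -- pointwise
  have hpt : ∀ x, |Psi n m η ρ X f x| ≤ es m η ρ X f (fun _ => n + 1) x +
      ∑ p ∈ cells (fun _ : Fin d => n), ∑ U : Finset (Fin d), ∑ q ∈ cells p,
        if Pregood m η (Xx X x) (yx ρ f x) q ∧ ¬ Cond m η (Xx X x) (yx ρ f x) q then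
          es m η ρ X f (up U p) x else 0 := by
    intro x
    have ht := tele_one n (by omega) (fun s => es m η ρ X f s x) (hes1 x)
    have hPsi : Psi n m η ρ X f x = es m η ρ X f (fun _ => n + 1) x +
        ∑ p ∈ cells (fun _ : Fin d => n), ∑ U : Finset (Fin d), (-1 : ℝ) ^ (d - U.card) *
          ((if Good m η (Xx X x) (yx ρ f x) p then DD (yx ρ f x) (up U p) else 0) -
            es m η ρ X f (up U p) x) := by
      unfold Psi
      have e1 : ∑ p ∈ cells (fun _ : Fin d => n), ∑ U : Finset (Fin d), (-1 : ℝ) ^ (d - U.card) *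
          ((if Good m η (Xx X x) (yx ρ f x) p then DD (yx ρ f x) (up U p) else 0) -
            es m η ρ X f (up U p) x) =
          ∑ p ∈ cells (fun _ : Fin d => n),
            (if Good m η (Xx X x) (yx ρ f x) p then top (yx ρ f x) p else 0) -
          ∑ p ∈ cells (fun _ : Fin d => n), ∑ U : Finset (Fin d), (-1 : ℝ) ^ (d - U.card) *
            es m η ρ X f (up U p) x := by
        rw [← sum_sub_distrib]
        refine sum_congr rfl fun p _ => ?_
        unfold top
        split_ifs with hg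
        · rw [← sum_sub_distrib]
          refine sum_congr rfl fun U _ => ?_
          ring
        · rw [zero_sub, ← sum_neg_distrib]
          refine sum_congr rfl fun U _ => ?_
          ring
      rw [e1, ht]
      ring
    rw [hPsi]
    refine (abs_add_le _ _).trans (add_le_add ?_ ?_)
    · rw [abs_of_nonneg]
      exact hesnn _ (fun _ => le_rfl) x
    · refine (abs_sum_le_sum_abs _ _).trans (sum_le_sum fun p hp => ?_)
      refine (abs_sum_le_sum_abs _ _).trans (sum_le_sum fun U _ => ?_)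
      rw [abs_mul, abs_pow, abs_neg, abs_one, one_pow, one_mul]
      have hnn := hesnn (up U p) (hupn p hp U) x
      have hsum : 0 ≤ ∑ q ∈ cells p,
          if Pregood m η (Xx X x) (yx ρ f x) q ∧ ¬ Cond m η (Xx X x) (yx ρ f x) q then
            es m η ρ X f (up U p) x else 0 := by
        refine sum_nonneg fun q _ => ?_
        split_ifs
        · exact hnn
        · exact le_rfl
      by_cases hg : Good m η (Xx X x) (yx ρ f x) p
      · rw [if_pos hg]
        have e : DD (yx ρ f x) (up U p) = es m η ρ X f (up U p) x := by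
          by_cases h0 : ∃ i, up U p i = 0
          · rw [hDD1 x _ h0, hes1 x _ h0]
          · rw [hes2 x _ h0, if_pos]
            refine good_of_le hg fun i => ?_
            unfold up
            split_ifs <;> omega
        rw [e, sub_self, abs_zero]
        exact hsum
      · rw [if_neg hg, zero_sub, abs_neg, abs_of_nonneg hnn]
        obtain ⟨q, hq, hbad⟩ := exists_bad hg
        have h5 : (if Pregood m η (Xx X x) (yx ρ f x) q ∧ ¬ Cond m η (Xx X x) (yx ρ f x) q then
            es m η ρ X f (up U p) x else 0) ≤ ∑ q ∈ cells p,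
          if Pregood m η (Xx X x) (yx ρ f x) q ∧ ¬ Cond m η (Xx X x) (yx ρ f x) q then
            es m η ρ X f (up U p) x else 0 := by
          refine single_le_sum (f := fun q => if Pregood m η (Xx X x) (yx ρ f x) q ∧
            ¬ Cond m η (Xx X x) (yx ρ f x) q then es m η ρ X f (up U p) x else 0)
            (fun q' _ => ?_) hq
          split_ifs
          · exact hnn
          · exact le_rfl
        rw [if_pos hbad] at h5
        exact h5
  refine (E_mono hpt).trans ?_
  rw [E_add]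
  have hN : E (es m η ρ X f (fun _ => n + 1)) ≤ 1 :=
    (h9 d n m η Ω T X f ρ hd hH (fun _ => n + 1) (fun _ => n + 1) (fun _ => le_rfl)
      (fun _ => le_rfl)).2.2
  -- the terms
  have hterm : ∀ p ∈ cells (fun _ : Fin d => n), ∀ U : Finset (Fin d), ∀ q ∈ cells p,
      E (fun x => if Pregood m η (Xx X x) (yx ρ f x) q ∧ ¬ Cond m η (Xx X x) (yx ρ f x) q then
          es m η ρ X f (up U p) x else 0) ≤ κ := by
    intro p hp U q hq
    rw [mem_cells] at hp hq
    have hqn : ∀ i, q i ≤ n := fun i => (hq i).trans (hp i)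
    have hqu : ∀ i, q i ≤ up U p i := by
      intro i
      have := hq i
      unfold up
      split_ifs <;> omega
    have h5 := (h9 d n m η Ω T X f ρ hd hH (up U p) q hqu
      (hupn p (mem_cells.2 hp) U)).2.1
      (fun x => Pregood m η (Xx X x) (yx ρ f x) q ∧ ¬ Cond m η (Xx X x) (yx ρ f x) q)
      (fun i v hv x => by
        have := (h8 d n m η Ω T X f ρ hd hH q hqn).2.2 i v hv x
        simp only at this ⊢
        rw [this])
    have e0 : ∀ x, (if Pregood m η (Xx X x) (yx ρ f x) q ∧ ¬ Cond m η (Xx X x) (yx ρ f x) q then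
        es m η ρ X f (up U p) x else 0) =
        @ite ℝ (Pregood m η (Xx X x) (yx ρ f x) q ∧ ¬ Cond m η (Xx X x) (yx ρ f x) q)
          (propDecidable _) (es m η ρ X f (up U p) x) 0 := by
      intro x
      split_ifs <;> rfl
    refine (le_of_eq (congrArg E (funext e0))).trans (h5.trans ?_)
    refine le_trans (le_of_eq ?_) (hPF q hqn)
    unfold PF
    refine congrArg E ?_
    funext x
    split_ifs with hA
    · by_cases h0 : ∃ i, q i = 0
      · rw [hes1 x _ h0, hDD1 x _ h0]
      · rw [hes2 x _ h0, if_pos]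
        intro r hr
        refine hA.1 r (fun i => (hr i).trans (Nat.sub_le _ _)) ?_
        rintro rfl
        push Not at h0
        have hd0 : 0 < d := by omega
        have h6 : r ⟨0, hd0⟩ ≤ r ⟨0, hd0⟩ - 1 := hr ⟨0, hd0⟩
        have h7 := h0 ⟨0, hd0⟩
        omega
    · rfl
  have hS : E (fun x => ∑ p ∈ cells (fun _ : Fin d => n), ∑ U : Finset (Fin d), ∑ q ∈ cells p,
        if Pregood m η (Xx X x) (yx ρ f x) q ∧ ¬ Cond m η (Xx X x) (yx ρ f x) q then
          es m η ρ X f (up U p) x else 0) ≤ 2 ^ d * ((n : ℝ) + 1) ^ (2 * d) * κ := by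
    rw [E_sum]
    have h6 : ∀ p ∈ cells (fun _ : Fin d => n), E (fun x => ∑ U : Finset (Fin d), ∑ q ∈ cells p,
        if Pregood m η (Xx X x) (yx ρ f x) q ∧ ¬ Cond m η (Xx X x) (yx ρ f x) q then
          es m η ρ X f (up U p) x else 0) ≤ 2 ^ d * (((n : ℝ) + 1) ^ d * κ) := by
      intro p hp
      rw [E_sum]
      have h7 : ∀ U ∈ (univ : Finset (Finset (Fin d))), E (fun x => ∑ q ∈ cells p,
        if Pregood m η (Xx X x) (yx ρ f x) q ∧ ¬ Cond m η (Xx X x) (yx ρ f x) q then
          es m η ρ X f (up U p) x else 0) ≤ ((n : ℝ) + 1) ^ d * κ := by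
        intro U _
        rw [E_sum]
        refine (sum_le_sum fun q hq => hterm p hp U q hq).trans ?_
        rw [sum_const, nsmul_eq_mul]
        refine mul_le_mul_of_nonneg_right ?_ hκ
        have h8 : (cells p).card ≤ (n + 1) ^ d := by
          rw [← card_cells (d := d) n]
          refine card_le_card fun q hq => ?_
          rw [mem_cells] at hq hp ⊢
          exact fun i => (hq i).trans (hp i)
        exact_mod_cast h8
      refine (sum_le_sum h7).trans (le_of_eq ?_)
      rw [sum_const, card_univ, Fintype.card_finset, Fintype.card_fin, nsmul_eq_mul]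
      push_cast
      ring
    refine (sum_le_sum h6).trans (le_of_eq ?_)
    rw [sum_const, card_cells, nsmul_eq_mul]
    push_cast
    ring
  exact add_le_add hN hS

end Pool.Agent.NH43.AD
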