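import Pool.Agent.NH43.AD.StmL

set_option autoImplicit false

/-!
# AD-4: the law at a point
-/

namespace Pool.Agent.NH43.AD

open Finset

namespace LawP

variable {d : ℕ}

lemma up_empty (s : Ce d) : up ∅ s = s := by
  funext i; simp [up]

lemma up_univ (s : Ce d) : up univ s = fun i => s i + 1 := by
  funext i; simp [up]

lemma up_le (U : Finset (Fin d)) (s : Ce d) (i : Fin d) : up U s i ≤ s i + 1 := by
  unfold up; split_ifs <;> omega

lemma le_up (U : Finset (Fin d)) (s : Ce d) (i : Fin d) : s i ≤ up U s i := by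
  unfold up; split_ifs <;> omega

/-- the functions of the recursion -/
noncomputable def R0 (y : Ce d → ℝ) (p : Ce d) (U : Finset (Fin d)) : ℝ :=
  if U = univ then 0 else DD y (up U p) / DD y p

lemma DD_zero (y : Ce d → ℝ) (s : Ce d) (h : ∃ i, s i = 0) : DD y s = 1 := by
  rw [DD, dif_pos (Or.inr h)]

lemma DD_succ (hd : 2 ≤ d) (y : Ce d → ℝ) (p : Ce d) :
    DD y (fun i => p i + 1) = DD y p * (y p - lo (R0 y p) univ) := by
  rw [DD, dif_neg]
  · have h1 : (fun i : Fin d => (p i + 1) - 1) = p := by funext i; simp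
    simp only [h1]
    rfl
  · rintro (h | ⟨i, hi⟩)
    · omega
    · simp at hi

lemma pos_of (s : Ce d) (h : ¬ ∃ i, s i = 0) : ∃ p : Ce d, s = fun i => p i + 1 := by
  push Not at h
  refine ⟨fun i => s i - 1, ?_⟩
  funext i
  have := h i
  show s i = s i - 1 + 1
  omega

lemma sum_up_lt (p : Ce d) (U : Finset (Fin d)) (hU : U ≠ univ) :
    ∑ i, up U p i < ∑ i, (p i + 1) := by
  obtain ⟨j, hj⟩ : ∃ j, j ∉ U := by
    by_contra hcon
    push Not at hcon
    exact hU (eq_univ_iff_forall.2 hcon)
  refine sum_lt_sum (fun i _ => up_le U p i) ⟨j, mem_univ _, ?_⟩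
  unfold up
  rw [if_neg hj]
  omega

lemma sum_lt' (hd : 2 ≤ d) (p : Ce d) : ∑ i, p i < ∑ i, (p i + 1) := by
  have : NeZero d := ⟨by omega⟩
  exact sum_lt_sum (fun i _ => by omega) ⟨0, mem_univ _, by omega⟩

/-- locality -/
lemma DD_loc (hd : 2 ≤ d) (y y' : Ce d → ℝ) : ∀ (N : ℕ) (s : Ce d), ∑ i, s i ≤ N →
    (∀ r : Ce d, (∀ i, r i < s i) → y r = y' r) → DD y s = DD y' s := by
  intro N
  induction N with
  | zero =>
    intro s hs _
    have : NeZero d := ⟨by omega⟩
    have h0 : s 0 = 0 := by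
      have h1 : s 0 ≤ ∑ i, s i := single_le_sum (f := s) (fun i _ => Nat.zero_le _) (mem_univ 0)
      omega
    rw [DD_zero y s ⟨0, h0⟩, DD_zero y' s ⟨0, h0⟩]
  | succ N ih =>
    intro s hs hy
    by_cases h : ∃ i, s i = 0
    · rw [DD_zero y s h, DD_zero y' s h]
    · obtain ⟨p, rfl⟩ := pos_of s h
      change ∑ i, (p i + 1) ≤ N + 1 at hs
      rw [DD_succ hd, DD_succ hd]
      have hp : DD y p = DD y' p := by
        refine ih p ?_ (fun r hr => hy r (fun i => Nat.lt_succ_of_lt (hr i)))
        have := sum_lt' hd p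
        omega
      have hR : R0 y p = R0 y' p := by
        funext U
        unfold R0
        split_ifs with hU
        · rfl
        · rw [hp, ih (up U p) ?_ (fun r hr => hy r (fun i => lt_of_lt_of_le (hr i) (up_le U p i)))]
          have := sum_up_lt p U hU
          omega
      rw [hp, hR, hy p (fun i => Nat.lt_succ_self _)]

/-- change of the value at the top -/
lemma lo_top (h1 : S_EX) (g : Finset (Fin d) → ℝ) (S : Finset (Fin d)) (hS : S.Nonempty) :
    lo g S = g S + lo (fun U => if U = S then 0 else g U) S := by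
  have e1 := (h1 d 0 g g 0 S)
  rw [lo.eq_1 (d := d) g S, lo.eq_1 (d := d) _ S]
  simp only [if_true]
  rw [dif_pos hS, dif_pos hS]
  have : ∑ B ∈ S.powerset, (if _hB : S.min' hS ∈ B ∧ B ⊂ S then lo g B * g (S \ B) else 0) =
      ∑ B ∈ S.powerset, (if _hB : S.min' hS ∈ B ∧ B ⊂ S then
        lo (fun U => if U = S then 0 else g U) B * (if S \ B = S then 0 else g (S \ B)) else 0) := by
    refine sum_congr rfl fun B _ => ?_
    split_ifs with h h'
    · exfalso
      have hm : S.min' hS ∈ S \ B := by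
        rw [h']; exact S.min'_mem hS
      exact (mem_sdiff.1 hm).2 h.1
    · congr 1
      refine (h1 d 0 g (fun U => if U = S then 0 else g U) 0 B).2.2.2.2.2.2.2.1 fun U hU => ?_
      rw [if_neg]
      rintro rfl
      exact h.2.2 hU
    · rfl
  rw [this]
  ring

lemma lo_single (g : Finset (Fin d) → ℝ) (k : Fin d) : lo g {k} = g {k} := by
  rw [lo.eq_1, dif_pos (singleton_nonempty k)]
  rw [sum_eq_zero, sub_zero]
  intro B _
  rw [dif_neg]
  rintro ⟨h1, h2⟩
  rw [min'_singleton] at h1
  exact h2.2 (singleton_subset_iff.2 h1)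

lemma lo_one (h1 : S_EX) (g : Finset (Fin d) → ℝ) (S : Finset (Fin d)) (hS : S.Nonempty)
    (hg : ∀ U ⊆ S, g U = 1) : lo g S = if S.card = 1 then 1 else 0 := by
  have e := h1 d 0 g (fun _ => 1) 0 S
  rw [e.2.2.2.2.2.2.2.1 hg]
  exact (h1 d 0 g (fun _ => 1) 0 S).2.2.2.2.2.2.2.2.2.2 hS

/-- no births below: density one -/
lemma DD_one (h1 : S_EX) (hd : 2 ≤ d) (y : Ce d → ℝ) : ∀ (N : ℕ) (s : Ce d), ∑ i, s i ≤ N →
    (∀ r : Ce d, (∀ i, r i < s i) → y r = 0) → DD y s = 1 := by
  have : NeZero d := ⟨by omega⟩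
  intro N
  induction N with
  | zero =>
    intro s hs _
    have h0 : s 0 = 0 := by
      have h1 : s 0 ≤ ∑ i, s i := single_le_sum (f := s) (fun i _ => Nat.zero_le _) (mem_univ 0)
      omega
    rw [DD_zero y s ⟨0, h0⟩]
  | succ N ih =>
    intro s hs hy
    by_cases h : ∃ i, s i = 0
    · rw [DD_zero y s h]
    · obtain ⟨p, rfl⟩ := pos_of s h
      change ∑ i, (p i + 1) ≤ N + 1 at hs
      rw [DD_succ hd]
      have hp : DD y p = 1 := by
        refine ih p ?_ (fun r hr => hy r (fun i => Nat.lt_succ_of_lt (hr i)))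
        have := sum_lt' hd p
        omega
      have hne : (univ : Finset (Fin d)).Nonempty := ⟨0, mem_univ _⟩
      have hR : lo (R0 y p) univ = -1 := by
        have hc := lo_top h1 (fun _ => (1 : ℝ)) (univ : Finset (Fin d)) hne
        rw [lo_one h1 (fun _ => (1 : ℝ)) univ hne (fun _ _ => rfl), if_neg (by
          rw [card_univ, Fintype.card_fin]; omega)] at hc
        have : R0 y p = fun U => if U = univ then 0 else 1 := by
          funext U
          unfold R0
          split_ifs with hU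
          · rfl
          · rw [hp, ih (up U p) ?_ (fun r hr => hy r (fun i => lt_of_lt_of_le (hr i) (up_le U p i))),
              div_one]
            have := sum_up_lt p U hU
            omega
        rw [this]
        linarith
      rw [hp, hR, hy p (fun i => Nat.lt_succ_self _)]
      ring

lemma DD_one' (h1 : S_EX) (hd : 2 ≤ d) (y : Ce d → ℝ) (s : Ce d)
    (hy : ∀ r : Ce d, (∀ i, r i < s i) → y r = 0) : DD y s = 1 :=
  DD_one h1 hd y _ s le_rfl hy

lemma RR_univ (h1 : S_EX) (hd : 2 ≤ d) (y : Ce d → ℝ) (s : Ce d) (hs : DD y s ≠ 0) :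
    lo (RR y s) univ = y s := by
  have : NeZero d := ⟨by omega⟩
  have hne : (univ : Finset (Fin d)).Nonempty := ⟨0, mem_univ _⟩
  rw [lo_top h1 (RR y s) univ hne]
  have h2 : (fun U : Finset (Fin d) => if U = univ then 0 else RR y s U) = R0 y s := by
    funext U; rfl
  rw [h2]
  have h3 : RR y s univ = y s - lo (R0 y s) univ := by
    unfold RR
    rw [up_univ, DD_succ hd]
    field_simp
  rw [h3]
  ring

lemma up_up (k : Fin d) (U : Finset (Fin d)) (hk : k ∉ U) (s : Ce d) :
    up U (up {k} s) = up (insert k U) s := by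
  funext i
  unfold up
  by_cases hi : i = k
  · subst hi
    simp [hk]
  · simp [hi]

lemma RR_empty (y : Ce d → ℝ) (s : Ce d) (hs : DD y s ≠ 0) : RR y s ∅ = 1 := by
  unfold RR
  rw [up_empty, div_self hs]

lemma prod_sq (X : Fin d → ℕ → ℝ) (hX : ∀ i v, X i v = 1 ∨ X i v = -1) (s : Ce d)
    (B : Finset (Fin d)) : (∏ i ∈ B, X i (s i)) * (∏ i ∈ B, X i (s i)) = 1 := by
  rw [← prod_mul_distrib]
  refine prod_eq_one fun i _ => ?_
  rcases hX i (s i) with h | h <;> rw [h] <;> norm_num

/-- the cumulants in terms of the ratios -/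
lemma kt (X : Fin d → ℕ → ℝ) (y : Ce d → ℝ) (hX : ∀ i v, X i v = 1 ∨ X i v = -1) (s : Ce d)
    (B : Finset (Fin d)) : (∏ i ∈ B, X i (s i)) * KK X y B s + (if B.card = 1 then 1 else 0) =
      lo (RR y s) B := by
  unfold KK
  rw [← mul_assoc, prod_sq X hX s B]
  ring

lemma one_be (X : Fin d → ℕ → ℝ) (y : Ce d → ℝ) (hX : ∀ i v, X i v = 1 ∨ X i v = -1) (s : Ce d)
    (k : Fin d) : 1 + X k (s k) * be X y k s = RR y s {k} := by
  have := kt X y hX s {k}
  rw [lo_single] at this
  simp only [prod_singleton, card_singleton, if_true] at this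
  unfold be
  linarith

lemma step (h1 : S_EX) (h2 : S_TILT) (X : Fin d → ℕ → ℝ) (y : Ce d → ℝ)
    (hX : ∀ i v, X i v = 1 ∨ X i v = -1) (S : Finset (Fin d)) (k : Fin d) (s : Ce d)
    (hS : S.Nonempty) (hk : k ∉ S) (hs : DD y s ≠ 0) (hs' : DD y (up {k} s) ≠ 0) :
    KK X y S (up {k} s) = KK X y S s + lo (ph X y k s) S := by
  have hprod : ∏ i ∈ S, X i (up {k} s i) = ∏ i ∈ S, X i (s i) := by
    refine prod_congr rfl fun i hi => ?_
    have : i ≠ k := fun h => hk (h ▸ hi)
    simp [up, this]
  have hRk : RR y s {k} ≠ 0 := div_ne_zero hs' hs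
  have e1 : lo (RR y (up {k} s)) S = lo (fun U => RR y s (insert k U) / RR y s {k}) S := by
    refine (h1 d 0 (RR y (up {k} s)) (fun U => RR y s (insert k U) / RR y s {k}) 0 S).2.2.2.2.2.2.2.1
      fun U hU => ?_
    have hkU : k ∉ U := fun h => hk (hU h)
    show DD y (up U (up {k} s)) / DD y (up {k} s) =
      DD y (up (insert k U) s) / DD y s / (DD y (up {k} s) / DD y s)
    rw [up_up k U hkU s]
    field_simp
  have e2 := h2 d (RR y s) S k (RR_empty y s hs) hRk hk hS
  have e3 : lo (ph X y k s) S = (∏ i ∈ S, X i (s i)) *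
      lo (fun U => if U = ∅ then 1 else lo (RR y s) (insert k U) / RR y s {k}) S := by
    rw [← (h1 d 0 (fun U => if U = ∅ then 1 else lo (RR y s) (insert k U) / RR y s {k}) 0
      (fun i => X i (s i)) S).2.2.2.2.2.2.1]
    refine (h1 d 0 (ph X y k s) (fun B => (∏ i ∈ B, X i (s i)) *
      (if B = ∅ then 1 else lo (RR y s) (insert k B) / RR y s {k})) 0 S).2.2.2.2.2.2.2.1
      fun B hB => ?_
    have hkB : k ∉ B := fun h => hk (hB h)
    unfold ph
    split_ifs with hBe
    · subst hBe; simp
    · have hc : (insert k B).card ≠ 1 := by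
        rw [card_insert_of_notMem hkB]
        have : 0 < B.card := card_pos.2 (nonempty_iff_ne_empty.2 hBe)
        omega
      unfold om
      rw [one_be X y hX s k]
      unfold KK
      rw [if_neg hc, prod_insert hkB, sub_zero]
      have hxx : X k (s k) * X k (s k) = 1 := by
        rcases hX k (s k) with h | h <;> rw [h] <;> norm_num
      calc X k (s k) / RR y s {k} * (X k (s k) * (∏ i ∈ B, X i (s i)) * lo (RR y s) (insert k B))
          = (X k (s k) * X k (s k)) * ((∏ i ∈ B, X i (s i)) *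
              (lo (RR y s) (insert k B) / RR y s {k})) := by ring
        _ = _ := by rw [hxx, one_mul]
  unfold KK
  rw [hprod, e1, e2, e3]
  ring

/-- Moebius inversion -/
lemma moeb (e : Finset (Fin d) → ℝ) :
    ∑ U : Finset (Fin d), (-1 : ℝ) ^ (d - U.card) * ∑ V ∈ U.powerset, e V = e univ := by
  have h0 : ∀ U : Finset (Fin d), ∑ V ∈ U.powerset, e V =
      ∑ V : Finset (Fin d), if V ⊆ U then e V else 0 := by
    intro U
    rw [← sum_filter]
    refine sum_congr ?_ fun _ _ => rfl
    ext V; simp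
  simp only [h0, mul_sum]
  rw [sum_comm]
  have h2 : ∀ V : Finset (Fin d), ∑ U : Finset (Fin d),
      (-1 : ℝ) ^ (d - U.card) * (if V ⊆ U then e V else 0) = if V = univ then e V else 0 := by
    intro V
    have h3 : ∑ U : Finset (Fin d), (-1 : ℝ) ^ (d - U.card) * (if V ⊆ U then e V else 0) =
        e V * ∑ W ∈ (Vᶜ).powerset, (-1 : ℝ) ^ W.card := by
      rw [mul_sum]
      rw [← sum_filter_add_sum_filter_not univ (fun U : Finset (Fin d) => V ⊆ U)]
      rw [sum_eq_zero (s := univ.filter (fun U : Finset (Fin d) => ¬ V ⊆ U)) (by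
        intro U hU
        rw [if_neg (mem_filter.1 hU).2, mul_zero]), add_zero]
      refine sum_bij' (fun U _ => Uᶜ) (fun W _ => Wᶜ) ?_ ?_ ?_ ?_ ?_
      · intro U hU
        rw [mem_powerset]
        exact compl_subset_compl.2 (mem_filter.1 hU).2
      · intro W hW
        rw [mem_powerset] at hW
        rw [mem_filter]
        refine ⟨mem_univ _, ?_⟩
        rw [← compl_compl V]
        exact compl_subset_compl.2 hW
      · intro U _; exact compl_compl U
      · intro U _; exact compl_compl U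
      · intro U hU
        rw [if_pos (mem_filter.1 hU).2, card_compl, Fintype.card_fin]
        ring
    rw [h3]
    have h4 : ∑ W ∈ (Vᶜ).powerset, (-1 : ℝ) ^ W.card = if Vᶜ = ∅ then 1 else 0 := by
      have := sum_powerset_neg_one_pow_card (x := Vᶜ)
      have h5 : ((∑ m ∈ (Vᶜ).powerset, (-1 : ℤ) ^ m.card : ℤ) : ℝ) =
          ((if Vᶜ = ∅ then 1 else 0 : ℤ) : ℝ) := by rw [this]
      push_cast at h5
      exact h5
    rw [h4]
    by_cases hV : V = univ
    · subst hV; simp
    · rw [if_neg, if_neg hV, mul_zero]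
      intro h
      exact hV ((compl_eq_empty_iff V).1 h)
  simp only [h2]
  rw [sum_ite_eq' univ univ e]
  simp

end LawP

open LawP in
theorem t_LAW (h1 : S_EX) (h2 : S_TILT) : S_LAW := by
  intro d X y hd hX
  have : NeZero d := ⟨by omega⟩
  refine ⟨fun s hs => DD_zero y s hs, fun y' s hy => DD_loc hd y y' _ s le_rfl hy,
    fun s hy => DD_one' h1 hd y s hy, ?_, ?_, ?_, ?_, ?_, ?_, ?_⟩
  · intro s hs
    unfold KK
    rw [RR_univ h1 hd y s hs, if_neg (by rw [card_univ, Fintype.card_fin]; omega), sub_zero]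
  · intro S k s hS hk hs hs'
    exact step h1 h2 X y hX S k s hS hk hs hs'
  · rintro S s hS ⟨j, hj, hj0⟩
    unfold KK
    rw [lo_one h1 (RR y s) S hS, sub_self, mul_zero]
    intro U hU
    unfold RR
    have hjU : j ∉ U := fun h => hj (hU h)
    rw [DD_zero y s ⟨j, hj0⟩, DD_zero y (up U s) ⟨j, by simp [up, hjU, hj0]⟩, div_one]
  · intro U s hs
    have : (fun B : Finset (Fin d) => (∏ i ∈ B, X i (s i)) * KK X y B s +
        if B.card = 1 then 1 else 0) = lo (RR y s) := by
      funext B
      exact kt X y hX s B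
    rw [this, (h1 d 0 (RR y s) 0 0 U).2.2.1 (RR_empty y s hs)]
    unfold RR
    field_simp
  · intro s hs
    unfold top
    have hU : ∀ U : Finset (Fin d), DD y (up U s) = DD y s *
        ∑ V ∈ U.powerset, ex (fun B => (∏ i ∈ B, X i (s i)) * KK X y B s) V := by
      intro U
      have e1 : DD y (up U s) = DD y s * ex (lo (RR y s)) U := by
        rw [(h1 d 0 (RR y s) 0 0 U).2.2.1 (RR_empty y s hs)]
        unfold RR
        field_simp
      have e2 : lo (RR y s) = fun B : Finset (Fin d) => (∏ i ∈ B, X i (s i)) * KK X y B s +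
        if B.card = 1 then 1 else 0 := by
        funext B
        exact (kt X y hX s B).symm
      rw [e1, e2, (h1 d (fun B => (∏ i ∈ B, X i (s i)) * KK X y B s) 0
        (fun B => if B.card = 1 then 1 else 0) 0 U).2.2.2.2.1]
      congr 1
      refine sum_congr rfl fun V _ => ?_
      rw [(h1 d 0 0 0 0 (U \ V)).2.2.2.2.2.2.2.2.2.1, mul_one]
    simp only [hU]
    rw [← moeb (fun V => ex (fun B => (∏ i ∈ B, X i (s i)) * KK X y B s) V), mul_sum]
    refine sum_congr rfl fun U _ => ?_
    ring
  · intro s hy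
    unfold top
    have hU : ∀ U : Finset (Fin d), DD y (up U s) = 1 := fun U =>
      DD_one' h1 hd y _ (fun r hr => hy r (fun i => by
        have := hr i
        have := up_le U s i
        omega))
    simp only [hU]
    have := moeb (d := d) (fun V => if V = ∅ then 1 else 0)
    have h3 : ∀ U : Finset (Fin d), ∑ V ∈ U.powerset, (if V = ∅ then (1 : ℝ) else 0) = 1 := by
      intro U
      rw [sum_ite_eq' U.powerset ∅ (fun _ => (1 : ℝ)), if_pos (empty_mem_powerset U)]
    simp only [h3] at this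
    rw [this, if_neg]
    exact (nonempty_iff_ne_empty.1 ⟨0, mem_univ _⟩)
  · intro S s hS hSu hy
    obtain ⟨j, hj⟩ : ∃ j, j ∉ S := by
      by_contra hcon
      push Not at hcon
      exact hSu (eq_univ_iff_forall.2 hcon)
    have hU : ∀ U ⊆ S, DD y (up U s) = 1 := by
      intro U hU
      refine DD_one' h1 hd y _ fun r hr => hy r (fun i => ?_) ?_
      · have := hr i
        have := up_le U s i
        omega
      · rintro rfl
        have h5 := hr j
        have hjU : j ∉ U := fun h => hj (hU h)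
        simp [up, hjU] at h5
    unfold KK
    rw [lo_one h1 (RR y s) S hS, sub_self, mul_zero]
    intro U hUS
    unfold RR
    have h0 := hU ∅ (empty_subset S)
    rw [up_empty] at h0
    rw [hU U hUS, h0, div_one]

end Pool.Agent.NH43.AD
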