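import Pool.Agent.NH43.AD.StmL

set_option autoImplicit false

/-!
# Project AD-12: local bounds for the components (helper90)
-/

namespace Pool.Agent.NH43.AD

open Finset

namespace LocA

variable {d : ℕ}

lemma abs_prodX {X : Fin d → ℕ → ℝ} (hX : ∀ i v, X i v = 1 ∨ X i v = -1) (S : Finset (Fin d))
    (s : Ce d) : |∏ i ∈ S, X i (s i)| = 1 := by
  rw [Finset.abs_prod]
  refine Finset.prod_eq_one fun i _ => ?_
  rcases hX i (s i) with h | h <;> rw [h] <;> norm_num

lemma prodX_sq {X : Fin d → ℕ → ℝ} (hX : ∀ i v, X i v = 1 ∨ X i v = -1) (S : Finset (Fin d))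
    (s : Ce d) : (∏ i ∈ S, X i (s i)) * (∏ i ∈ S, X i (s i)) = 1 := by
  rw [← Finset.prod_mul_distrib]
  refine Finset.prod_eq_one fun i _ => ?_
  rcases hX i (s i) with h | h <;> rw [h] <;> norm_num

lemma cz_le (hd : 2 ≤ d) : cz d ≤ 1 / 2 := by
  unfold cz
  have h1 : (1 : ℝ) ≤ (2 * ((d : ℝ) + 1)) ^ (d + 1) := by
    apply one_le_pow₀
    have : (0 : ℝ) ≤ d := Nat.cast_nonneg d
    linarith
  rw [div_le_div_iff₀ (by positivity) (by norm_num)]
  linarith

/-- the sum decreases -/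
lemma sum_lt_of_ne {r q : Ce d} (h : ∀ i, r i ≤ q i) (hne : r ≠ q) : ∑ i, r i < ∑ i, q i := by
  refine Finset.sum_lt_sum (fun i _ => h i) ?_
  by_contra hcon
  push Not at hcon
  apply hne
  funext i
  exact le_antisymm (h i) (hcon i (mem_univ i))

/-- the value at the full set -/
lemma KK_univ (h3 : S_LAW) (hd : 2 ≤ d) {X : Fin d → ℕ → ℝ} {y : Ce d → ℝ}
    (hX : ∀ i v, X i v = 1 ∨ X i v = -1) {ρ : ℝ} (hy : ∀ r, |y r| ≤ ρ) {q : Ce d}
    (hD : DD y q ≠ 0) : |KK X y univ q| ≤ ρ := by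
  obtain ⟨_, _, _, L4, _⟩ := h3 d X y hd hX
  rw [L4 q hD, abs_mul, abs_prodX hX, one_mul]
  exact hy q

lemma om_le {X : Fin d → ℕ → ℝ} {y : Ce d → ℝ} (hX : ∀ i v, X i v = 1 ∨ X i v = -1)
    (k : Fin d) (q : Ce d) (hb : |be X y k q| ≤ 1 / 2) : |om X y k q| ≤ 2 := by
  unfold om
  have h1 := abs_le.1 hb
  rw [abs_div]
  rcases hX k (q k) with h | h
  · rw [h, one_mul, abs_one]
    rw [div_le_iff₀ (abs_pos.2 (by linarith [h1.1]))]
    have := le_abs_self (1 + be X y k q)
    linarith [h1.1]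
  · rw [h, abs_neg, abs_one]
    rw [div_le_iff₀ (abs_pos.2 (by linarith [h1.2]))]
    have := le_abs_self (1 + -1 * be X y k q)
    linarith [h1.2]

/-- the exponential of a set function which vanishes on the proper subsets -/
lemma ex_univ (h1 : S_EX) (hd : 2 ≤ d) (f : Finset (Fin d) → ℝ)
    (hf : ∀ B : Finset (Fin d), B.Nonempty → B ≠ univ → f B = 0) : ex f univ = f univ := by
  obtain ⟨E1, E2, _⟩ := h1 d f f f (fun _ => 1) univ
  have hi : (⟨0, by omega⟩ : Fin d) ∈ (univ : Finset (Fin d)) := mem_univ _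
  rw [E2 _ hi, Finset.sum_eq_single (univ : Finset (Fin d))]
  · have h4 : (univ : Finset (Fin d)) \ univ = ∅ := sdiff_self
    rw [h4, E1, mul_one]
  · intro B hB hne
    rw [mem_filter] at hB
    rw [hf B ⟨_, hB.2⟩ hne, zero_mul]
  · intro h
    exfalso
    apply h
    rw [mem_filter]
    exact ⟨mem_powerset_self _, hi⟩

/-- the recursive bound -/
lemma main_bound (h2 : S_EXB) (h3 : S_LAW) (hd : 2 ≤ d) {n m : ℕ} {η : ℕ → ℝ}
    {X : Fin d → ℕ → ℝ} {y : Ce d → ℝ} {ρ : ℝ} (hX : ∀ i v, X i v = 1 ∨ X i v = -1) (hρ : 0 ≤ ρ)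
    (hy : ∀ r, |y r| ≤ ρ) (hz : ∀ r : Ce d, ∑ i, r i ≠ n → y r = 0) {p : Ce d}
    (hG : Good m η X y p) (σ₀ : ℕ)
    (hB : 2 * (4 * ((d : ℝ) + 1)) ^ (2 * d) * (4 * ((σ₀ : ℝ) + 1)) ^ (2 * d) * ρ ≤ 1) :
    ∀ σ : ℕ, σ ≤ σ₀ → ∀ q : Ce d, (∀ i, q i ≤ p i) → ∑ i, q i ≤ n + σ →
      ∀ S : Finset (Fin d), S.Nonempty →
        |KK X y S q| ≤ (4 * ((σ : ℝ) + 1)) ^ (d - S.card) * ρ := by
  obtain ⟨L1, L2, L3, L4, L5, L6, L7, L8, L9, L10⟩ := h3 d X y hd hX
  obtain ⟨M, hM⟩ : ∃ M : ℝ, M = (4 * ((d : ℝ) + 1)) ^ (2 * d) := ⟨_, rfl⟩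
  have hM1 : 1 ≤ M := by
    rw [hM]
    apply one_le_pow₀
    have : (0 : ℝ) ≤ d := Nat.cast_nonneg d
    linarith
  rw [← hM] at hB
  have hpos : ∀ q : Ce d, (∀ i, q i ≤ p i) → 0 < DD y q := fun q hq => (hG q hq).1
  intro σ
  induction σ with
  | zero =>
    intro _ q hq hs S hS
    by_cases hSu : S = univ
    · subst hSu
      have := KK_univ h3 hd hX hy (q := q) (hpos q hq).ne'
      rw [card_univ, Fintype.card_fin, Nat.sub_self, pow_zero, one_mul]
      exact this
    · rw [L10 S q hS hSu (fun r hr hne => hz r (by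
        have := sum_lt_of_ne hr hne
        omega)), abs_zero]
      positivity
  | succ σ ih =>
    intro hσ q hq hs S hS
    by_cases hSu : S = univ
    · subst hSu
      have := KK_univ h3 hd hX hy (q := q) (hpos q hq).ne'
      rw [card_univ, Fintype.card_fin, Nat.sub_self, pow_zero, one_mul]
      exact this
    · obtain ⟨k, hk⟩ : ∃ k, k ∉ S := by
        by_contra hcon
        push Not at hcon
        exact hSu (eq_univ_iff_forall.2 hcon)
      by_cases hqk : q k = 0
      · rw [L6 S q hS ⟨k, hk, hqk⟩, abs_zero]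
        positivity
      -- the previous cell
      obtain ⟨q', hq'⟩ : ∃ q' : Ce d, q' = Function.update q k (q k - 1) := ⟨_, rfl⟩
      have hup : up {k} q' = q := by
        funext i
        unfold up
        rw [hq']
        by_cases hi : i = k
        · subst hi
          rw [if_pos (mem_singleton_self i), Function.update_self]
          omega
        · rw [if_neg (by rwa [mem_singleton]), Function.update_of_ne hi]
      have hle : ∀ i, q' i ≤ q i := by
        intro i
        rw [hq']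
        by_cases hi : i = k
        · subst hi
          rw [Function.update_self]
          omega
        · rw [Function.update_of_ne hi]
      have hle' : ∀ i, q' i ≤ p i := fun i => (hle i).trans (hq i)
      have hne : q' ≠ q := by
        intro h
        have h4 := congrFun h k
        rw [hq', Function.update_self] at h4
        omega
      have hsum : ∑ i, q' i ≤ n + σ := by
        have := sum_lt_of_ne hle hne
        omega
      have hIH := ih (by omega) q' hle' hsum
      have hinc := L5 S k q' hS hk (hpos q' hle').ne' (by rw [hup]; exact (hpos q hq).ne')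
      rw [hup] at hinc
      -- bounds
      obtain ⟨a, ha⟩ : ∃ a : ℝ, a = 4 * ((σ : ℝ) + 1) := ⟨_, rfl⟩
      have hσ0 : (0 : ℝ) ≤ σ := Nat.cast_nonneg σ
      have ha1 : 1 ≤ a := by rw [ha]; linarith
      have ha0 : 0 ≤ a := by linarith
      have hale : a ≤ 4 * ((σ₀ : ℝ) + 1) := by
        rw [ha]
        have : (σ : ℝ) ≤ σ₀ := by exact_mod_cast (by omega : σ ≤ σ₀)
        linarith
      rw [← ha] at hIH
      have hom : |om X y k q'| ≤ 2 := by
        apply om_le hX
        have h5 := (hG q' hle').2.1 {k} (singleton_nonempty k)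
        exact h5.trans (cz_le hd)
      have hfB : ∀ B : Finset (Fin d), k ∉ B → B.Nonempty →
          |om X y k q' * KK X y (insert k B) q'| ≤ 2 * (a ^ (d - (B.card + 1)) * ρ) := by
        intro B hkB _
        have h5 := hIH (insert k B) (insert_nonempty k B)
        rw [card_insert_of_notMem hkB] at h5
        rw [abs_mul]
        exact mul_le_mul hom h5 (abs_nonneg _) (by norm_num)
      obtain ⟨c, hc⟩ : ∃ c : ℝ, c = 2 * (a ^ (d - 2) * ρ) := ⟨_, rfl⟩
      have hc0 : 0 ≤ c := by rw [hc]; positivity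
      -- the smallness
      have hsm : 2 * M * a ^ (2 * (d - 2)) * ρ ≤ 1 := by
        refine le_trans ?_ hB
        refine mul_le_mul_of_nonneg_right ?_ hρ
        refine mul_le_mul_of_nonneg_left ?_ (by linarith)
        calc a ^ (2 * (d - 2)) ≤ a ^ (2 * d) := pow_le_pow_right₀ ha1 (by omega)
          _ ≤ (4 * ((σ₀ : ℝ) + 1)) ^ (2 * d) := pow_le_pow_left₀ ha0 hale _
      have hc1 : c ≤ 1 := by
        rw [hc]
        refine le_trans ?_ hsm
        have h5 : a ^ (d - 2) ≤ a ^ (2 * (d - 2)) := pow_le_pow_right₀ ha1 (by omega)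
        have h6 : a ^ (d - 2) * ρ ≤ M * (a ^ (2 * (d - 2)) * ρ) := by
          calc a ^ (d - 2) * ρ ≤ a ^ (2 * (d - 2)) * ρ := mul_le_mul_of_nonneg_right h5 hρ
            _ ≤ M * (a ^ (2 * (d - 2)) * ρ) := le_mul_of_one_le_left (by positivity) hM1
        calc 2 * (a ^ (d - 2) * ρ) ≤ 2 * (M * (a ^ (2 * (d - 2)) * ρ)) :=
              mul_le_mul_of_nonneg_left h6 (by norm_num)
          _ = 2 * M * a ^ (2 * (d - 2)) * ρ := by ring
      have hall : ∀ B ⊆ S, B.Nonempty → |om X y k q' * KK X y (insert k B) q'| ≤ c := by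
        intro B hBS hBne
        have h5 := hfB B (fun h => hk (hBS h)) hBne
        refine h5.trans ?_
        rw [hc]
        refine mul_le_mul_of_nonneg_left ?_ (by norm_num)
        refine mul_le_mul_of_nonneg_right ?_ hρ
        refine pow_le_pow_right₀ ha1 ?_
        have : 1 ≤ B.card := card_pos.2 hBne
        omega
      have hE := (h2 d (fun B => om X y k q' * KK X y (insert k B) q') S c hS hc0 hc1 hall).2.2.2
      have hph : lo (ph X y k q') S =
          lo (fun B => if B = ∅ then 1 else om X y k q' * KK X y (insert k B) q') S := rfl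
      rw [hinc, hph]
      -- the estimate
      have hSc : S.card < d := by
        have h5 : S.card < (univ : Finset (Fin d)).card := card_lt_card (ssubset_univ_iff.2 hSu)
        rwa [card_univ, Fintype.card_fin] at h5
      obtain ⟨e, he⟩ : ∃ e, d - S.card = e + 1 := ⟨d - S.card - 1, by omega⟩
      have he' : d - (S.card + 1) = e := by omega
      have b1 := hIH S hS
      have b2 := hfB S hk hS
      rw [he] at b1
      rw [he'] at b2
      rw [he]
      have hcast : (4 * (((σ + 1 : ℕ) : ℝ) + 1)) = a + 4 := by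
        rw [ha]
        push_cast
        ring
      rw [hcast]
      have b3 : a ^ (e + 1) + 4 * a ^ e ≤ (a + 4) ^ (e + 1) := by
        rw [pow_succ, pow_succ]
        have h5 : a ^ e ≤ (a + 4) ^ e := pow_le_pow_left₀ ha0 (by linarith) _
        have h6 : a ^ e * (a + 4) ≤ (a + 4) ^ e * (a + 4) :=
          mul_le_mul_of_nonneg_right h5 (by linarith)
        linarith
      have b4 : c ^ 2 * M ≤ 2 * a ^ e * ρ := by
        have h5 : c ^ 2 * M = 2 * ρ * (2 * M * a ^ (2 * (d - 2)) * ρ) := by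
          rw [hc]
          have h6 : a ^ (2 * (d - 2)) = (a ^ (d - 2)) ^ 2 := by rw [← pow_mul, mul_comm]
          rw [h6]
          ring
        rw [h5]
        have h7 : 2 * ρ * (2 * M * a ^ (2 * (d - 2)) * ρ) ≤ 2 * ρ * 1 :=
          mul_le_mul_of_nonneg_left hsm (by linarith)
        have h8 : 1 ≤ a ^ e := one_le_pow₀ ha1
        have h9 : 2 * ρ * 1 ≤ 2 * ρ * a ^ e := mul_le_mul_of_nonneg_left h8 (by linarith)
        linarith
      rw [← hM] at hE
      have t1 : |KK X y S q' +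
          lo (fun B => if B = ∅ then 1 else om X y k q' * KK X y (insert k B) q') S| ≤
          |KK X y S q'| + |om X y k q' * KK X y (insert k S) q'| +
          |lo (fun B => if B = ∅ then 1 else om X y k q' * KK X y (insert k B) q') S -
            om X y k q' * KK X y (insert k S) q'| := by
        have e1 : KK X y S q' +
            lo (fun B => if B = ∅ then 1 else om X y k q' * KK X y (insert k B) q') S =
            KK X y S q' + om X y k q' * KK X y (insert k S) q' +
            (lo (fun B => if B = ∅ then 1 else om X y k q' * KK X y (insert k B) q') S -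
              om X y k q' * KK X y (insert k S) q') := by ring
        rw [e1]
        exact (abs_add_le _ _).trans (add_le_add_left (abs_add_le _ _) _)
      have t2 : (a ^ (e + 1) + 4 * a ^ e) * ρ ≤ (a + 4) ^ (e + 1) * ρ :=
        mul_le_mul_of_nonneg_right b3 hρ
      linarith

end LocA

open LocA

theorem t_LOC (h1 : S_EX) (h2 : S_EXB) (h3 : S_LAW) : S_LOC := by
  intro d hd
  obtain ⟨C, hC⟩ : ∃ C : ℕ, C = 2 * (4 * (d + 1)) ^ (2 * d) * 4 ^ (2 * d) + 2 * d := ⟨_, rfl⟩
  refine ⟨C, fun n m η X y ρ hX hρ hy hz p hG => ?_⟩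
  obtain ⟨L1, L2, L3, L4, L5, L6, L7, L8, L9, L10⟩ := h3 d X y hd hX
  have hp : 0 < DD y p := (hG p fun i => le_rfl).1
  have htop := L8 p hp.ne'
  have hfu : (∏ i, X i (p i)) * KK X y univ p = y p := by
    rw [L4 p hp.ne', ← mul_assoc, prodX_sq hX, one_mul]
  refine ⟨fun hlt => ?_, fun heq => ?_, fun σ hσ hsm => ?_⟩
  · apply L9
    intro r hr
    apply hz
    have : ∑ i, r i ≤ ∑ i, p i := Finset.sum_le_sum fun i _ => hr i
    omega
  · have hD1 : DD y p = 1 := by
      apply L3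
      intro r hr
      apply hz
      have h4 : r ≠ p := by
        intro h
        have h5 := hr ⟨0, by omega⟩
        rw [h] at h5
        omega
      have := sum_lt_of_ne (fun i => (hr i).le) h4
      omega
    rw [htop, hD1, one_mul, ex_univ h1 hd]
    · exact hfu
    · intro B hB hne
      rw [L10 B p hB hne (fun r hr hne' => hz r (by
        have := sum_lt_of_ne hr hne'
        omega)), mul_zero]
  · have hσ0 : (0 : ℝ) ≤ σ := Nat.cast_nonneg σ
    have hd0 : (0 : ℝ) ≤ d := Nat.cast_nonneg d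
    -- the comparison of the constants
    have hK : 2 * (4 * ((d : ℝ) + 1)) ^ (2 * d) * (4 * ((σ : ℝ) + 1)) ^ (2 * d) ≤
        (C : ℝ) * ((σ : ℝ) + 1) ^ C := by
      have e1 : 2 * (4 * ((d : ℝ) + 1)) ^ (2 * d) * (4 * ((σ : ℝ) + 1)) ^ (2 * d) =
          (2 * (4 * ((d : ℝ) + 1)) ^ (2 * d) * 4 ^ (2 * d)) * ((σ : ℝ) + 1) ^ (2 * d) := by
        rw [mul_pow 4 ((σ : ℝ) + 1)]
        ring
      rw [e1]
      refine mul_le_mul ?_ (pow_le_pow_right₀ (by linarith) (by omega)) (by positivity)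
        (Nat.cast_nonneg _)
      rw [hC]
      push_cast
      linarith
    have hB : 2 * (4 * ((d : ℝ) + 1)) ^ (2 * d) * (4 * ((σ : ℝ) + 1)) ^ (2 * d) * ρ ≤ 1 :=
      (mul_le_mul_of_nonneg_right hK hρ).trans hsm
    have hmain := main_bound h2 h3 hd hX hρ hy hz hG σ hB σ le_rfl p (fun i => le_rfl) hσ.le
    obtain ⟨a, ha⟩ : ∃ a : ℝ, a = 4 * ((σ : ℝ) + 1) := ⟨_, rfl⟩
    have ha1 : 1 ≤ a := by rw [ha]; linarith
    rw [← ha] at hmain hB hK
    obtain ⟨c, hc⟩ : ∃ c : ℝ, c = a ^ (d - 1) * ρ := ⟨_, rfl⟩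
    have hc0 : 0 ≤ c := by rw [hc]; positivity
    have hM1 : (1 : ℝ) ≤ (4 * ((d : ℝ) + 1)) ^ (2 * d) := one_le_pow₀ (by linarith)
    have hc1 : c ≤ 1 := by
      rw [hc]
      refine le_trans (mul_le_mul_of_nonneg_right ?_ hρ) hB
      calc a ^ (d - 1) ≤ a ^ (2 * d) := pow_le_pow_right₀ ha1 (by omega)
        _ ≤ 2 * (4 * ((d : ℝ) + 1)) ^ (2 * d) * a ^ (2 * d) :=
          le_mul_of_one_le_left (by positivity) (by linarith)
    have hE := (h2 d (fun B => (∏ i ∈ B, X i (p i)) * KK X y B p) univ c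
      ⟨⟨0, by omega⟩, mem_univ _⟩ hc0 hc1 (by
        intro B _ hB'
        rw [abs_mul, abs_prodX hX, one_mul]
        refine (hmain B hB').trans ?_
        rw [hc]
        refine mul_le_mul_of_nonneg_right (pow_le_pow_right₀ ha1 ?_) hρ
        have : 1 ≤ B.card := card_pos.2 hB'
        omega)).2.1
    have hE' : |ex (fun B => (∏ i ∈ B, X i (p i)) * KK X y B p) univ - y p| ≤
        c ^ 2 * ((d : ℝ) + 1) ^ d := by
      rw [← hfu]
      exact hE
    have e2 : top y p - DD y p * y p =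
        DD y p * (ex (fun B => (∏ i ∈ B, X i (p i)) * KK X y B p) univ - y p) := by
      rw [htop]
      ring
    rw [e2, abs_mul, abs_of_pos hp]
    refine mul_le_mul_of_nonneg_left (hE'.trans ?_) hp.le
    have h5 : c ^ 2 * ((d : ℝ) + 1) ^ d = a ^ (2 * (d - 1)) * ((d : ℝ) + 1) ^ d * ρ ^ 2 := by
      rw [hc, mul_comm 2 (d - 1), pow_mul]
      ring
    rw [h5]
    refine mul_le_mul_of_nonneg_right (le_trans ?_ hK) (by positivity)
    have h6 : ((d : ℝ) + 1) ^ d ≤ (4 * ((d : ℝ) + 1)) ^ (2 * d) := by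
      calc ((d : ℝ) + 1) ^ d ≤ (4 * ((d : ℝ) + 1)) ^ d :=
            pow_le_pow_left₀ (by linarith) (by linarith) _
        _ ≤ _ := pow_le_pow_right₀ (by linarith) (by omega)
    have h7 : a ^ (2 * (d - 1)) ≤ a ^ (2 * d) := pow_le_pow_right₀ ha1 (by omega)
    calc a ^ (2 * (d - 1)) * ((d : ℝ) + 1) ^ d ≤ a ^ (2 * d) * (4 * ((d : ℝ) + 1)) ^ (2 * d) :=
          mul_le_mul h7 h6 (by positivity) (by positivity)
      _ ≤ 2 * (4 * ((d : ℝ) + 1)) ^ (2 * d) * a ^ (2 * d) := by
          have : 0 ≤ a ^ (2 * d) * (4 * ((d : ℝ) + 1)) ^ (2 * d) := by positivity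
          linarith

end Pool.Agent.NH43.AD
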