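import Pool.Agent.NH43.AD.StmP

/-!
# Project AD: tail of the fresh part (AD-31)
-/

set_option autoImplicit false

namespace Pool.Agent.NH43.AD

open Finset
open Pool.Agent.H397R2.SD (E)
open Pool.Agent.NH44.AD (Kn MO SB inn LL HH MM AC sd HM G0 bx box pr Th HB U1)

namespace Mt

variable {d : ℕ}

theorem E_mono {Ω : Type} [Fintype Ω] {g h : Ω → ℝ} (H : ∀ x, g x ≤ h x) : E g ≤ E h := by
  unfold E
  exact div_le_div_of_nonneg_right (sum_le_sum fun x _ => H x) (Nat.cast_nonneg _)

theorem up_update (s : Ce d) (t : Fin d) (v : ℕ) :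
    up {t} (Function.update s t v) = Function.update s t (v + 1) := by
  funext i
  unfold up
  by_cases h : i = t
  · subst h
    simp
  · simp [h]

theorem upd_le {s : Ce d} {t : Fin d} {v : ℕ} (hv : v ≤ s t) (i : Fin d) :
    Function.update s t v i ≤ s i := by
  rcases eq_or_ne i t with rfl | h
  · rw [Function.update_self]
    exact hv
  · rw [Function.update_of_ne h]

theorem cz_lt (d : ℕ) : cz d < 1 := by
  unfold cz
  have h1 : (1 : ℝ) ≤ (2 * ((d : ℝ) + 1)) ^ (d + 1) := one_le_pow₀ (by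
    have : (0 : ℝ) ≤ d := Nat.cast_nonneg d
    linarith)
  rw [div_lt_one (by positivity)]
  linarith

/-- the cells below `update Q τ v` are good -/
theorem good_of {m : ℕ} {η : ℕ → ℝ} {X : Fin d → ℕ → ℝ} {y : Ce d → ℝ} {Q : Ce d} {τ : Fin d}
    (h : Pregood m η X y Q) {v : ℕ} (hv : v < Q τ) : Good m η X y (Function.update Q τ v) := by
  intro r hr
  refine h r (fun i => (hr i).trans (upd_le hv.le i)) ?_
  rintro rfl
  have := hr τ
  rw [Function.update_self] at this
  omega

/-- the law as a product -/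
theorem prod_law (h3 : S_LAW) (h5 : S_U) (h6 : S_POS) (hd : 2 ≤ d) {m : ℕ} {η : ℕ → ℝ}
    {X : Fin d → ℕ → ℝ} {y : Ce d → ℝ} {Q : Ce d} (hX : ∀ i v, X i v = 1 ∨ X i v = -1)
    (h : Pregood m η X y Q) (τ : Fin d) : ∀ w, w ≤ Q τ →
    DD y (Function.update Q τ w) =
      ∏ v ∈ range w, (1 + X τ v * be X y τ (Function.update Q τ v))
  | 0, _ => by
    rw [prod_range_zero]
    exact (h3 d X y hd hX).1 _ ⟨τ, Function.update_self ..⟩
  | w + 1, hw => by
    have hg := good_of h (τ := τ) (v := w) (by omega)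
    have hc := hg _ (fun i => le_rfl)
    obtain ⟨hpos, hKK, -⟩ := hc
    have h61 := ((h6 d X y _ hd hX hpos hKK).1 {τ}).1
    have hb : |be X y τ (Function.update Q τ w)| < 1 :=
      lt_of_le_of_lt (hKK {τ} (singleton_nonempty τ)) (cz_lt d)
    have h51 := (h5 d X y hd hX τ (Function.update Q τ w) hpos (by linarith) hb).2.2
    rw [prod_range_succ, ← prod_law h3 h5 h6 hd hX h τ w (by omega), ← up_update, h51,
      Function.update_self]

theorem SB_congr {R C : Finset (Ce d)} {V : ℕ} {M M' : ℕ → Ce d → Ce d → ℝ} {ν : ℝ}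
    (hM : ∀ v, v < V → M v = M' v) (h : SB R C V M ν) : SB R C V M' ν := by
  intro x z
  obtain ⟨h1, h2⟩ := h x z
  have e1 : ∑ v ∈ range V, ∑ a ∈ R, ∑ e ∈ C, x a * z e v * M' v a e =
      ∑ v ∈ range V, ∑ a ∈ R, ∑ e ∈ C, x a * z e v * M v a e :=
    sum_congr rfl fun v hv => by rw [hM v (mem_range.1 hv)]
  have e2 : ∑ v ∈ range V, ∑ a ∈ R, ∑ e ∈ C, x e * z a v * M' v a e =
      ∑ v ∈ range V, ∑ a ∈ R, ∑ e ∈ C, x e * z a v * M v a e :=
    sum_congr rfl fun v hv => by rw [hM v (mem_range.1 hv)]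
  rw [e1, e2]
  exact ⟨h1, h2⟩

/-- the biases, cut off -/
noncomputable def al (m : ℕ) (η : ℕ → ℝ) (X : Fin d → ℕ → ℝ) (y : Ce d → ℝ) (Q : Ce d)
    (τ : Fin d) (v : ℕ) : ℝ :=
  if v < Q τ then bc m η X y τ (Function.update Q τ v) else 0

theorem al_le (m : ℕ) (η : ℕ → ℝ) (X : Fin d → ℕ → ℝ) (y : Ce d → ℝ) (Q : Ce d)
    (τ : Fin d) (v : ℕ) : |al m η X y Q τ v| ≤ 1 := by
  unfold al bc
  split_ifs with h1 h2
  · exact ((h2 _ fun i => le_rfl).2.1 {τ} (singleton_nonempty τ)).trans (cz_lt d).le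
  · rw [abs_zero]
    exact zero_le_one
  · rw [abs_zero]
    exact zero_le_one

/-- the matrices -/
noncomputable def co (Q : Ce d) (τ : Fin d) (Γ : Kn d) (v : ℕ) : Ce d → Ce d → ℝ :=
  if v < Q τ then HH Q τ Γ v else fun _ _ => 0

end Mt

open Mt in
theorem t_MT (h0 : S_FR2) (h3 : S_LAW) (h5 : S_U) (h6 : S_POS) (h7 : S_PRE) (h8 : S_GPRE) :
    S_MT := by
  intro d n m η Ω _ _ T X f ρ hd hH R C Q τ G Γ ν a hQ hG hPK hSB hν ha
  obtain ⟨-, -, h73, -⟩ := h7 d n Ω T X f ρ hd hH
  have hSg : ∀ x, ∀ i v, Xx X x i v = 1 ∨ Xx X x i v = -1 := fun x i v => hH.sgn i v x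
  have hfr := h0 d R C Ω (Q τ) (T τ) (X τ) (fun v x => al m η (Xx X x) (yx ρ f x) Q τ v)
    (fun v x => co Q τ (Γ x) v) ν a (hH.inv τ) (hH.sgn τ)
    (fun v hv x => hH.odd τ v x (hv.le.trans (hQ τ)))
    (fun v u x hvu => hH.fixX τ v τ u x (by simpa using hvu))
    (by
      intro v u x hvu
      unfold al
      split_ifs with hv
      · have hs : ∀ i, Function.update Q τ v i ≤ n := fun i => (upd_le hv.le i).trans (hQ i)
        have hg := (h8 d n m η Ω T X f ρ hd hH (Function.update Q τ v) hs).1 τ u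
          (by rw [Function.update_self]; exact hvu) x
        simp only [eq_iff_iff] at hg
        unfold bc
        by_cases hgood : Good m η (Xx X x) (yx ρ f x) (Function.update Q τ v)
        · rw [if_pos hgood, if_pos (hg.2 hgood)]
          exact h73 {τ} (Function.update Q τ v) x (singleton_nonempty τ) hs
            (fun q hq => ((hgood q hq).1).ne') τ u (by rw [Function.update_self]; exact hvu)
        · rw [if_neg hgood, if_neg (fun h => hgood (hg.1 h))]
      · rfl)
    (by
      intro v u x hvu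
      unfold co
      split_ifs with hv
      · funext k j
        unfold HH
        refine sum_congr rfl fun q hq => ?_
        split_ifs with hqv
        · exact hPK q hq k j τ u (by rw [hqv]; exact hvu) x
        · rfl
      · rfl)
    (fun v x => al_le _ _ _ _ _ _ _) hν ha
  refine le_trans (E_mono fun x => ?_) hfr
  have hpos : 0 ≤ ∏ v ∈ range (Q τ), (1 + X τ v x * al m η (Xx X x) (yx ρ f x) Q τ v) := by
    refine prod_nonneg fun v _ => ?_
    have h1 := abs_le.1 (al_le m η (Xx X x) (yx ρ f x) Q τ v)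
    rcases hH.sgn τ v x with h | h <;> rw [h] <;> linarith
  by_cases hGx : G x ∧ ¬ MO R C (MM (Xx X x) (bc m η (Xx X x) (yx ρ f x)) Q τ (Γ x)) a
  · rw [if_pos hGx]
    have hp := hG x hGx.1
    have hal : ∀ v, v < Q τ → al m η (Xx X x) (yx ρ f x) Q τ v =
        be (Xx X x) (yx ρ f x) τ (Function.update Q τ v) := by
      intro v hv
      unfold al bc
      rw [if_pos hv, if_pos (good_of hp hv)]
    have hco : ∀ v, v < Q τ → HH Q τ (Γ x) v = co Q τ (Γ x) v := by
      intro v hv
      unfold co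
      rw [if_pos hv]
    rw [if_pos]
    · have h1 := prod_law h3 h5 h6 hd (hSg x) hp τ (Q τ) le_rfl
      rw [Function.update_eq_self] at h1
      rw [h1]
      refine le_of_eq (prod_congr rfl fun v hv => ?_)
      rw [hal v (mem_range.1 hv)]
      rfl
    · refine ⟨SB_congr hco (hSB x hGx.1), fun hO => hGx.2 ?_⟩
      have e : MM (Xx X x) (bc m η (Xx X x) (yx ρ f x)) Q τ (Γ x) = fun k j =>
          ∑ v ∈ range (Q τ), (X τ v x - al m η (Xx X x) (yx ρ f x) Q τ v) *
            co Q τ (Γ x) v k j := by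
        funext k j
        unfold MM
        refine sum_congr rfl fun v hv => ?_
        have hv' := mem_range.1 hv
        rw [← hco v hv']
        unfold inn al
        rw [if_pos hv', Function.update_self]
        rfl
      rw [e]
      exact hO
  · rw [if_neg hGx]
    split_ifs
    · exact hpos
    · exact le_rfl

end Pool.Agent.NH43.AD
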