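import Pool.Agent.NH43.AD.StmP

set_option autoImplicit false

/-!
# Project AD: choice of the parameters (AD-36)
-/

namespace Pool.Agent.NH43.AD

open Finset

namespace Nump

/-- `mm n + 1` is at most `4 + 2 log (n + 1)` -/
theorem mm_le (n : ℕ) : (mm n : ℝ) + 1 ≤ 4 + 2 * Real.log ((n : ℝ) + 1) := by
  unfold mm
  have h1 : (2 : ℝ) ^ (Nat.log 2 (n + 2)) ≤ (n : ℝ) + 2 := by
    have := Nat.pow_log_le_self 2 (show n + 2 ≠ 0 by omega)
    exact_mod_cast this
  have hx : (1 : ℝ) ≤ (n : ℝ) + 1 := by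
    have : (0 : ℝ) ≤ n := Nat.cast_nonneg n
    linarith
  have h2 : (2 : ℝ) ^ (Nat.log 2 (n + 2)) ≤ 2 * ((n : ℝ) + 1) := by linarith
  have h3 := Real.log_le_log (by positivity) h2
  rw [Real.log_pow, Real.log_mul (by norm_num) (by linarith)] at h3
  have h4 : (0.6931471803 : ℝ) < Real.log 2 := Real.log_two_gt_d9
  have h5 : 0 ≤ Real.log ((n : ℝ) + 1) := Real.log_nonneg hx
  have h6 : (0 : ℝ) ≤ (Nat.log 2 (n + 2) : ℝ) := Nat.cast_nonneg _
  push_cast
  have h7 : ((Nat.log 2 (n + 2) : ℝ) - 1) * Real.log 2 ≤ Real.log ((n : ℝ) + 1) := by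
    rw [sub_mul, one_mul]
    linarith
  have h8 : (Nat.log 2 (n + 2) : ℝ) - 1 ≤ 2 * Real.log ((n : ℝ) + 1) := by
    by_contra hcon
    push Not at hcon
    have : Real.log ((n : ℝ) + 1) < ((Nat.log 2 (n + 2) : ℝ) - 1) * Real.log 2 := by
      nlinarith
    linarith
  linarith

theorem log_le (n : ℕ) : Real.log ((n : ℝ) + 1) ≤ (mm n : ℝ) + 1 := by
  have h1 : (n : ℝ) + 1 ≤ 2 ^ (mm n) := by
    have h := Nat.lt_pow_succ_log_self (b := 2) (by norm_num) (n + 2)
    have h' : n + 1 ≤ 2 ^ mm n := by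
      unfold mm
      rw [Nat.pow_succ]
      rw [Nat.succ_eq_add_one] at h
      omega
    exact_mod_cast h'
  have h0 : (0 : ℝ) < (n : ℝ) + 1 := by positivity
  have h2 := Real.log_le_log h0 h1
  rw [Real.log_pow] at h2
  have h4 : Real.log 2 < 0.6931471808 := Real.log_two_lt_d9
  have h5 : (0 : ℝ) ≤ (mm n : ℝ) := Nat.cast_nonneg _
  nlinarith

/-- powers of the number of digits are smaller than every positive power of `n + 1` -/
theorem ev_pow (M : ℕ) (b : ℝ) (hb : 0 < b) :
    ∃ n₀ : ℕ, ∀ n : ℕ, n₀ ≤ n → ((M : ℝ) * ((mm n : ℝ) + 1)) ^ M ≤ ((n : ℝ) + 1) ^ b := by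
  set ε : ℝ := b / (2 * ((M : ℝ) + 1)) with hε
  have hε0 : 0 < ε := by positivity
  set c : ℝ := ((M : ℝ) * (4 + 2 / ε)) ^ M with hc
  have hT : Filter.Tendsto (fun n : ℕ => ((n : ℝ) + 1) ^ (b / 2)) Filter.atTop Filter.atTop :=
    (tendsto_rpow_atTop (by positivity)).comp
      (Filter.tendsto_atTop_add_const_right _ _ tendsto_natCast_atTop_atTop)
  obtain ⟨n₀, hn₀⟩ := Filter.eventually_atTop.1 (hT.eventually_ge_atTop c)
  refine ⟨n₀, fun n hn => ?_⟩
  have hcn : c ≤ ((n : ℝ) + 1) ^ (b / 2) := hn₀ n hn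
  set x : ℝ := (n : ℝ) + 1 with hx
  have hx1 : 1 ≤ x := by
    have : (0 : ℝ) ≤ n := Nat.cast_nonneg n
    linarith
  have hx0 : 0 < x := by linarith
  have h1 : Real.log x ≤ x ^ ε / ε := Real.log_le_rpow_div hx0.le hε0
  have h2 : (1 : ℝ) ≤ x ^ ε := Real.one_le_rpow hx1 hε0.le
  have h3 : (mm n : ℝ) + 1 ≤ (4 + 2 / ε) * x ^ ε := by
    have h4 := mm_le n
    rw [← hx] at h4
    have h5 : 2 * (x ^ ε / ε) = 2 / ε * x ^ ε := by
      field_simp
    nlinarith
  calc ((M : ℝ) * ((mm n : ℝ) + 1)) ^ M ≤ ((M : ℝ) * ((4 + 2 / ε) * x ^ ε)) ^ M := by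
        gcongr
    _ = c * x ^ (ε * M) := by
        rw [← mul_assoc, mul_pow, ← hc, ← Real.rpow_natCast (x ^ ε) M, ← Real.rpow_mul hx0.le]
    _ ≤ x ^ (b / 2) * x ^ (b / 2) := by
        apply mul_le_mul hcn _ (by positivity) (by positivity)
        apply Real.rpow_le_rpow_of_exponent_le hx1
        rw [hε, div_mul_eq_mul_div, div_le_div_iff₀ (by positivity) (by norm_num)]
        have : (0 : ℝ) ≤ M := Nat.cast_nonneg M
        nlinarith
    _ = x ^ b := by
        rw [← Real.rpow_add hx0]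
        congr 1
        ring

/-- large `n` -/
theorem ev_nat (c : ℝ) : ∃ n₀ : ℕ, ∀ n : ℕ, n₀ ≤ n → c ≤ (n : ℝ) + 1 := by
  obtain ⟨n₀, hn₀⟩ := exists_nat_ge c
  refine ⟨n₀, fun n hn => ?_⟩
  have : (n₀ : ℝ) ≤ n := by exact_mod_cast hn
  linarith

theorem ev_rpow (c b : ℝ) (hb : 0 < b) : ∃ n₀ : ℕ, ∀ n : ℕ, n₀ ≤ n → c ≤ ((n : ℝ) + 1) ^ b := by
  have hT : Filter.Tendsto (fun n : ℕ => ((n : ℝ) + 1) ^ b) Filter.atTop Filter.atTop :=
    (tendsto_rpow_atTop hb).comp
      (Filter.tendsto_atTop_add_const_right _ _ tendsto_natCast_atTop_atTop)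
  obtain ⟨n₀, hn₀⟩ := Filter.eventually_atTop.1 (hT.eventually_ge_atTop c)
  exact ⟨n₀, hn₀⟩

end Nump

open Nump in
theorem t_NUMP : S_NUMP := by
  intro d C₀ K hd hK
  -- the constant
  set D : ℕ := C₀ + 2 * d + 1 with hD
  set C : ℕ := 4 * d * K * D + 2 with hC
  refine ⟨C, by omega, fun a ha => ?_⟩
  set J : ℕ := ⌈4 / a⌉₊ with hJ
  set M : ℕ := K + 2 * C * d with hM
  obtain ⟨n₁, hn₁⟩ := ev_pow M (a / 2) (by positivity)
  obtain ⟨n₂, hn₂⟩ := ev_rpow 2 (a / 2) (by positivity)
  obtain ⟨n₃, hn₃⟩ := ev_nat (K : ℝ)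
  obtain ⟨n₄, hn₄⟩ := ev_nat ((4 : ℝ) ^ d * 8 ^ d * (d * J * 12))
  refine ⟨J, max (max n₁ n₂) (max n₃ n₄), fun n hn => ?_⟩
  have h1 := hn₁ n (by omega)
  have h2 := hn₂ n (by omega)
  have h3 := hn₃ n (by omega)
  have h4 := hn₄ n (by omega)
  clear hn₁ hn₂ hn₃ hn₄ hn
  have hloglt := Nat.lt_pow_succ_log_self (b := 2) (by norm_num) (n + 2)
  have hlogle := Nat.pow_log_le_self 2 (show n + 2 ≠ 0 by omega)
  rw [Nat.succ_eq_add_one, pow_succ] at hloglt
  have hmm : mm n = Nat.log 2 (n + 2) + 2 := rfl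
  have hpow : 2 ^ mm n = 2 ^ Nat.log 2 (n + 2) * 4 := by
    rw [hmm, pow_add]
    norm_num
  have hlogn := log_le n
  set x : ℝ := (n : ℝ) + 1 with hx
  have hx1 : 1 ≤ x := by
    have : (0 : ℝ) ≤ n := Nat.cast_nonneg n
    linarith
  have hx0 : 0 < x := by linarith
  set L : ℝ := (mm n : ℝ) + 1 with hL
  have hL1 : 1 ≤ L := by
    have : (0 : ℝ) ≤ (mm n : ℝ) := Nat.cast_nonneg _
    linarith
  have hK1 : (1 : ℝ) ≤ K := by exact_mod_cast hK
  have hd3 : (3 : ℝ) ≤ d := by exact_mod_cast hd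
  have hD1 : (1 : ℝ) ≤ D := by
    have : 1 ≤ D := by omega
    exact_mod_cast this
  have hC1 : (1 : ℝ) ≤ C := by
    have : 1 ≤ C := by omega
    exact_mod_cast this
  have hCeq : (C : ℝ) = 4 * d * K * D + 2 := by
    rw [hC]
    push_cast
    ring
  set Z : ℝ := (C : ℝ) * L with hZ
  have hZ1 : 1 ≤ Z := by
    rw [hZ]
    nlinarith
  have hZ0 : 0 < Z := by linarith
  have hetk : ∀ k, et C d n a k = x ^ (-a) * Z ^ (C * (d - k)) := fun k => rfl
  have hxa0 : 0 < x ^ (-a) := Real.rpow_pos_of_pos hx0 _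
  -- the large power
  set W : ℝ := ((M : ℝ) * L) ^ M with hW
  have hML : (1 : ℝ) ≤ (M : ℝ) * L := by
    have : (1 : ℝ) ≤ M := by
      have : 1 ≤ M := by omega
      exact_mod_cast this
    nlinarith
  have hKW : (K : ℝ) * L ^ K * Z ^ (2 * (C * (d - 1))) ≤ W := by
    have hKM : (K : ℝ) ≤ M := by
      have : K ≤ M := by omega
      exact_mod_cast this
    have hCM : (C : ℝ) ≤ M := by
      have : C ≤ M := by
        have : C * 1 ≤ C * d := Nat.mul_le_mul_left _ (by omega)
        rw [hM]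
        nlinarith
      exact_mod_cast this
    have e1 : (K : ℝ) * L ^ K ≤ ((M : ℝ) * L) ^ K := by
      calc (K : ℝ) * L ^ K ≤ (K : ℝ) ^ K * L ^ K := by
            gcongr
            exact le_self_pow₀ hK1 (by omega)
        _ = ((K : ℝ) * L) ^ K := by rw [mul_pow]
        _ ≤ ((M : ℝ) * L) ^ K := by gcongr
    have e2 : Z ^ (2 * (C * (d - 1))) ≤ ((M : ℝ) * L) ^ (2 * (C * (d - 1))) := by
      apply pow_le_pow_left₀ hZ0.le
      rw [hZ]
      gcongr
    calc (K : ℝ) * L ^ K * Z ^ (2 * (C * (d - 1)))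
        ≤ ((M : ℝ) * L) ^ K * ((M : ℝ) * L) ^ (2 * (C * (d - 1))) := by
          gcongr
      _ = ((M : ℝ) * L) ^ (K + 2 * (C * (d - 1))) := by rw [pow_add]
      _ ≤ W := by
          rw [hW]
          apply pow_le_pow_right₀ hML
          have : C * (d - 1) ≤ C * d := Nat.mul_le_mul_left _ (by omega)
          rw [hM]
          nlinarith
  have hxhalf : x ^ (-(a / 2)) ≤ 1 / 2 := by
    rw [Real.rpow_neg hx0.le, one_div]
    exact inv_anti₀ (by norm_num) h2
  have hxhalf0 : 0 < x ^ (-(a / 2)) := Real.rpow_pos_of_pos hx0 _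
  have hWx : W * x ^ (-a) ≤ x ^ (-(a / 2)) := by
    calc W * x ^ (-a) ≤ x ^ (a / 2) * x ^ (-a) := by gcongr
      _ = x ^ (-(a / 2)) := by
          rw [← Real.rpow_add hx0]
          congr 1
          ring
  set r : ℝ := (K : ℝ) * L ^ K * et C d n a 1 with hr
  have het10 : 0 < et C d n a 1 := by
    rw [hetk]
    positivity
  have hr0 : 0 < r := by
    rw [hr]
    positivity
  have hrZ : r * Z ^ (C * (d - 1)) ≤ x ^ (-(a / 2)) := by
    calc r * Z ^ (C * (d - 1)) = ((K : ℝ) * L ^ K * Z ^ (2 * (C * (d - 1)))) * x ^ (-a) := by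
          rw [hr, hetk, two_mul, pow_add]
          ring
      _ ≤ W * x ^ (-a) := by gcongr
      _ ≤ x ^ (-(a / 2)) := hWx
  have hZp : 1 ≤ Z ^ (C * (d - 1)) := one_le_pow₀ hZ1
  have hrx : r ≤ x ^ (-(a / 2)) := by
    calc r = r * 1 := (mul_one _).symm
      _ ≤ r * Z ^ (C * (d - 1)) := by gcongr
      _ ≤ _ := hrZ
  have hr2 : r ≤ 1 / 2 := hrx.trans hxhalf
  have hdl : ∀ k, x ^ (-a) ≤ et C d n a k := by
    intro k
    rw [hetk]
    calc x ^ (-a) = x ^ (-a) * 1 := (mul_one _).symm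
      _ ≤ _ := by
        gcongr
        exact one_le_pow₀ hZ1
  have het0 : ∀ k, 0 < et C d n a k := fun k => hxa0.trans_le (hdl k)
  refine ⟨?_, ?_, ?_, ?_, ?_, ?_⟩
  · rw [hpow]
    omega
  · exact Real.rpow_pos_of_pos hx0 _
  · have e1 : rh d n a = x ^ (-(((d : ℝ) - 2) / 2) - a) := rfl
    rw [e1, ← Real.rpow_add hx0, hetk, Nat.sub_self, mul_zero, pow_zero, mul_one]
    apply le_of_eq
    congr 1
    ring
  · intro k hk1 hkd
    refine ⟨het0 k, ?_⟩
    rw [hetk, hetk]
    gcongr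
  · exact hr2.trans (by norm_num)
  · -- the tail parameter
    have hlog0 : 0 ≤ Real.log x := Real.log_nonneg hx1
    refine ⟨Real.sqrt (2 * D * Real.log x), Real.sqrt_nonneg _, ?_, ?_⟩
    · intro k hk1 hkd
      have hstep : et C d n a k = et C d n a (k + 1) * Z ^ C := by
        rw [hetk, hetk, mul_assoc, ← pow_add]
        congr 2
        obtain ⟨e, rfl⟩ := Nat.exists_eq_add_of_lt hkd
        have : k + e + 1 - k = (k + e + 1 - (k + 1)) + 1 := by omega
        rw [this, Nat.mul_add, mul_one]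
      have hlam : Real.sqrt (2 * D * Real.log x) ≤ 2 * D * L := by
        rw [Real.sqrt_le_left (by positivity)]
        have q1 : 2 * (D : ℝ) * Real.log x ≤ 2 * D * L := by gcongr
        have q2 : 2 * (D : ℝ) * L ≤ (2 * D * L) ^ 2 := by
          have : 1 ≤ 2 * (D : ℝ) * L := by nlinarith
          nlinarith
        exact q1.trans q2
      have hgeo : ∑ j ∈ range J, r ^ j ≤ 2 := by
        have g1 : ∑ j ∈ range J, r ^ j ≤ ∑ j ∈ range J, ((1 : ℝ) / 2) ^ j := by
          apply sum_le_sum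
          intro j _
          gcongr
        have g2 : ∑ j ∈ range J, ((1 : ℝ) / 2) ^ j ≤ 2 := by
          rw [geom_sum_eq (by norm_num)]
          have : (0 : ℝ) ≤ (1 / 2 : ℝ) ^ J := by positivity
          rw [show ((1 : ℝ) / 2 - 1) = -(1 / 2) by norm_num]
          rw [div_neg, ← neg_div]
          rw [div_le_iff₀ (by norm_num)]
          linarith
        exact g1.trans g2
      have hsum : ∑ j ∈ range J, (K : ℝ) * et C d n a (k + 1) * r ^ j ≤
          2 * K * et C d n a (k + 1) := by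
        rw [← mul_sum]
        have : 0 < (K : ℝ) * et C d n a (k + 1) := mul_pos (by linarith) (het0 _)
        nlinarith
      have hrJ : r ^ J ≤ x ^ (-2 : ℝ) := by
        calc r ^ J ≤ (x ^ (-(a / 2))) ^ J := by gcongr
          _ = x ^ (-(a / 2) * J) := by
              rw [← Real.rpow_natCast, ← Real.rpow_mul hx0.le]
          _ ≤ x ^ (-2 : ℝ) := by
              apply Real.rpow_le_rpow_of_exponent_le hx1
              have : 4 / a ≤ J := Nat.le_ceil _
              rw [div_le_iff₀ ha] at this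
              linarith
      have hx2 : x ^ (-2 : ℝ) = 1 / (x * x) := by
        rw [Real.rpow_neg hx0.le, one_div]
        congr 1
        rw [Real.rpow_two, sq]
      have hKx : (K : ℝ) * x * r ^ J ≤ 1 := by
        calc (K : ℝ) * x * r ^ J ≤ (K : ℝ) * x * (1 / (x * x)) := by
              rw [← hx2]
              gcongr
          _ = K / x := by
              field_simp
          _ ≤ 1 := by
              rw [div_le_one hx0]
              exact h3
      have hthird : (K : ℝ) * L ^ K * et C d n a 1 ^ 2 ≤ et C d n a (k + 1) := by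
        calc (K : ℝ) * L ^ K * et C d n a 1 ^ 2 = r * et C d n a 1 := by
              rw [hr]
              ring
          _ = (r * Z ^ (C * (d - 1))) * x ^ (-a) := by
              rw [hetk 1]
              ring
          _ ≤ 1 * x ^ (-a) := by
              gcongr
              exact hrZ.trans (hxhalf.trans (by norm_num))
          _ = x ^ (-a) := one_mul _
          _ ≤ _ := hdl _
      have he := het0 (k + 1)
      calc Real.sqrt (2 * D * Real.log x) * (d * ∑ j ∈ range J, (K : ℝ) * et C d n a (k + 1) *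
              r ^ j) + K * x * et C d n a (k + 1) * r ^ J + K * L ^ K * et C d n a 1 ^ 2
          ≤ (2 * D * L) * (d * (2 * K * et C d n a (k + 1))) + et C d n a (k + 1) +
              et C d n a (k + 1) := by
            refine add_le_add (add_le_add ?_ ?_) hthird
            · apply mul_le_mul hlam _ _ (by positivity)
              · gcongr
              · apply mul_nonneg (by positivity)
                apply sum_nonneg
                intro j _
                have := het0 (k + 1)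
                positivity
            · calc (K : ℝ) * x * et C d n a (k + 1) * r ^ J =
                  (K * x * r ^ J) * et C d n a (k + 1) := by ring
                _ ≤ 1 * et C d n a (k + 1) := by gcongr
                _ = _ := one_mul _
        _ = (4 * d * K * D * L + 2) * et C d n a (k + 1) := by ring
        _ ≤ Z * et C d n a (k + 1) := by
            gcongr
            rw [hZ, hCeq]
            nlinarith
        _ ≤ Z ^ C * et C d n a (k + 1) := by
            gcongr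
            exact le_self_pow₀ hZ1 (by omega)
        _ = et C d n a k := by
            rw [hstep]
            ring
    · have hexp : Real.exp (-(Real.sqrt (2 * D * Real.log x) ^ 2 / 2)) = 1 / x ^ D := by
        rw [Real.sq_sqrt (by positivity)]
        rw [show -(2 * (D : ℝ) * Real.log x / 2) = -(D * Real.log x) by ring]
        rw [Real.exp_neg, ← Real.log_pow, Real.exp_log (by positivity), one_div]
      rw [hexp]
      have h2m : (2 : ℝ) ^ mm n ≤ 8 * x := by
        have : 2 ^ mm n ≤ 8 * (n + 1) := by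
          rw [hpow]
          omega
        rw [hx]
        exact_mod_cast this
      have hxd : 1 ≤ x ^ d := one_le_pow₀ hx1
      have hxD : x ^ D = x ^ C₀ * x ^ (2 * d) * x := by
        rw [hD, pow_succ, pow_add]
      calc (4 : ℝ) ^ d * (2 ^ mm n) ^ d * ((d : ℝ) * J * (4 * (x ^ d + x ^ d + 1) * (1 / x ^ D)))
          ≤ 4 ^ d * (8 * x) ^ d * ((d : ℝ) * J * (4 * (x ^ d + x ^ d + x ^ d) * (1 / x ^ D))) := by
            gcongr
        _ = ((4 : ℝ) ^ d * 8 ^ d * (d * J * 12)) * (x ^ (2 * d) * (1 / x ^ D)) := by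
            rw [mul_pow, two_mul, pow_add]
            ring
        _ ≤ x * (x ^ (2 * d) * (1 / x ^ D)) := by
            gcongr
        _ = 1 / x ^ C₀ := by
            rw [hxD]
            field_simp

end Pool.Agent.NH43.AD
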