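import Pool.Agent.NH43.AD.StmL

set_option autoImplicit false

/-!
# Project AD: the pairing
-/

namespace Pool.Agent.NH43.AD

open Finset MeasureTheory
open Pool.Agent.H397R2.SD (E E_congr E_add E_sub E_neg E_smul E_smul' E_div E_zero E_sum E_nonneg
  E_mono E_const abs_E_le)
open Pool.Agent.W776.GD (Om flp rad fE empt)
open Pool.Agent.TH973.SD (discw)

namespace PairAux

/-! ### Counting cells -/

lemma mem_cells {d n : ℕ} (p : Ce d) : p ∈ cells (fun _ : Fin d => n) ↔ ∀ i, p i ≤ n := by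
  unfold cells
  rw [Fintype.mem_piFinset]
  refine forall_congr' fun i => ?_
  rw [mem_range]
  exact Nat.lt_succ_iff

lemma count_low (k n : ℕ) : ((n : ℝ) + 1) ^ k * (1 / ((k : ℝ) + 1)) ^ k ≤
    (((cells (fun _ : Fin (k + 1) => n)).filter (fun p => ∑ i, p i = n)).card : ℝ) := by
  set q : ℕ := n / (k + 1) with hq
  have hq1 : (k + 1) * q ≤ n := Nat.mul_div_le n (k + 1)
  have hq2 : n + 1 ≤ (k + 1) * (q + 1) := by
    have := Nat.lt_mul_div_succ n (Nat.succ_pos k)
    rw [← hq] at this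
    exact this
  have h1 : (Fintype.piFinset (fun _ : Fin k => range (q + 1))).card ≤
      ((cells (fun _ : Fin (k + 1) => n)).filter (fun p => ∑ i, p i = n)).card := by
    refine Finset.card_le_card_of_injOn
      (fun b => (Fin.cons (n - ∑ i, b i) b : Fin (k + 1) → ℕ)) ?_ ?_
    · intro b hb
      rw [Finset.mem_coe, Fintype.mem_piFinset] at hb
      have hb' : ∀ i, b i ≤ q := fun i => by have := mem_range.1 (hb i); omega
      have hs : ∑ i, b i ≤ n := by
        calc ∑ i, b i ≤ ∑ _i : Fin k, q := Finset.sum_le_sum fun i _ => hb' i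
          _ = k * q := by rw [Finset.sum_const, Finset.card_univ, Fintype.card_fin, smul_eq_mul]
          _ ≤ n := by
            refine le_trans ?_ hq1
            exact Nat.mul_le_mul_right q (Nat.le_succ k)
      have hqn : q ≤ n := Nat.div_le_self _ _
      rw [Finset.mem_coe, mem_filter, mem_cells]
      constructor
      · intro i
        refine Fin.cases ?_ (fun j => ?_) i
        · change n - ∑ i, b i ≤ n
          exact Nat.sub_le _ _
        · change b j ≤ n
          exact (hb' j).trans hqn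
      · rw [Fin.sum_univ_succ]
        change (n - ∑ i, b i) + ∑ i, b i = n
        omega
    · intro b _ b' _ h
      have h' := congrArg Fin.tail h
      simp only [Fin.tail_cons] at h'
      exact h'
  have h2 : (Fintype.piFinset (fun _ : Fin k => range (q + 1))).card = (q + 1) ^ k := by
    rw [Fintype.card_piFinset]
    simp
  rw [h2] at h1
  have h3 : ((n : ℝ) + 1) * (1 / ((k : ℝ) + 1)) ≤ (q : ℝ) + 1 := by
    have hk : (0 : ℝ) < (k : ℝ) + 1 := by positivity
    rw [mul_one_div, div_le_iff₀ hk]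
    have : ((n + 1 : ℕ) : ℝ) ≤ (((k + 1) * (q + 1) : ℕ) : ℝ) := by exact_mod_cast hq2
    push_cast at this
    linarith
  rw [← mul_pow]
  calc (((n : ℝ) + 1) * (1 / ((k : ℝ) + 1))) ^ k ≤ ((q : ℝ) + 1) ^ k :=
        pow_le_pow_left₀ (by positivity) h3 k
    _ = (((q + 1) ^ k : ℕ) : ℝ) := by push_cast; ring
    _ ≤ _ := by exact_mod_cast h1

lemma count_up (k n s : ℕ) :
    (((cells (fun _ : Fin (k + 1) => n)).filter (fun p => ∑ i, p i = s)).card : ℝ) ≤
      ((n : ℝ) + 1) ^ k := by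
  have h1 : ((cells (fun _ : Fin (k + 1) => n)).filter (fun p => ∑ i, p i = s)).card ≤
      (Fintype.piFinset (fun _ : Fin k => range (n + 1))).card := by
    refine Finset.card_le_card_of_injOn (fun p i => p (Fin.succ i)) ?_ ?_
    · intro p hp
      rw [Finset.mem_coe, mem_filter, mem_cells] at hp
      rw [Finset.mem_coe, Fintype.mem_piFinset]
      intro i
      rw [mem_range]
      exact Nat.lt_succ_iff.2 (hp.1 (Fin.succ i))
    · intro p hp p' hp' h
      rw [Finset.mem_coe, mem_filter, mem_cells] at hp hp'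
      have h1 : ∀ i : Fin k, p (Fin.succ i) = p' (Fin.succ i) := fun i => congrFun h i
      have h2 := hp.2
      have h3 := hp'.2
      rw [Fin.sum_univ_succ] at h2 h3
      have h4 : ∑ i : Fin k, p (Fin.succ i) = ∑ i : Fin k, p' (Fin.succ i) :=
        Finset.sum_congr rfl fun i _ => h1 i
      have h5 : p 0 = p' 0 := by omega
      funext i
      exact Fin.cases h5 h1 i
  have h2 : (Fintype.piFinset (fun _ : Fin k => range (n + 1))).card = (n + 1) ^ k := by
    rw [Fintype.card_piFinset]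
    simp
  rw [h2] at h1
  calc _ ≤ (((n + 1) ^ k : ℕ) : ℝ) := by exact_mod_cast h1
    _ = _ := by push_cast; ring

/-- the summands -/
noncomputable def hh (B σ : ℕ) : ℝ := (1 / 2 : ℝ) ^ σ * ((σ : ℝ) + 1) ^ B

lemma hh_nonneg (B σ : ℕ) : 0 ≤ hh B σ := by
  unfold hh
  positivity

lemma hh_summable (B : ℕ) : Summable (hh B) := by
  have h1 : Summable (fun σ : ℕ => (σ : ℝ) ^ B * (1 / 2 : ℝ) ^ σ) :=
    summable_pow_mul_geometric_of_norm_lt_one B (by norm_num)
  have h2 := (summable_nat_add_iff 1).2 h1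
  have h3 := h2.mul_left 2
  refine h3.congr fun σ => ?_
  unfold hh
  push_cast
  rw [pow_succ]
  ring

lemma sum_hh (B n M : ℕ) :
    ∑ s ∈ range (n + M), (if n < s then hh B (s - n) else 0) ≤ ∑' σ, hh B σ := by
  rw [Finset.sum_range_add]
  have h1 : ∑ s ∈ range n, (if n < s then hh B (s - n) else 0) = 0 :=
    Finset.sum_eq_zero fun s hs => by
      rw [if_neg]
      have := mem_range.1 hs
      omega
  rw [h1, zero_add]
  refine le_trans (Finset.sum_le_sum fun j _ => ?_)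
    ((hh_summable B).sum_le_tsum (range M) fun σ _ => hh_nonneg B σ)
  split_ifs
  · rw [Nat.add_sub_cancel_left]
  · exact hh_nonneg B j

lemma sum_cells (B k n : ℕ) :
    ∑ p ∈ cells (fun _ : Fin (k + 1) => n),
      (if n < ∑ i, p i then hh B (∑ i, p i - n) else 0) ≤
      ((n : ℝ) + 1) ^ k * ∑' σ, hh B σ := by
  have hmap : ∀ p ∈ cells (fun _ : Fin (k + 1) => n),
      ∑ i, p i ∈ range (n + ((k + 1) * n + 1)) := by
    intro p hp
    rw [mem_cells] at hp
    rw [mem_range]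
    have : ∑ i, p i ≤ ∑ _i : Fin (k + 1), n := Finset.sum_le_sum fun i _ => hp i
    rw [Finset.sum_const, Finset.card_univ, Fintype.card_fin, smul_eq_mul] at this
    omega
  rw [← Finset.sum_fiberwise_of_maps_to hmap]
  have h1 : ∀ s ∈ range (n + ((k + 1) * n + 1)),
      ∑ p ∈ cells (fun _ : Fin (k + 1) => n) with ∑ i, p i = s,
        (if n < ∑ i, p i then hh B (∑ i, p i - n) else 0) ≤
        ((n : ℝ) + 1) ^ k * (if n < s then hh B (s - n) else 0) := by
    intro s _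
    have h2 : ∑ p ∈ cells (fun _ : Fin (k + 1) => n) with ∑ i, p i = s,
        (if n < ∑ i, p i then hh B (∑ i, p i - n) else 0) =
        ∑ p ∈ cells (fun _ : Fin (k + 1) => n) with ∑ i, p i = s,
          (if n < s then hh B (s - n) else 0) := by
      refine Finset.sum_congr rfl fun p hp => ?_
      rw [(mem_filter.1 hp).2]
    rw [h2, Finset.sum_const, nsmul_eq_mul]
    refine mul_le_mul_of_nonneg_right (count_up k n s) ?_
    split_ifs
    · exact hh_nonneg _ _
    · exact le_rfl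
  refine (Finset.sum_le_sum h1).trans ?_
  rw [← Finset.mul_sum]
  exact mul_le_mul_of_nonneg_left (sum_hh B n _) (by positivity)

open Classical in
/-- the component at the cell `p` -/
noncomputable def gp {Ω : Type} {d : ℕ} (m : ℕ) (η : ℕ → ℝ) (ρ : ℝ) (X : Fin d → ℕ → Ω → ℝ)
    (f : Ce d → Ω → ℝ) (p : Ce d) (x : Ω) : ℝ :=
  if Good m η (Xx X x) (yx ρ f x) p then top (yx ρ f x) p else 0

end PairAux

open PairAux in
/-- **The pairing.** -/
theorem t_PAIR (h3 : S_LAW) (hP : S_POS) (h7 : S_PRE) (h8 : S_GPRE) (h11 : S_GD) (h12 : S_LOC)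
    (h13 : S_COR) (h14 : S_HYP) : S_PAIR := by
  classical
  intro d hd
  obtain ⟨C₁, hC₁⟩ := h12 d hd
  obtain ⟨k, rfl⟩ : ∃ k, d = k + 1 := ⟨d - 1, by omega⟩
  set A : ℝ := ((C₁ : ℝ) + 1) ^ 2 with hA
  set B : ℕ := 2 * C₁ with hB
  set Z : ℝ := ∑' σ, hh B σ with hZ
  have hZ0 : 0 ≤ Z := tsum_nonneg fun σ => hh_nonneg B σ
  have hA0 : 0 ≤ A := by positivity
  set K : ℝ := (1 / ((k : ℝ) + 1)) ^ k with hK
  have hK0 : 0 < K := by positivity
  refine ⟨(1 / 4) ^ (k + 1) * K / 32, 16 * A * Z / K + 1, by positivity, by positivity, ?_⟩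
  intro n m η ι P w V o u ρ κ hρ hCρ hPc hV1 hV2 hκ hκ8 hPF
  rw [Nat.add_sub_cancel]
  obtain ⟨hHyp, hE2, hE3⟩ := h14 (k + 1) n ι P o (by omega)
  set X : Fin (k + 1) → ℕ → Om (k + 1) n → ℝ := fun i v x => rad i v x with hX
  set f : Ce (k + 1) → Om (k + 1) n → ℝ := fun r x => fE P o r x with hf
  set T : Fin (k + 1) → ℕ → Om (k + 1) n → Om (k + 1) n := fun i v x => flp i v x with hT
  have hV0 : 0 ≤ V := by
    have : (0 : ℝ) < 2 ^ n := by positivity
    linarith
  have hsgn : ∀ (x : Om (k + 1) n) i v, Xx X x i v = 1 ∨ Xx X x i v = -1 :=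
    fun x i v => hHyp.sgn i v x
  have hylt : ∀ (x : Om (k + 1) n) r, |yx ρ f x r| ≤ ρ := by
    intro x r
    rw [yx, abs_mul, abs_of_pos hρ]
    calc ρ * |f r x| ≤ ρ * 1 := mul_le_mul_of_nonneg_left (hHyp.le r x) hρ.le
      _ = ρ := mul_one _
  have hy0 : ∀ (x : Om (k + 1) n) (r : Ce (k + 1)), ∑ i, r i ≠ n → yx ρ f x r = 0 := by
    intro x r hr
    rw [yx, hHyp.zero r x hr, mul_zero]
  have hPsi : ∀ x, Psi n m η ρ X f x - 1 =
      ∑ p ∈ cells (fun _ : Fin (k + 1) => n), gp m η ρ X f p x := by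
    intro x
    unfold Psi gp
    rw [add_sub_cancel_left]
  have hsplit : E (fun x : Om (k + 1) n => discw P w V o u x * (Psi n m η ρ X f x - 1)) =
      ∑ p ∈ cells (fun _ : Fin (k + 1) => n),
        E (fun x : Om (k + 1) n => discw P w V o u x * gp m η ρ X f p x) := by
    rw [← E_sum]
    refine E_congr fun x => ?_
    rw [hPsi, Finset.mul_sum]
  have hodd : ∀ p : Ce (k + 1), (∀ i, p i ≤ n) → ∀ c x,
      gp m η ρ X f p (flp c (p c) x) = - gp m η ρ X f p x := by
    intro p hp c x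
    have hpre := (h8 (k + 1) n m η (Om (k + 1) n) T X f ρ hd hHyp p hp).1 c (p c) le_rfl x
    simp only [hT] at hpre
    unfold gp
    by_cases hG : Good m η (Xx X x) (yx ρ f x) p
    · have hG' : Good m η (Xx X (flp c (p c) x)) (yx ρ f (flp c (p c) x)) p := by
        rw [hpre]; exact hG
      rw [if_pos hG, if_pos hG']
      exact (h7 (k + 1) n (Om (k + 1) n) T X f ρ hd hHyp).2.2.2 p x hp
        (fun q hq => (hG q hq).1.ne') c
    · have hG' : ¬ Good m η (Xx X (flp c (p c) x)) (yx ρ f (flp c (p c) x)) p := by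
        rw [hpre]; exact hG
      rw [if_neg hG, if_neg hG', neg_zero]
  have hsupp : ∀ p : Ce (k + 1), (∀ i, p i ≤ n) → ∀ x, gp m η ρ X f p x ≠ 0 →
      empt P o p x := by
    intro p hp x hne
    by_contra hemp
    apply hne
    unfold gp
    split_ifs
    · refine (h3 (k + 1) (Xx X x) (yx ρ f x) hd (hsgn x)).2.2.2.2.2.2.2.2.1 p fun r hr => ?_
      have h1 : f r x = 0 := hE2 r p x hr hp hemp
      rw [yx, h1, mul_zero]
    · rfl
  have hcor := fun (p : Ce (k + 1)) (hp : ∀ i, p i ≤ n) =>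
    h13 (k + 1) n ι P w V o u p (gp m η ρ X f p) hV0 hp (hodd p hp) (hsupp p hp)
  have hgd := h11 (k + 1) n m η (Om (k + 1) n) T X f ρ κ hd hHyp hκ hPF
  have hV2' : V * (1 / 2 : ℝ) ^ n ≤ 1 := by
    have h2 : (2 : ℝ) ^ n * (1 / 2 : ℝ) ^ n = 1 := by
      rw [← mul_pow]; norm_num
    calc V * (1 / 2 : ℝ) ^ n ≤ 2 ^ n * (1 / 2 : ℝ) ^ n :=
          mul_le_mul_of_nonneg_right hV2 (by positivity)
      _ = 1 := h2
  have hV1' : 1 / 4 ≤ V * (1 / 2 : ℝ) ^ n := by
    have h2 : (2 : ℝ) ^ n * (1 / 2 : ℝ) ^ n = 1 := by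
      rw [← mul_pow]; norm_num
    have h4 := mul_le_mul_of_nonneg_right hV1 (by positivity : (0 : ℝ) ≤ (1 / 2 : ℝ) ^ n)
    rw [h2] at h4
    linarith
  -- the lower cells
  have hlow : ∀ p : Ce (k + 1), (∀ i, p i ≤ n) → ∑ i, p i < n →
      E (fun x : Om (k + 1) n => discw P w V o u x * gp m η ρ X f p x) = 0 := by
    intro p hp hs
    rw [← E_zero (Ω := Om (k + 1) n)]
    refine E_congr fun x => ?_
    unfold gp
    split_ifs with hG
    · rw [(hC₁ n m η (Xx X x) (yx ρ f x) ρ (hsgn x) hρ.le (hylt x) (hy0 x) p hG).1 hs, mul_zero]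
    · rw [mul_zero]
  -- the middle cells
  have hmid : ∀ p : Ce (k + 1), (∀ i, p i ≤ n) → ∑ i, p i = n →
      (1 / 4) ^ (k + 1) * (3 / 32 * ρ) ≤
      E (fun x : Om (k + 1) n => discw P w V o u x * gp m η ρ X f p x) := by
    intro p hp hs
    have h1 := (hcor p hp).2
      (fun x => if Good m η (Xx X x) (yx ρ f x) p then ρ else 0)
      (fun x => by
        split_ifs
        · exact hρ.le
        · exact le_rfl) hs
      (fun x => by
        unfold gp
        split_ifs with hG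
        · rw [(hC₁ n m η (Xx X x) (yx ρ f x) ρ (hsgn x) hρ.le (hylt x) (hy0 x) p hG).2.1 hs]
          rw [yx, hf]
          ring
        · rw [mul_zero])
    rw [h1]
    have h2 : ρ * (1 / 2 - 1 / 8) ≤ E (fun x => |gp m η ρ X f p x|) := by
      have h4 : ∀ x, ρ * (|fE P o p x| - (if Good m η (Xx X x) (yx ρ f x) p then (0 : ℝ) else 1)) ≤
          |gp m η ρ X f p x| := by
        intro x
        unfold gp
        split_ifs with hG
        · rw [(hC₁ n m η (Xx X x) (yx ρ f x) ρ (hsgn x) hρ.le (hylt x) (hy0 x) p hG).2.1 hs]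
          rw [yx, abs_mul, abs_of_pos hρ, sub_zero]
        · rw [abs_zero]
          have : |fE P o p x| ≤ 1 := hHyp.le p x
          nlinarith
      refine le_trans ?_ (E_mono h4)
      rw [E_smul, E_sub]
      have h5 := hE3 p hs hPc
      have h6 := hgd.1 p hp hs.le
      have h7' : ((n : ℝ) + 1) ^ (k + 1) * κ ≤ 1 / 8 := by linarith
      refine mul_le_mul_of_nonneg_left ?_ hρ.le
      exact sub_le_sub h5 (h6.trans h7')
    have h5 : (0 : ℝ) < (1 / 4) ^ (k + 1) := by positivity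
    calc (1 / 4) ^ (k + 1) * (3 / 32 * ρ) =
        (1 / 4) * (1 / 4) ^ (k + 1) * (ρ * (1 / 2 - 1 / 8)) := by ring
      _ ≤ V * (1 / 2 : ℝ) ^ n * (1 / 4) ^ (k + 1) * (ρ * (1 / 2 - 1 / 8)) := by
        refine mul_le_mul_of_nonneg_right (mul_le_mul_of_nonneg_right hV1' h5.le) (by positivity)
      _ ≤ V * (1 / 2 : ℝ) ^ n * (1 / 4) ^ (k + 1) * E (fun x => |gp m η ρ X f p x|) := by
        refine mul_le_mul_of_nonneg_left h2 ?_
        positivity
  -- the upper cells
  have hupp : ∀ p : Ce (k + 1), (∀ i, p i ≤ n) → n < ∑ i, p i →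
      |E (fun x : Om (k + 1) n => discw P w V o u x * gp m η ρ X f p x)| ≤
      (1 / 4) ^ (k + 1) * (A * ρ ^ 2 * hh B (∑ i, p i - n)) := by
    intro p hp hs
    obtain ⟨σ, hσ⟩ : ∃ σ, ∑ i, p i = n + σ := ⟨∑ i, p i - n, by omega⟩
    have hσ1 : 1 ≤ σ := by omega
    have hpt : ∀ x, |gp m η ρ X f p x| ≤ (A * ((σ : ℝ) + 1) ^ B * ρ ^ 2) *
        (if Good m η (Xx X x) (yx ρ f x) p then DD (yx ρ f x) p else 0) := by
      intro x
      unfold gp
      split_ifs with hG
      · have hDp : 0 < DD (yx ρ f x) p := (hG p fun i => le_rfl).1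
        have hs1 : (1 : ℝ) ≤ ((σ : ℝ) + 1) ^ C₁ := one_le_pow₀ (by
          have : (0 : ℝ) ≤ σ := Nat.cast_nonneg σ
          linarith)
        have hC0 : (0 : ℝ) ≤ C₁ := Nat.cast_nonneg _
        have hBB : ((σ : ℝ) + 1) ^ B = (((σ : ℝ) + 1) ^ C₁) ^ 2 := by
          rw [hB, mul_comm, pow_mul]
        have hy : yx ρ f x p = 0 := hy0 x p (by omega)
        rcases le_or_gt ((C₁ : ℝ) * ((σ : ℝ) + 1) ^ C₁ * ρ) 1 with hle | hgt
        · have h1 := (hC₁ n m η (Xx X x) (yx ρ f x) ρ (hsgn x) hρ.le (hylt x) (hy0 x) p hG).2.2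
            σ hσ hle
          rw [hy, mul_zero, sub_zero] at h1
          refine h1.trans ?_
          rw [mul_comm (DD (yx ρ f x) p)]
          refine mul_le_mul_of_nonneg_right ?_ hDp.le
          refine mul_le_mul_of_nonneg_right ?_ (sq_nonneg _)
          rw [hBB, hA]
          set t : ℝ := ((σ : ℝ) + 1) ^ C₁
          have e1 : (C₁ : ℝ) * t ≤ ((C₁ : ℝ) + 1) * t := by nlinarith
          have e2 : 1 ≤ ((C₁ : ℝ) + 1) * t := by nlinarith
          calc (C₁ : ℝ) * t ≤ ((C₁ : ℝ) + 1) * t := e1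
            _ ≤ (((C₁ : ℝ) + 1) * t) ^ 2 := by nlinarith
            _ = _ := by ring
        · have h1 := (hP (k + 1) (Xx X x) (yx ρ f x) p hd (hsgn x) hDp
            (hG p fun i => le_rfl).2.1).2
          refine h1.trans ?_
          have h2 : 1 ≤ A * ((σ : ℝ) + 1) ^ B * ρ ^ 2 := by
            rw [hBB, hA]
            set t : ℝ := ((σ : ℝ) + 1) ^ C₁
            have e1 : 1 ≤ ((C₁ : ℝ) + 1) * t * ρ := by nlinarith
            calc (1 : ℝ) ≤ (((C₁ : ℝ) + 1) * t * ρ) ^ 2 := by nlinarith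
              _ = _ := by ring
          calc DD (yx ρ f x) p = 1 * DD (yx ρ f x) p := (one_mul _).symm
            _ ≤ _ := mul_le_mul_of_nonneg_right h2 hDp.le
      · rw [abs_zero, mul_zero]
    have hEg : E (fun x => |gp m η ρ X f p x|) ≤ A * ((σ : ℝ) + 1) ^ B * ρ ^ 2 := by
      refine (E_mono hpt).trans ?_
      rw [E_smul]
      have h1 := hgd.2 p hp
      calc _ ≤ (A * ((σ : ℝ) + 1) ^ B * ρ ^ 2) * 1 :=
            mul_le_mul_of_nonneg_left h1 (by positivity)
        _ = _ := mul_one _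
    refine ((hcor p hp).1).trans ?_
    rw [hσ, Nat.add_sub_cancel_left, pow_add]
    unfold hh
    calc V * ((1 / 2 : ℝ) ^ n * (1 / 2) ^ σ) * (1 / 4) ^ (k + 1) *
          E (fun x => |gp m η ρ X f p x|)
        ≤ V * ((1 / 2 : ℝ) ^ n * (1 / 2) ^ σ) * (1 / 4) ^ (k + 1) *
          (A * ((σ : ℝ) + 1) ^ B * ρ ^ 2) := mul_le_mul_of_nonneg_left hEg (by positivity)
      _ = (V * (1 / 2 : ℝ) ^ n) * ((1 / 4) ^ (k + 1) *
          (A * ρ ^ 2 * ((1 / 2) ^ σ * ((σ : ℝ) + 1) ^ B))) := by ring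
      _ ≤ 1 * ((1 / 4) ^ (k + 1) *
          (A * ρ ^ 2 * ((1 / 2) ^ σ * ((σ : ℝ) + 1) ^ B))) :=
        mul_le_mul_of_nonneg_right hV2' (by positivity)
      _ = _ := one_mul _
  -- assembly
  have hterm : ∀ p ∈ cells (fun _ : Fin (k + 1) => n),
      (1 / 4) ^ (k + 1) * (if ∑ i, p i = n then 3 / 32 * ρ else 0) -
        (1 / 4) ^ (k + 1) * (A * ρ ^ 2 *
          (if n < ∑ i, p i then hh B (∑ i, p i - n) else 0)) ≤
      E (fun x : Om (k + 1) n => discw P w V o u x * gp m η ρ X f p x) := by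
    intro p hp
    rw [mem_cells] at hp
    rcases lt_trichotomy (∑ i, p i) n with h | h | h
    · rw [if_neg h.ne, if_neg (by omega), hlow p hp h]
      simp
    · rw [if_pos h, if_neg (by omega)]
      have := hmid p hp h
      linarith
    · rw [if_neg h.ne', if_pos h]
      have := (abs_le.1 (hupp p hp h)).1
      linarith
  rw [hsplit]
  refine le_trans ?_ (Finset.sum_le_sum hterm)
  rw [Finset.sum_sub_distrib, ← Finset.mul_sum, ← Finset.mul_sum, ← Finset.mul_sum,
    ← Finset.sum_filter, Finset.sum_const, nsmul_eq_mul]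
  have e1 := count_low k n
  have e2 := sum_cells B k n
  rw [← hK] at e1
  rw [← hZ] at e2
  have hN : (0 : ℝ) < ((n : ℝ) + 1) ^ k := by positivity
  have e3 : 16 * A * Z * ρ ≤ K := by
    have h1 : (16 * A * Z / K + 1) * ρ * K ≤ 1 * K := mul_le_mul_of_nonneg_right hCρ hK0.le
    have h2 : (16 * A * Z / K + 1) * ρ * K = 16 * A * Z * ρ + ρ * K := by
      field_simp
    rw [h2] at h1
    have h4 : 0 ≤ ρ * K := by positivity
    linarith
  have h4 : (0 : ℝ) < (1 / 4) ^ (k + 1) := by positivity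
  have e4 : (1 / 4) ^ (k + 1) * (((n : ℝ) + 1) ^ k * K * (3 / 32 * ρ)) ≤ (1 / 4) ^ (k + 1) *
      ((((cells (fun _ : Fin (k + 1) => n)).filter (fun p => ∑ i, p i = n)).card : ℝ) *
        (3 / 32 * ρ)) := by
    refine mul_le_mul_of_nonneg_left (mul_le_mul_of_nonneg_right e1 (by positivity)) h4.le
  have e5 : (1 / 4) ^ (k + 1) * (A * ρ ^ 2 * ∑ p ∈ cells (fun _ : Fin (k + 1) => n),
      (if n < ∑ i, p i then hh B (∑ i, p i - n) else 0)) ≤
      (1 / 4) ^ (k + 1) * (A * ρ ^ 2 * (((n : ℝ) + 1) ^ k * Z)) :=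
    mul_le_mul_of_nonneg_left (mul_le_mul_of_nonneg_left e2 (by positivity)) h4.le
  have e6 : (1 / 4) ^ (k + 1) * (A * ρ ^ 2 * (((n : ℝ) + 1) ^ k * Z)) ≤
      (1 / 4) ^ (k + 1) * (((n : ℝ) + 1) ^ k * K * (2 / 32 * ρ)) := by
    refine mul_le_mul_of_nonneg_left ?_ h4.le
    have h5 : A * Z * ρ ≤ K / 16 := by linarith
    calc A * ρ ^ 2 * (((n : ℝ) + 1) ^ k * Z) = ((n : ℝ) + 1) ^ k * ρ * (A * Z * ρ) := by ring
      _ ≤ ((n : ℝ) + 1) ^ k * ρ * (K / 16) := mul_le_mul_of_nonneg_left h5 (by positivity)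
      _ = _ := by ring
  calc (1 / 4) ^ (k + 1) * K / 32 * ((n : ℝ) + 1) ^ k * ρ =
      (1 / 4) ^ (k + 1) * (((n : ℝ) + 1) ^ k * K * (3 / 32 * ρ)) -
      (1 / 4) ^ (k + 1) * (((n : ℝ) + 1) ^ k * K * (2 / 32 * ρ)) := by ring
    _ ≤ _ := by linarith

end Pool.Agent.NH43.AD
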