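import Pool.Agent.NH43.AD.StmP

set_option autoImplicit false

/-!
# Project AD, AD-37: the first bad cells have small probability
-/

namespace Pool.Agent.NH43.AD

open Finset
open Pool.Agent.H397R2.SD (E)
open Pool.Agent.NH44.AD (Kn MO SB inn LL HH MM AC sd HM G0 bx box pr Th HB U1 n1)

namespace PFAx

theorem E_mono {Ω : Type} [Fintype Ω] {f g : Ω → ℝ} (h : ∀ x, f x ≤ g x) : E f ≤ E g := by
  unfold E
  exact div_le_div_of_nonneg_right (sum_le_sum fun x _ => h x) (Nat.cast_nonneg _)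

theorem MO_mono {d : ℕ} {R C : Finset (Fin d → ℕ)} {M : (Fin d → ℕ) → (Fin d → ℕ) → ℝ} {κ κ' : ℝ}
    (hκ : κ ≤ κ') (h : MO R C M κ) : MO R C M κ' := by
  intro x z
  refine (h x z).trans (mul_le_mul_of_nonneg_right hκ ?_)
  exact mul_nonneg (Real.sqrt_nonneg _) (Real.sqrt_nonneg _)

theorem bx_card {d n : ℕ} (A : Finset (Fin d)) (Q : Ce d) (hQ : ∀ i, Q i ≤ n) :
    ((bx A Q).card : ℝ) ≤ ((n : ℝ) + 1) ^ d := by
  have h1 : (bx A Q).card ≤ (n + 1) ^ d := by
    unfold bx
    rw [Fintype.card_piFinset]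
    have h2 := Finset.prod_le_pow_card (univ : Finset (Fin d))
      (fun i => (if i ∈ A then range (Q i + 1) else {Q i}).card) (n + 1) (fun i _ => by
        split_ifs
        · rw [card_range]
          have := hQ i
          omega
        · rw [card_singleton]
          omega)
    rwa [card_univ, Fintype.card_fin] at h2
  exact_mod_cast h1

end PFAx

open PFAx in
theorem t_PFA : S_PFA := by
  classical
  intro hD hT hU hN d C₀ hd
  obtain ⟨K, hK1, hK⟩ := hD d hd
  obtain ⟨C, hC1, hC⟩ := hN d C₀ K hd hK1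
  refine ⟨C, fun a ha => ?_⟩
  obtain ⟨J, n₀, hJ⟩ := hC a ha
  refine ⟨n₀, fun n hn Ω _ _ T X f hyp Q hQ => ?_⟩
  obtain ⟨hm, hrh, hrho, het, hsm, lam, hlam, hsum, hfin⟩ := hJ n hn
  generalize mm n = m at *
  generalize et C d n a = η at *
  generalize rh d n a = ρ at *
  have hK0 : (0 : ℝ) < K := by exact_mod_cast hK1
  have hh0 : 0 < η 1 := (het 1 le_rfl (by omega)).1
  have hy : ∀ x r, |yx ρ f x r| ≤ ρ := by
    intro x r
    unfold yx
    rw [abs_mul, abs_of_pos hrh]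
    have := hyp.le r x
    nlinarith [abs_nonneg (f r x)]
  have hy0 : ∀ x (r : Ce d), ∑ i, r i ≠ n → yx ρ f x r = 0 := by
    intro x r hr
    unfold yx
    rw [hyp.zero r x hr, mul_zero]
  have det := fun x => hK n m η ρ (η 1) (Xx X x) (yx ρ f x) hm (fun i v => hyp.sgn i v x) (hy x)
    (hy0 x) hrh hrho het hsm Q hQ
  refine (hU d n m η Ω X f ρ (by omega) Q
    ((d : ℝ) * J * (4 * (((n : ℝ) + 1) ^ d + ((n : ℝ) + 1) ^ d + 1) * Real.exp (-(lam ^ 2 / 2))))
    (by positivity) (fun x hx => ⟨(det x hx).1, (det x hx).2.1⟩) ?_).trans hfin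
  intro S A B θ hA hB hAB hS hθ
  obtain ⟨k, hk⟩ : ∃ k, k ∉ S := by
    by_contra hcon
    push Not at hcon
    exact hS (eq_univ_iff_forall.2 hcon)
  have hS1 : 1 ≤ S.card := by
    obtain ⟨i, hi⟩ := hA
    refine card_pos.2 ⟨i, ?_⟩
    rw [← hAB]
    exact mem_union_left _ hi
  have hS2 : S.card < d := by
    have := card_lt_univ_of_notMem hk
    rwa [Fintype.card_fin] at this
  have hη1 : 0 < η (S.card + 1) := (het _ (by omega) (by omega)).1
  have h1 := hT d n m J η Ω T X f ρ (by omega) hyp Q S A B θ k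
    (fun j => K * η (S.card + 1) * (K * ((m : ℝ) + 1) ^ K * η 1) ^ j)
    (K * ((n : ℝ) + 1) * η (S.card + 1) * (K * ((m : ℝ) + 1) ^ K * η 1) ^ J)
    (K * ((m : ℝ) + 1) ^ K * η 1 ^ 2) lam hQ hlam (fun j => by positivity)
    (fun x hx => ⟨(det x hx).1, (det x hx).2.2 S A B θ k J hA hB hAB hk hθ⟩)
  have h2 := hsum S.card hS1 hS2
  refine (E_mono fun x => ?_).trans (h1.trans ?_)
  · by_cases hg : Pregood m η (Xx X x) (yx ρ f x) Q
    · have hpos := (det x hg).1
      by_cases hM : MO (bx A Q) (bx B Q) (HM m Q S A B θ (KK (Xx X x) (yx ρ f x) S)) (η S.card)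
      · rw [if_neg (fun h => h.2 hM)]
        split_ifs
        · exact hpos.le
        · exact le_rfl
      · rw [if_pos ⟨hg, hM⟩, if_pos ⟨hg, fun h => hM (MO_mono h2 h)⟩]
    · rw [if_neg (fun h => hg h.1), if_neg (fun h => hg h.1)]
  · have hcA := bx_card A Q hQ
    have hcB := bx_card B Q hQ
    have he := Real.exp_pos (-(lam ^ 2 / 2))
    refine mul_le_mul_of_nonneg_left ?_ (by positivity)
    refine mul_le_mul_of_nonneg_right ?_ he.le
    linarith

end Pool.Agent.NH43.AD
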