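import Pool.Agent.NH43.AD.StmP

set_option autoImplicit false

/-!
# Project AD, job AD-38: biases, cut off families and evolution at the first bad cell
-/

namespace Pool.Agent.NH43.AD

open Finset
open Pool.Agent.NH44.AD (Kn MO SB inn LL HH MM AC sd HM G0 bx box pr Th HB U1)

namespace Pgq92

variable {d : ℕ}

lemma mem_box {P q : Fin d → ℕ} : q ∈ box P ↔ ∀ i, q i ≤ P i := by
  unfold Pool.Agent.NH44.AD.box
  rw [Fintype.mem_piFinset]
  constructor
  · intro h i
    have := h i
    rw [mem_range] at this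
    omega
  · intro h i
    rw [mem_range]
    have := h i
    omega

lemma up_single (k : Fin d) (q : Ce d) : up {k} q = Function.update q k (q k + 1) := by
  funext i
  unfold up
  by_cases h : i = k
  · subst h
    simp
  · rw [if_neg (by simpa using h), Function.update_of_ne h]

lemma up_pred {k : Fin d} {Q : Ce d} (hk : 1 ≤ Q k) :
    up {k} (Function.update Q k (Q k - 1)) = Q := by
  rw [up_single, Function.update_idem, Function.update_self]
  have : Q k - 1 + 1 = Q k := by omega
  rw [this, Function.update_eq_self]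

lemma pred_le {k : Fin d} {Q : Ce d} (i : Fin d) :
    Function.update Q k (Q k - 1) i ≤ Q i := by
  by_cases h : i = k
  · subst h; simp
  · rw [Function.update_of_ne h]

lemma pred_ne {k : Fin d} {Q : Ce d} (hk : 1 ≤ Q k) : Function.update Q k (Q k - 1) ≠ Q := by
  intro h
  have := congrFun h k
  rw [Function.update_self] at this
  omega

lemma good_of {m : ℕ} {η : ℕ → ℝ} {X : Fin d → ℕ → ℝ} {y : Ce d → ℝ} {Q r : Ce d}
    (hp : Pregood m η X y Q) (hr : ∀ i, r i ≤ Q i) (hne : r ≠ Q) : Good m η X y r := by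
  intro r' hr'
  refine hp r' (fun i => (hr' i).trans (hr i)) ?_
  rintro rfl
  exact hne (funext fun i => le_antisymm (hr i) (hr' i))

lemma one_le_cd (d m : ℕ) : 1 ≤ Pool.Agent.NH44.AD.cd d m := by
  unfold Pool.Agent.NH44.AD.cd
  refine one_le_pow₀ ?_
  have : (0 : ℝ) ≤ m := Nat.cast_nonneg m
  linarith

lemma cz_pos (d : ℕ) : 0 < cz d := by
  unfold cz; positivity

/-- the numerical inequality -/
lemma num (d : ℕ) {c : ℝ} (hc : 0 ≤ c)
    (hH : (16 * (4 * ((d : ℝ) + 1)) ^ (4 * d + 4)) * c ≤ 1) :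
    c ≤ 1 / 8 ∧ c ≤ cz d ∧ c + (2 * c) * (4 * ((d : ℝ) + 1)) ^ (2 * d) ≤ cz d := by
  have hd : (0 : ℝ) ≤ d := Nat.cast_nonneg d
  set t : ℝ := 4 * ((d : ℝ) + 1) with ht
  have ht4 : 4 ≤ t := by rw [ht]; linarith
  have ht1 : 1 ≤ t := by linarith
  have hs : 2 * ((d : ℝ) + 1) ≤ t := by rw [ht]; linarith
  have hs1 : (1 : ℝ) ≤ 2 * ((d : ℝ) + 1) := by linarith
  have hP1 : 1 ≤ t ^ (4 * d + 4) := one_le_pow₀ ht1
  have h3 : c + (2 * c) * t ^ (2 * d) ≤ cz d := by
    have h1 : (1 : ℝ) ≤ t ^ (2 * d) := one_le_pow₀ ht1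
    have h2 : c + (2 * c) * t ^ (2 * d) ≤ 3 * t ^ (2 * d) * c := by nlinarith
    have h4 : 3 * (2 * ((d : ℝ) + 1)) ^ (d + 1) ≤ t ^ (2 * d + 4) := by
      have h5 : (2 * ((d : ℝ) + 1)) ^ (d + 1) ≤ t ^ (d + 1) :=
        pow_le_pow_left₀ (by linarith) hs _
      have h6 : t ^ (d + 1) ≤ t ^ (2 * d + 3) := pow_le_pow_right₀ ht1 (by omega)
      have h7 : t ^ (2 * d + 4) = t ^ (2 * d + 3) * t := pow_succ _ _
      have h8 : 0 ≤ t ^ (2 * d + 3) := by positivity
      rw [h7]
      nlinarith
    have h9 : t ^ (4 * d + 4) = t ^ (2 * d) * t ^ (2 * d + 4) := by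
      rw [← pow_add]; congr 1; ring
    unfold cz
    rw [le_div_iff₀ (by positivity)]
    have h10 : (c + (2 * c) * t ^ (2 * d)) * (16 * (2 * ((d : ℝ) + 1)) ^ (d + 1)) ≤
        (3 * t ^ (2 * d) * c) * (16 * (2 * ((d : ℝ) + 1)) ^ (d + 1)) :=
      mul_le_mul_of_nonneg_right h2 (by positivity)
    refine h10.trans (le_trans ?_ hH)
    rw [h9]
    have h11 : (3 * t ^ (2 * d) * c) * (16 * (2 * ((d : ℝ) + 1)) ^ (d + 1)) =
        (16 * t ^ (2 * d) * c) * (3 * (2 * ((d : ℝ) + 1)) ^ (d + 1)) := by ring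
    have h12 : 16 * (t ^ (2 * d) * t ^ (2 * d + 4)) * c =
        (16 * t ^ (2 * d) * c) * t ^ (2 * d + 4) := by ring
    rw [h11, h12]
    exact mul_le_mul_of_nonneg_left h4 (by positivity)
  refine ⟨?_, ?_, h3⟩
  · nlinarith
  · have : 0 ≤ (2 * c) * t ^ (2 * d) := by positivity
    linarith

/-- the cumulants at a cell where the condition holds -/
lemma kk_le (hL : S_LAW) (hH : Pool.Agent.NH44.AD.S_HBT) {n m : ℕ} {η : ℕ → ℝ}
    {X : Fin d → ℕ → ℝ} {y : Ce d → ℝ} {ρ h : ℝ} (hd : 2 ≤ d) (hnm : n + 2 ≤ 2 ^ m)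
    (hX : ∀ i v, X i v = 1 ∨ X i v = -1) (hy : ∀ r, |y r| ≤ ρ) (hρ : ρ ≤ h)
    (hη : ∀ k, 1 ≤ k → k ≤ d → 0 < η k ∧ η k ≤ h) {s : Ce d} (hs : ∀ i, s i ≤ n)
    (hc : Cond m η X y s) (S : Finset (Fin d)) (hS : S.Nonempty) :
    |KK X y S s| ≤ Pool.Agent.NH44.AD.cd d m * h := by
  have hcd := one_le_cd d m
  have hh : 0 ≤ h := le_trans (abs_nonneg _) ((hy s).trans hρ)
  have hl := hL d X y hd hX
  by_cases hu : S = univ
  · rw [hu, hl.2.2.2.1 s hc.1.ne', abs_mul, abs_prod]
    have : ∏ i, |X i (s i)| = 1 := prod_eq_one fun i _ => by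
      rcases hX i (s i) with h | h <;> rw [h] <;> norm_num
    rw [this, one_mul]
    refine ((hy s).trans hρ).trans ?_
    nlinarith
  · have hb := hc.2.2 S hS hu
    have hlt : ∀ i, s i < 2 ^ m := fun i => by have := hs i; omega
    have h6 := (hH d m s S hS hlt).2.2.2.2.2.1 (KK X y S) (η S.card) hb
    have h7 := h6.2 s (mem_box.2 fun i => le_rfl)
    have hcard : S.card ≤ d := by
      have := card_le_univ S
      rwa [Fintype.card_fin] at this
    have := (hη S.card hS.card_pos hcard).2
    refine h7.trans ?_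
    exact mul_le_mul_of_nonneg_left this (by linarith)

lemma abs_om_le {X : Fin d → ℕ → ℝ} {y : Ce d → ℝ} (hX : ∀ i v, X i v = 1 ∨ X i v = -1)
    (k : Fin d) (s : Ce d) (hb : |be X y k s| ≤ 1 / 2) : |om X y k s| ≤ 2 := by
  unfold om
  rw [abs_div]
  have h1 : |X k (s k)| = 1 := by
    rcases hX k (s k) with h | h <;> rw [h] <;> norm_num
  have h2 : 1 / 2 ≤ 1 + X k (s k) * be X y k s := by
    have : |X k (s k) * be X y k s| ≤ 1 / 2 := by rw [abs_mul, h1, one_mul]; exact hb
    have := (abs_le.1 this).1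
    linarith
  rw [h1, abs_of_pos (by linarith), div_le_iff₀ (by linarith)]
  linarith

end Pgq92

open Pgq92 in
theorem t_PGQ (h2 : S_EXB) (h3 : S_LAW) (h5 : S_U) (h6 : S_POS)
    (hH : Pool.Agent.NH44.AD.S_HBT) : S_PGQ := by
  intro d n m η X y ρ h hd hnm hX hy hy0 hρ0 hρη hη hsm Q hQ hp
  have hcd := one_le_cd d m
  have hηd := hη d (by omega) le_rfl
  have hρh : ρ ≤ h := by
    have h1 : (1 : ℝ) ≤ ((n : ℝ) + 1) ^ (((d : ℝ) - 2) / 2) := by
      refine Real.one_le_rpow ?_ ?_
      · have : (0 : ℝ) ≤ n := Nat.cast_nonneg n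
        linarith
      · have : (2 : ℝ) ≤ d := by exact_mod_cast hd
        linarith
    have h2' : ρ * 1 ≤ ρ * ((n : ℝ) + 1) ^ (((d : ℝ) - 2) / 2) :=
      mul_le_mul_of_nonneg_left h1 hρ0.le
    linarith [hηd.2]
  have hh : 0 < h := lt_of_lt_of_le hρ0 hρh
  have hcz := cz_pos d
  obtain ⟨n1, n2, n3⟩ := num d (c := Pool.Agent.NH44.AD.cd d m * h) (by positivity) hsm
  have hcc : h ≤ Pool.Agent.NH44.AD.cd d m * h := by nlinarith
  have hl := h3 d X y hd hX
  -- conditions below `Q`
  have hpos : ∀ r : Ce d, (∀ i, r i ≤ Q i) → r ≠ Q → 0 < DD y r := fun r hr hne => (hp r hr hne).1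
  -- (a)
  have hDQ : 0 < DD y Q := by
    by_cases h0 : ∃ i, Q i = 0
    · rw [hl.1 Q h0]; norm_num
    · push Not at h0
      have hk := h0 (⟨0, by omega⟩ : Fin d)
      set k : Fin d := ⟨0, by omega⟩ with hkdef
      have hk1 : 1 ≤ Q k := by omega
      have hc := hp (Function.update Q k (Q k - 1)) pred_le (pred_ne hk1)
      have h7 := ((h6 d X y (Function.update Q k (Q k - 1)) hd hX hc.1 hc.2.1).1 {k}).1
      rw [up_pred hk1] at h7
      have := hc.1
      linarith
  -- (b)
  have hKQ : ∀ S : Finset (Fin d), S.Nonempty → |KK X y S Q| ≤ cz d := by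
    intro S hS
    by_cases hu : S = univ
    · rw [hu, hl.2.2.2.1 Q hDQ.ne', abs_mul, abs_prod]
      have : ∏ i, |X i (Q i)| = 1 := prod_eq_one fun i _ => by
        rcases hX i (Q i) with h | h <;> rw [h] <;> norm_num
      rw [this, one_mul]
      linarith [hy Q]
    · by_cases h0 : ∃ j, j ∉ S ∧ Q j = 0
      · rw [hl.2.2.2.2.2.1 S Q hS h0, abs_zero]; exact hcz.le
      · obtain ⟨k, hk⟩ : ∃ k, k ∉ S := by
          by_contra hcon
          push Not at hcon
          exact hu (eq_univ_iff_forall.2 hcon)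
        have hk1 : 1 ≤ Q k := by
          by_contra hcon
          exact h0 ⟨k, hk, by omega⟩
        set s : Ce d := Function.update Q k (Q k - 1) with hsdef
        have hsQ : ∀ i, s i ≤ Q i := pred_le
        have hsn : ∀ i, s i ≤ n := fun i => (hsQ i).trans (hQ i)
        have hc : Cond m η X y s := hp s hsQ (pred_ne hk1)
        have hus : up {k} s = Q := up_pred hk1
        have h7 := hl.2.2.2.2.1 S k s hS hk hc.1.ne' (by rw [hus]; exact hDQ.ne')
        rw [hus] at h7
        have hK : ∀ S' : Finset (Fin d), S'.Nonempty →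
            |KK X y S' s| ≤ Pool.Agent.NH44.AD.cd d m * h :=
          fun S' hS' => kk_le h3 hH hd hnm hX hy hρh hη hsn hc S' hS'
        have hbe : |be X y k s| ≤ 1 / 2 := by
          have := hK {k} (singleton_nonempty k)
          unfold be
          linarith
        have hom := abs_om_le hX k s hbe
        have h8 := (h2 d (fun B => om X y k s * KK X y (insert k B) s) S
          (2 * (Pool.Agent.NH44.AD.cd d m * h)) hS (by positivity) (by linarith) (by
            intro B _ _
            rw [abs_mul]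
            exact mul_le_mul hom (hK _ (insert_nonempty k B)) (abs_nonneg _) (by norm_num))).2.2.1
        have h9 : (fun B : Finset (Fin d) => if B = ∅ then (1 : ℝ) else
            om X y k s * KK X y (insert k B) s) = ph X y k s := by
          funext B
          unfold ph
          by_cases hB : B = ∅ <;> simp [hB]
        have h10 : |lo (ph X y k s) S| ≤
            2 * (Pool.Agent.NH44.AD.cd d m * h) * (4 * ((d : ℝ) + 1)) ^ (2 * d) := by
          rw [← h9]
          convert h8 using 3
        rw [h7]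
        refine (abs_add_le _ _).trans ?_
        linarith [hK S hS]
  refine ⟨hDQ, hKQ, ?_, ?_⟩
  · -- (c)
    intro i c hic q hq hqc hqi
    rw [mem_box] at hq
    have hq1 : q ≠ Q := fun hcon => by rw [hcon] at hqc; exact lt_irrefl _ hqc
    have hq2 : ∀ j, Function.update q c (q c + 1) j ≤ Q j := by
      intro j
      by_cases hj : j = c
      · subst hj; rw [Function.update_self]; omega
      · rw [Function.update_of_ne hj]; exact hq j
    have hq3 : Function.update q c (q c + 1) ≠ Q := by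
      intro hcon
      have := congrFun hcon i
      rw [Function.update_of_ne hic] at this
      omega
    have hg1 : Good m η X y q := good_of hp hq hq1
    have hg2 : Good m η X y (Function.update q c (q c + 1)) := good_of hp hq2 hq3
    have hc1 := hp q hq hq1
    have hbc : |be X y c q| < 1 := by
      have := kk_le h3 hH hd hnm hX hy hρh hη (fun j => (hq j).trans (hQ j)) hc1 {c}
        (singleton_nonempty c)
      unfold be
      linarith
    have hD2 : 0 < DD y (up {c} q) := by
      rw [up_single]; exact hpos _ hq2 hq3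
    have h7 := h5 d X y hd hX c q hc1.1 hD2 hbc
    have h8 := h7.1 {i} (singleton_nonempty i) (by
      rw [mem_singleton]; exact fun hcon => hic hcon.symm)
    rw [h7.2.1 i, up_single] at h8
    unfold bc hc gc inn
    rw [if_pos hg1, if_pos hg2, if_pos hg1]
    unfold be at h8 ⊢
    simp only [if_pos hg1]
    rw [h8]
    ring
  · -- (d), (e)
    intro S k hS hk
    refine ⟨?_, ?_⟩
    · intro q hq hqk
      rw [mem_box] at hq
      have hq1 : q ≠ Q := fun hcon => by rw [hcon] at hqk; exact lt_irrefl _ hqk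
      have hq2 : ∀ j, Function.update q k (q k + 1) j ≤ Q j := by
        intro j
        by_cases hj : j = k
        · subst hj; rw [Function.update_self]; omega
        · rw [Function.update_of_ne hj]; exact hq j
      have hg1 : Good m η X y q := good_of hp hq hq1
      have hc1 := hp q hq hq1
      have hbc : |be X y k q| < 1 := by
        have := kk_le h3 hH hd hnm hX hy hρh hη (fun j => (hq j).trans (hQ j)) hc1 {k}
          (singleton_nonempty k)
        unfold be
        linarith
      have hD2 : 0 < DD y (up {k} q) := by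
        rw [up_single]
        by_cases hcon : Function.update q k (q k + 1) = Q
        · rw [hcon]; exact hDQ
        · exact hpos _ hq2 hcon
      have h7 := h5 d X y hd hX k q hc1.1 hD2 hbc
      have h8 := h7.1 S hS hk
      rw [up_single] at h8
      unfold gc inn bc
      simp only [if_pos hg1]
      rw [h8]
    · intro q hq hqk
      exact hl.2.2.2.2.2.1 S q hS ⟨k, hk, hqk⟩

end Pool.Agent.NH43.AD
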