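import Pool.Agent.NH43.AD.StmP

set_option autoImplicit false

/-!
# AD-32: the cut off families and the chains are predictable
-/

namespace Pool.Agent.NH43.AD

open Finset
open Pool.Agent.NH44.AD (Kn AC sd G0 box)

namespace PkcK

variable {d : ℕ}

/-- the coefficients of the innovations are predictable -/
theorem gc_pre (h7 : S_PRE) (h8 : S_GPRE) {n m : ℕ} {η : ℕ → ℝ} {Ω : Type} [Fintype Ω]
    {T : Fin d → ℕ → Ω → Ω} {X : Fin d → ℕ → Ω → ℝ} {f : Ce d → Ω → ℝ} {ρ : ℝ} (hd : 2 ≤ d)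
    (hH : Hyp n T X f) (q : Ce d) (hq : ∀ i, q i ≤ n) (k : Fin d) (S : Finset (Fin d)) :
    Pre T q (fun x => gc m η (Xx X x) (yx ρ f x) k S q) := by
  classical
  intro i v hv x
  have hG : Good m η (Xx X (T i v x)) (yx ρ f (T i v x)) q =
      Good m η (Xx X x) (yx ρ f x) q :=
    (h8 d n m η Ω T X f ρ hd hH q hq).1 i v hv x
  show gc m η (Xx X (T i v x)) (yx ρ f (T i v x)) k S q = gc m η (Xx X x) (yx ρ f x) k S q
  unfold gc
  by_cases hg : Good m η (Xx X x) (yx ρ f x) q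
  · have hg' : Good m η (Xx X (T i v x)) (yx ρ f (T i v x)) q := by rw [hG]; exact hg
    rw [if_pos hg, if_pos hg']
    have hne : ∀ r : Ce d, (∀ j, r j ≤ q j) → DD (yx ρ f x) r ≠ 0 := fun r hr =>
      (hg r hr).1.ne'
    have hK : ∀ U : Finset (Fin d), U.Nonempty →
        KK (Xx X (T i v x)) (yx ρ f (T i v x)) U q = KK (Xx X x) (yx ρ f x) U q := fun U hU =>
      (h7 d n Ω T X f ρ hd hH).2.2.1 U q x hU hq hne i v hv
    unfold gg be
    rw [hK _ (insert_nonempty k S), hK _ (singleton_nonempty k)]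
  · have hg' : ¬ Good m η (Xx X (T i v x)) (yx ρ f (T i v x)) q := by rw [hG]; exact hg
    rw [if_neg hg, if_neg hg']

theorem box_le {n : ℕ} {Q : Ce d} (hQ : ∀ i, Q i ≤ n) {q : Ce d} (hq : q ∈ box Q) :
    ∀ i, q i ≤ n := by
  intro i
  unfold Pool.Agent.NH44.AD.box at hq
  rw [Fintype.mem_piFinset] at hq
  have h1 := mem_range.mp (hq i)
  have h2 := hQ i
  omega

end PkcK

open PkcK in
theorem t_PKC (h17 : Pool.Agent.NH44.AD.S_PDC) (h7 : S_PRE) (h8 : S_GPRE) : S_PKC := by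
  intro d n m η Ω _ T X f ρ hd hH Q hQ S A B θ k j
  obtain ⟨hs, ha⟩ := h17 d m Ω T Q θ (fun x => hc m η (Xx X x) (yx ρ f x)) (by
    intro c τ q hq
    exact gc_pre h7 h8 hd hH q (box_le hQ hq) c {τ})
  have hgen : ∀ j : ℕ, ∀ τ, ∀ q ∈ box Q, ∀ a e,
      Pre T q (fun x => GJ m η (Xx X x) (yx ρ f x) Q S A B θ k j τ q a e) := by
    intro j
    induction j with
    | zero =>
      intro τ q hq a e
      refine hs _ k (fun x => G0 m Q A B θ k (gc m η (Xx X x) (yx ρ f x) k S)) ?_ τ q hq a e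
      intro q hq a e i v hv x
      have h1 := gc_pre (m := m) (η := η) (ρ := ρ) h7 h8 hd hH q (box_le hQ hq) k S i v hv x
      show G0 m Q A B θ k (gc m η (Xx X (T i v x)) (yx ρ f (T i v x)) k S) q a e =
        G0 m Q A B θ k (gc m η (Xx X x) (yx ρ f x) k S) q a e
      unfold G0
      have h2 : gc m η (Xx X (T i v x)) (yx ρ f (T i v x)) k S q =
        gc m η (Xx X x) (yx ρ f x) k S q := h1
      rw [h2]
    | succ j ih =>
      intro τ q hq a e
      have h1 := ha (fun x => GJ m η (Xx X x) (yx ρ f x) Q S A B θ k j) ih τ q hq a e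
      have h2 : (fun x => GJ m η (Xx X x) (yx ρ f x) Q S A B θ k (j + 1) τ q a e) =
          (fun x => AC (hc m η (Xx X x) (yx ρ f x)) Q
            (GJ m η (Xx X x) (yx ρ f x) Q S A B θ k j) τ q a e) := by
        funext x
        unfold GJ
        rw [Function.iterate_succ_apply']
      rw [h2]
      exact h1
  intro τ q hq a e
  exact hgen j τ q hq a e

end Pool.Agent.NH43.AD
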