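import Pool.Agent.NH43.AD.StmL

/-!
# Increments of the cumulants and positivity (AD-5, AD-6)
-/

set_option autoImplicit false

namespace Pool.Agent.NH43.AD

open Finset

namespace Pos

variable {d : ℕ}

theorem lo_single (g : Finset (Fin d) → ℝ) (i : Fin d) : lo g {i} = g {i} := by
  rw [lo, dif_pos (singleton_nonempty i), sum_eq_zero, sub_zero]
  intro B hB
  rw [dif_neg]
  rintro ⟨h1, h2⟩
  rw [min'_singleton] at h1
  exact h2.2 (singleton_subset_iff.2 h1)

theorem KK_single {X : Fin d → ℕ → ℝ} {y : Ce d → ℝ} (k : Fin d) (s : Ce d) :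
    KK X y {k} s = X k (s k) * (RR y s {k} - 1) := by
  unfold KK
  rw [lo_single, prod_singleton, card_singleton, if_pos rfl]

theorem DD_up_single {X : Fin d → ℕ → ℝ} {y : Ce d → ℝ} (hX : ∀ i v, X i v = 1 ∨ X i v = -1)
    (k : Fin d) (s : Ce d) (hD : DD y s ≠ 0) :
    DD y (up {k} s) = DD y s * (1 + X k (s k) * be X y k s) := by
  have hX2 : X k (s k) * X k (s k) = 1 := by
    rcases hX k (s k) with h | h <;> rw [h] <;> norm_num
  unfold be
  rw [KK_single, ← mul_assoc, hX2, one_mul]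
  unfold RR
  field_simp
  ring

theorem om_eq {x b : ℝ} (hx : x * x = 1) (hb : |b| < 1) :
    x / (1 + x * b) = (x - b) / (1 - b ^ 2) := by
  have hb' := abs_lt.1 hb
  have h1 : (1 : ℝ) - b ^ 2 ≠ 0 := by nlinarith
  have h2 : 1 + x * b ≠ 0 := by
    intro h
    have : (x * b) ^ 2 = b ^ 2 := by rw [mul_pow, sq x, hx, one_mul]
    have h3 : x * b = -1 := by linarith
    rw [h3] at this
    nlinarith
  rw [div_eq_div_iff h2 h1]
  linear_combination (-b) * hx

end Pos

theorem t_U (_h1 : S_EX) (h3 : S_LAW) : S_U := by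
  intro d X y hd hX k s hD hD' hbe
  have hX2 : X k (s k) * X k (s k) = 1 := by
    rcases hX k (s k) with h | h <;> rw [h] <;> norm_num
  refine ⟨fun S hS hk => ?_, fun i => ?_, Pos.DD_up_single hX k s hD.ne'⟩
  · obtain ⟨-, -, -, -, h5, -⟩ := h3 d X y hd hX
    rw [h5 S k s hS hk hD.ne' hD'.ne']
    unfold ps
    have e : ph X y k s S = (X k (s k) - be X y k s) * gg X y k S s := by
      unfold ph om gg
      rw [if_neg hS.ne_empty, Pos.om_eq hX2 hbe]
      ring
    rw [e]
    ring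
  · unfold ps
    rw [Pos.lo_single, sub_self]

theorem t_POS (h1 : S_EX) (h2 : S_EXB) (h3 : S_LAW) : S_POS := by
  intro d X y s hd hX hD hK
  obtain ⟨-, -, -, -, -, -, h7, h8, -⟩ := h3 d X y hd hX
  set kt : Finset (Fin d) → ℝ := fun B => (∏ i ∈ B, X i (s i)) * KK X y B s with hkt
  have hd0 : (0 : ℝ) ≤ d := Nat.cast_nonneg d
  have hcz0 : 0 < cz d := by
    unfold cz
    positivity
  have hpow1 : (1 : ℝ) ≤ (2 * ((d : ℝ) + 1)) ^ (d + 1) := one_le_pow₀ (by linarith)
  have hcz1 : cz d ≤ 1 := by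
    unfold cz
    rw [div_le_one (by positivity)]
    linarith
  have habs : ∀ B : Finset (Fin d), |∏ i ∈ B, X i (s i)| = 1 := by
    intro B
    rw [abs_prod]
    refine prod_eq_one fun i _ => ?_
    rcases hX i (s i) with h | h <;> rw [h] <;> norm_num
  have hb : ∀ B : Finset (Fin d), B.Nonempty → |kt B| ≤ cz d := by
    intro B hB
    rw [hkt]
    simp only
    rw [abs_mul, habs, one_mul]
    exact hK B hB
  have hex : ∀ V : Finset (Fin d), V.Nonempty → |ex kt V| ≤ cz d * ((d : ℝ) + 1) ^ d := by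
    intro V hV
    exact (h2 d kt V (cz d) hV hcz0.le hcz1 (fun B _ hB => hb B hB)).1
  have hkey : (2 : ℝ) ^ d * (cz d * ((d : ℝ) + 1) ^ d) ≤ 1 / 2 := by
    have e : (2 : ℝ) ^ d * (cz d * ((d : ℝ) + 1) ^ d) = 1 / (32 * ((d : ℝ) + 1)) := by
      unfold cz
      rw [pow_succ, mul_pow]
      have h0 : (2 : ℝ) ^ d ≠ 0 := by positivity
      have h0' : ((d : ℝ) + 1) ^ d ≠ 0 := by positivity
      have h0'' : ((d : ℝ) + 1) ≠ 0 := by positivity
      field_simp
      ring
    rw [e]
    apply one_div_le_one_div_of_le (by norm_num)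
    linarith
  have hkey' : cz d * ((d : ℝ) + 1) ^ d ≤ 1 / 2 := by
    have h0 : 0 ≤ cz d * ((d : ℝ) + 1) ^ d := by positivity
    have h4 : (1 : ℝ) ≤ 2 ^ d := one_le_pow₀ (by norm_num)
    nlinarith
  refine ⟨fun U => ?_, ?_⟩
  · have e1 := h7 U s hD.ne'
    have e2 : ex (fun B => (∏ i ∈ B, X i (s i)) * KK X y B s + if B.card = 1 then 1 else 0) U =
        ∑ V ∈ U.powerset, ex kt V := by
      rw [(h1 d kt (fun _ => 0) (fun B => if B.card = 1 then 1 else 0) (fun _ => 0) U).2.2.2.2.1]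
      refine sum_congr rfl fun V _ => ?_
      rw [(h1 d (fun _ => 0) (fun _ => 0) (fun _ => 0) (fun _ => 0) (U \ V)).2.2.2.2.2.2.2.2.2.1,
        mul_one]
    have e3 : |∑ V ∈ U.powerset, ex kt V - 1| ≤ 1 / 2 := by
      have e4 : ∑ V ∈ U.powerset, ex kt V - 1 = ∑ V ∈ U.powerset.erase ∅, ex kt V := by
        rw [← add_sum_erase _ _ (empty_mem_powerset U),
          (h1 d kt (fun _ => 0) (fun _ => 0) (fun _ => 0) ∅).1]
        ring
      rw [e4]
      refine (abs_sum_le_sum_abs _ _).trans ?_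
      have h5 : ∀ V ∈ U.powerset.erase ∅, |ex kt V| ≤ cz d * ((d : ℝ) + 1) ^ d := fun V hV =>
        hex V (nonempty_iff_ne_empty.2 (mem_erase.1 hV).1)
      refine (sum_le_sum h5).trans ?_
      rw [sum_const, nsmul_eq_mul]
      refine le_trans ?_ hkey
      refine mul_le_mul_of_nonneg_right ?_ (by positivity)
      have h6 : (U.powerset.erase ∅).card ≤ 2 ^ d := by
        refine (card_le_card (erase_subset _ _)).trans ?_
        rw [card_powerset]
        exact Nat.pow_le_pow_right (by norm_num) ((card_le_univ U).trans (by simp))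
      exact_mod_cast h6
    rw [e2] at e1
    have e5 := abs_le.1 e3
    rw [e1]
    constructor <;> nlinarith
  · rw [h8 s hD.ne', abs_mul, abs_of_pos hD]
    have huniv : (univ : Finset (Fin d)).Nonempty := ⟨⟨0, by omega⟩, mem_univ _⟩
    have := hex univ huniv
    nlinarith

end Pool.Agent.NH43.AD
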