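import Pool.Agent.NH43.AD.StmL

set_option autoImplicit false

/-!
# Project AD, AD-7: measurability and the mean value property
-/

namespace Pool.Agent.NH43.AD

open Finset
open Pool.Agent.H397R2.SD (E)

namespace PreH

variable {d : ℕ}

theorem up_mem {U : Finset (Fin d)} {s : Ce d} {i : Fin d} (h : i ∈ U) : up U s i = s i + 1 := by
  simp [up, h]

theorem up_not {U : Finset (Fin d)} {s : Ce d} {i : Fin d} (h : i ∉ U) : up U s i = s i := by
  simp [up, h]

theorem up_le (U : Finset (Fin d)) (s : Ce d) (i : Fin d) : up U s i ≤ s i + 1 := by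
  unfold up
  split_ifs <;> omega

theorem up_empty (s : Ce d) : up ∅ s = s := by
  funext i
  simp [up]

theorem update_up {U : Finset (Fin d)} {s : Ce d} {i : Fin d} :
    Function.update (up U s) i (s i) = up (U.erase i) s := by
  funext j
  by_cases hj : j = i
  · subst hj
    rw [Function.update_self, up_not (by simp)]
  · rw [Function.update_of_ne hj]
    unfold up
    simp [hj]

/-- expansion of a set function at the point `i` -/
theorem expand (h1 : S_EX) (g : Finset (Fin d) → ℝ) (hg : g ∅ = 1) (S : Finset (Fin d))
    (i : Fin d) (hi : i ∈ S) :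
    g S = lo g S +
      ∑ B ∈ (S.powerset.filter (fun B => i ∈ B)).erase S, lo g B * g (S \ B) := by
  have e1 := (h1 d (lo g) g g (fun _ => 1) S).2.1 i hi
  have e2 : ∀ U : Finset (Fin d), ex (lo g) U = g U := fun U =>
    (h1 d g g g (fun _ => 1) U).2.2.1 hg
  rw [e2] at e1
  rw [e1]
  have hS : S ∈ S.powerset.filter (fun B => i ∈ B) := by simp [hi]
  rw [← Finset.add_sum_erase _ _ hS]
  congr 1
  · rw [e2]
    simp [hg]
  · refine sum_congr rfl fun B _ => ?_
    rw [e2]

theorem lo_pair (h1 : S_EX) (g g' : Finset (Fin d) → ℝ) (hg : g ∅ = 1) (hg' : g' ∅ = 1)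
    (i : Fin d) : ∀ (N : ℕ) (S : Finset (Fin d)), S.card = N → i ∈ S →
      (∀ U, U ⊆ S → i ∉ U → g' U = g U) →
      (∀ U, U ⊂ S → i ∈ U → g U + g' U = 2 * g (U.erase i)) →
      lo g S + lo g' S = g S + g' S - 2 * g (S.erase i) + if S = {i} then 2 else 0 := by
  intro N
  induction N using Nat.strong_induction_on with
  | _ N ih =>
    intro S hN hi hA hB
    have eg := expand h1 g hg S i hi
    have eg' := expand h1 g' hg' S i hi
    have e2 : ∑ B ∈ (S.powerset.filter (fun B => i ∈ B)).erase S, lo g' B * g' (S \ B) =
        ∑ B ∈ (S.powerset.filter (fun B => i ∈ B)).erase S, lo g' B * g (S \ B) := by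
      refine sum_congr rfl fun B hBm => ?_
      rw [mem_erase, mem_filter, mem_powerset] at hBm
      rw [hA (S \ B) sdiff_subset (fun hc => (mem_sdiff.1 hc).2 hBm.2.2)]
    have e3 : ∑ B ∈ (S.powerset.filter (fun B => i ∈ B)).erase S, lo g B * g (S \ B) +
        ∑ B ∈ (S.powerset.filter (fun B => i ∈ B)).erase S, lo g' B * g (S \ B) =
        ∑ B ∈ (S.powerset.filter (fun B => i ∈ B)).erase S,
          (if B = {i} then 2 * g (S \ B) else 0) := by
      rw [← sum_add_distrib]
      refine sum_congr rfl fun B hBm => ?_
      rw [mem_erase, mem_filter, mem_powerset] at hBm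
      have hBS : B ⊂ S := hBm.2.1.ssubset_of_ne hBm.1
      have hb := ih B.card (hN ▸ card_lt_card hBS) B rfl hBm.2.2
        (fun U hU hiU => hA U (hU.trans hBS.subset) hiU)
        (fun U hU hiU => hB U (hU.trans hBS) hiU)
      rw [hB B hBS hBm.2.2] at hb
      have hb2 : lo g B + lo g' B = if B = {i} then 2 else 0 := by linarith
      rw [← add_mul, hb2]
      split_ifs <;> ring
    by_cases hS : S = {i}
    · rw [if_pos hS]
      have hem : (S.powerset.filter (fun B => i ∈ B)).erase S = ∅ := by
        apply Finset.eq_empty_of_forall_notMem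
        intro B hBm
        rw [mem_erase, mem_filter, mem_powerset] at hBm
        apply hBm.1
        apply Subset.antisymm hBm.2.1
        rw [hS]
        exact singleton_subset_iff.2 hBm.2.2
      rw [hem] at eg eg'
      have hge : g (S.erase i) = 1 := by
        rw [hS, ← hg]
        congr 1
        simp
      rw [hge]
      simp only [sum_empty, add_zero] at eg eg'
      linarith
    · rw [if_neg hS]
      have hmem : ({i} : Finset (Fin d)) ∈ (S.powerset.filter (fun B => i ∈ B)).erase S := by
        rw [mem_erase, mem_filter, mem_powerset]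
        exact ⟨fun h => hS h.symm, singleton_subset_iff.2 hi, mem_singleton_self i⟩
      rw [sum_ite_eq' _ ({i} : Finset (Fin d)) (fun B => 2 * g (S \ B)), if_pos hmem,
        sdiff_singleton_eq_erase] at e3
      linarith

theorem DD_step (hd : d ≠ 0) (y : Ce d → ℝ) (s : Ce d) (h0 : ¬ ∃ i, s i = 0) :
    DD y s = DD y (fun i => s i - 1) * (y (fun i => s i - 1) -
      lo (fun U => if U = univ then 0 else
        DD y (up U (fun i => s i - 1)) / DD y (fun i => s i - 1)) univ) := by
  conv_lhs => rw [DD]
  rw [dif_neg (by push Not at h0 ⊢; exact ⟨hd, h0⟩)]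
  simp only [dite_eq_ite]

variable {n : ℕ} {Ω : Type} [Fintype Ω] {T : Fin d → ℕ → Ω → Ω}
    {X : Fin d → ℕ → Ω → ℝ} {f : Ce d → Ω → ℝ}

omit [Fintype Ω] in
theorem sgnx (hH : Hyp n T X f) (x : Ω) : ∀ i v, Xx X x i v = 1 ∨ Xx X x i v = -1 :=
  fun i v => hH.sgn i v x

/-- measurability -/
theorem pre1 (h3 : S_LAW) (ρ : ℝ) (hd : 2 ≤ d) (hH : Hyp n T X f) (s : Ce d) (i : Fin d) (v : ℕ)
    (hv : s i ≤ v) (x : Ω) : DD (yx ρ f (T i v x)) s = DD (yx ρ f x) s := by
  apply (h3 d (Xx X x) (yx ρ f (T i v x)) hd (sgnx hH x)).2.1 (yx ρ f x) s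
  intro r hr
  unfold yx
  rw [hH.fixf r i v x (lt_of_lt_of_le (hr i) hv)]

theorem mean (h1 : S_EX) (h3 : S_LAW) (ρ : ℝ) (hd : 2 ≤ d) (hH : Hyp n T X f)
    (i : Fin d) (x : Ω) (v : ℕ) : ∀ (N : ℕ) (s : Ce d), ∑ j, s j = N → s i = v + 1 →
      (∀ q : Ce d, (∀ j, q j + 1 ≤ s j) → DD (yx ρ f x) q ≠ 0) →
      DD (yx ρ f x) s + DD (yx ρ f (T i v x)) s =
        2 * DD (yx ρ f x) (Function.update s i v) := by
  intro N
  induction N using Nat.strong_induction_on with
  | _ N ih =>
    intro s hN hsi hq
    by_cases h0 : ∃ j, s j = 0
    · rw [(h3 d (Xx X x) (yx ρ f x) hd (sgnx hH x)).1 s h0,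
        (h3 d (Xx X x) (yx ρ f (T i v x)) hd (sgnx hH x)).1 s h0]
      obtain ⟨j, hj⟩ := h0
      have hji : j ≠ i := by
        rintro rfl
        omega
      rw [(h3 d (Xx X x) (yx ρ f x) hd (sgnx hH x)).1 (Function.update s i v)
        ⟨j, by rw [Function.update_of_ne hji]; exact hj⟩]
      norm_num
    · have hd0 : d ≠ 0 := by omega
      have hs1 : ∀ j, 1 ≤ s j := fun j => Nat.one_le_iff_ne_zero.2 (fun h => h0 ⟨j, h⟩)
      rw [DD_step hd0 (yx ρ f x) s h0, DD_step hd0 (yx ρ f (T i v x)) s h0]
      have hps : ∀ j, s j = (fun j => s j - 1) j + 1 := fun j => by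
        have := hs1 j
        show s j = s j - 1 + 1
        omega
      generalize hp : (fun j => s j - 1) = p at hps
      have hpi : p i = v := by
        have := hps i
        omega
      have hDp : DD (yx ρ f (T i v x)) p = DD (yx ρ f x) p :=
        pre1 h3 ρ hd hH p i v hpi.le x
      have hDp0 : DD (yx ρ f x) p ≠ 0 := hq p (fun j => (hps j).ge)
      have hyp : yx ρ f (T i v x) p = - yx ρ f x p := by
        unfold yx
        have := hH.oddf p i x
        rw [hpi] at this
        rw [this]
        ring
      have hne : (univ : Finset (Fin d)) ≠ {i} := by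
        intro hc
        have := congrArg Finset.card hc
        rw [card_univ, Fintype.card_fin, card_singleton] at this
        omega
      have hne0 : (∅ : Finset (Fin d)) ≠ univ := by
        intro hc
        have := congrArg Finset.card hc
        rw [card_univ, Fintype.card_fin, card_empty] at this
        omega
      have hlo := lo_pair h1
        (fun U => if U = univ then 0 else DD (yx ρ f x) (up U p) / DD (yx ρ f x) p)
        (fun U => if U = univ then 0 else
          DD (yx ρ f (T i v x)) (up U p) / DD (yx ρ f (T i v x)) p)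
        (by
          show (if (∅ : Finset (Fin d)) = univ then (0 : ℝ) else _) = 1
          rw [if_neg hne0, up_empty, div_self hDp0])
        (by
          show (if (∅ : Finset (Fin d)) = univ then (0 : ℝ) else _) = 1
          rw [if_neg hne0, up_empty, div_self (by rw [hDp]; exact hDp0)])
        i (univ : Finset (Fin d)).card univ rfl (mem_univ i)
        (by
          intro U _ hU
          show (if U = univ then (0 : ℝ) else _) = (if U = univ then (0 : ℝ) else _)
          by_cases hUu : U = univ
          · rw [if_pos hUu, if_pos hUu]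
          · rw [if_neg hUu, if_neg hUu, hDp,
              pre1 h3 ρ hd hH (up U p) i v (by rw [up_not hU]; exact hpi.le) x])
        (by
          intro U hUu hU
          have hUe : U.erase i ≠ univ := by
            intro hc
            have := mem_univ i
            rw [← hc] at this
            simp at this
          show (if U = univ then (0 : ℝ) else _) + (if U = univ then (0 : ℝ) else _) =
            2 * (if U.erase i = univ then (0 : ℝ) else _)
          rw [if_neg hUu.ne, if_neg hUu.ne, if_neg hUe, hDp]
          have hlt : ∑ j, up U p j < N := by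
            rw [← hN]
            obtain ⟨j, hj⟩ : ∃ j, j ∉ U := by
              by_contra hcon
              push Not at hcon
              exact hUu.ne (eq_univ_iff_forall.2 hcon)
            refine sum_lt_sum (fun j _ => ?_) ⟨j, mem_univ _, ?_⟩
            · rw [hps j]
              exact up_le U p j
            · rw [hps j, up_not hj]
              omega
          have hm := ih (∑ j, up U p j) hlt (up U p) rfl (by rw [up_mem hU, hpi])
            (by
              intro q hqq
              apply hq q
              intro j
              rw [hps j]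
              exact (hqq j).trans (up_le U p j))
          rw [← hpi, update_up, hpi] at hm
          rw [← add_div, hm, mul_div_assoc])
      have hUe : (univ : Finset (Fin d)).erase i ≠ univ := by
        intro hc
        have := mem_univ i
        rw [← hc] at this
        simp at this
      have hup : Function.update s i v = up (univ.erase i) p := by
        rw [← hpi, ← update_up (U := univ)]
        congr 1
        funext j
        rw [up_mem (mem_univ j)]
        exact hps j
      rw [hup]
      simp only [if_true, if_neg hne, if_neg hUe] at hlo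
      rw [hDp] at hlo ⊢
      rw [hyp]
      have h5 : DD (yx ρ f x) p * (DD (yx ρ f x) (up (univ.erase i) p) / DD (yx ρ f x) p) =
          DD (yx ρ f x) (up (univ.erase i) p) := by
        field_simp
      linear_combination (-DD (yx ρ f x) p) * hlo + 2 * h5

theorem mean_up (h1 : S_EX) (h3 : S_LAW) (ρ : ℝ) (hd : 2 ≤ d) (hH : Hyp n T X f)
    (i : Fin d) (x : Ω) (s : Ce d) (hq : ∀ q : Ce d, (∀ j, q j ≤ s j) → DD (yx ρ f x) q ≠ 0)
    (U : Finset (Fin d)) :
    DD (yx ρ f x) (up U s) + DD (yx ρ f (T i (s i) x)) (up U s) =
      2 * DD (yx ρ f x) (up (U.erase i) s) := by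
  by_cases hU : i ∈ U
  · have := mean h1 h3 ρ hd hH i x (s i) _ (up U s) rfl (up_mem hU)
      (fun q hqq => hq q (fun j => by
        have h6 := hqq j
        have h7 := up_le U s j
        omega))
    rw [this, update_up]
  · rw [pre1 h3 ρ hd hH (up U s) i (s i) (by rw [up_not hU]) x, erase_eq_of_notMem hU]
    ring

end PreH

open PreH in
theorem t_PRE (h1 : S_EX) (h3 : S_LAW) : S_PRE := by
  intro d n Ω _ T X f ρ hd hH
  refine ⟨fun s i v hv x => pre1 h3 ρ hd hH s i v hv x, ?_, ?_, ?_⟩
  · intro s i x hsi hq
    have := mean h1 h3 ρ hd hH i x (s i - 1) _ s rfl (by omega) hq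
    rw [this]
    ring
  · intro S s x hS hsn hq i v hv
    have hDs : DD (yx ρ f x) s ≠ 0 := hq s (fun j => le_rfl)
    have hDs' : DD (yx ρ f (T i v x)) s = DD (yx ρ f x) s := pre1 h3 ρ hd hH s i v hv x
    unfold KK
    rcases hv.eq_or_lt with hv | hv
    · subst hv
      by_cases hi : i ∈ S
      · -- the cumulant is odd and so is the product
        have hprod : ∏ j ∈ S, Xx X (T i (s i) x) j (s j) = - ∏ j ∈ S, Xx X x j (s j) := by
          rw [← mul_prod_erase S _ hi, ← mul_prod_erase S _ hi]
          have e1 : Xx X (T i (s i) x) i (s i) = - Xx X x i (s i) :=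
            hH.odd i (s i) x (hsn i)
          have e2 : ∏ j ∈ S.erase i, Xx X (T i (s i) x) j (s j) =
              ∏ j ∈ S.erase i, Xx X x j (s j) := by
            refine prod_congr rfl fun j hj => ?_
            refine hH.fixX j (s j) i (s i) x ?_
            intro hc
            exact (mem_erase.1 hj).1 (Prod.ext_iff.1 hc).1
          rw [e1, e2]
          ring
        have hlo := lo_pair h1 (RR (yx ρ f x) s) (RR (yx ρ f (T i (s i) x)) s)
          (by unfold RR; rw [up_empty, div_self hDs])
          (by unfold RR; rw [up_empty, hDs', div_self hDs]) i S.card S rfl hi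
          (by
            intro U _ hU
            unfold RR
            rw [hDs', pre1 h3 ρ hd hH (up U s) i (s i) (by rw [up_not hU]) x])
          (by
            intro U _ _
            unfold RR
            rw [hDs', ← add_div, mean_up h1 h3 ρ hd hH i x s hq U, mul_div_assoc])
        have hS2 : RR (yx ρ f x) s S + RR (yx ρ f (T i (s i) x)) s S =
            2 * RR (yx ρ f x) s (S.erase i) := by
          unfold RR
          rw [hDs', ← add_div, mean_up h1 h3 ρ hd hH i x s hq S, mul_div_assoc]
        have hc : (if S = {i} then (2 : ℝ) else 0) = 2 * (if S.card = 1 then 1 else 0) := by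
          by_cases hSi : S = {i}
          · rw [if_pos hSi, if_pos (by rw [hSi, card_singleton])]
            ring
          · rw [if_neg hSi, if_neg]
            · ring
            · intro hc1
              obtain ⟨a, ha⟩ := card_eq_one.1 hc1
              rw [ha] at hi hSi
              apply hSi
              rw [mem_singleton.1 hi]
        rw [hS2, hc] at hlo
        rw [hprod]
        linear_combination (-∏ j ∈ S, Xx X x j (s j)) * hlo
      · have hprod : ∏ j ∈ S, Xx X (T i (s i) x) j (s j) = ∏ j ∈ S, Xx X x j (s j) := by
          refine prod_congr rfl fun j hj => ?_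
          refine hH.fixX j (s j) i (s i) x ?_
          intro hc
          have h8 : j = i := (Prod.ext_iff.1 hc).1
          rw [h8] at hj
          exact hi hj
        have hlo : lo (RR (yx ρ f (T i (s i) x)) s) S = lo (RR (yx ρ f x) s) S := by
          apply (h1 d (RR (yx ρ f x) s) (RR (yx ρ f (T i (s i) x)) s) (RR (yx ρ f x) s)
            (fun _ => 1) S).2.2.2.2.2.2.2.1
          intro U hU
          unfold RR
          rw [hDs', pre1 h3 ρ hd hH (up U s) i (s i) (by rw [up_not (fun h => hi (hU h))]) x]
        rw [hprod, hlo]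
    · have hprod : ∏ j ∈ S, Xx X (T i v x) j (s j) = ∏ j ∈ S, Xx X x j (s j) := by
        refine prod_congr rfl fun j hj => ?_
        refine hH.fixX j (s j) i v x ?_
        intro hc
        have h8 := Prod.ext_iff.1 hc
        have h9 : j = i := h8.1
        have h10 : s j = v := h8.2
        rw [h9] at h10
        omega
      have hlo : lo (RR (yx ρ f (T i v x)) s) S = lo (RR (yx ρ f x) s) S := by
        apply (h1 d (RR (yx ρ f x) s) (RR (yx ρ f (T i v x)) s) (RR (yx ρ f x) s)
          (fun _ => 1) S).2.2.2.2.2.2.2.1
        intro U _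
        unfold RR
        rw [hDs', pre1 h3 ρ hd hH (up U s) i v ((up_le U s i).trans hv) x]
      rw [hprod, hlo]
  · intro s x hsn hq i
    have hsum : top (yx ρ f x) s + top (yx ρ f (T i (s i) x)) s = 0 := by
      unfold top
      rw [← sum_add_distrib]
      have e1 : ∀ U : Finset (Fin d),
          (-1 : ℝ) ^ (d - U.card) * DD (yx ρ f x) (up U s) +
            (-1 : ℝ) ^ (d - U.card) * DD (yx ρ f (T i (s i) x)) (up U s) =
          (-1 : ℝ) ^ (d - U.card) * (2 * DD (yx ρ f x) (up (U.erase i) s)) := by
        intro U
        rw [← mul_add, mean_up h1 h3 ρ hd hH i x s hq U]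
      rw [sum_congr rfl (fun U _ => e1 U)]
      have e2 : (univ : Finset (Finset (Fin d))) =
          (insert i ((univ : Finset (Fin d)).erase i)).powerset := by
        rw [insert_erase (mem_univ i), powerset_univ]
      rw [e2, sum_powerset_insert (notMem_erase i univ), ← sum_add_distrib]
      refine sum_eq_zero fun U hU => ?_
      rw [mem_powerset] at hU
      have hiU : i ∉ U := fun h => (notMem_erase i univ) (hU h)
      rw [erase_insert hiU, erase_eq_of_notMem hiU, card_insert_of_notMem hiU]
      have hcard : U.card < d := by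
        have h11 : U.card ≤ (univ.erase i).card := card_le_card hU
        rw [card_erase_of_mem (mem_univ i), card_univ, Fintype.card_fin] at h11
        omega
      have h12 : d - U.card = (d - (U.card + 1)) + 1 := by omega
      rw [h12, pow_succ]
      ring
    linarith

end Pool.Agent.NH43.AD

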