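import Pool.Agent.NH43.AD.StmL
import Pool.Agent.H397R2.SD.B

set_option autoImplicit false

/-!
# Project AD: the stopped densities are supermartingales; the good cells
-/

namespace Pool.Agent.NH43.AD

open Finset
open Pool.Agent.H397R2.SD (E E_mono E_const E_sum E_congr E_add E_div)

namespace Sup68

section

variable {d n m : ℕ} {η : ℕ → ℝ} {Ω : Type} [Fintype Ω] {T : Fin d → ℕ → Ω → Ω}
  {X : Fin d → ℕ → Ω → ℝ} {f : Ce d → Ω → ℝ} {ρ : ℝ}

theorem up_univ (s : Ce d) (h : ∀ i, s i ≠ 0) : up univ (fun i => s i - 1) = s := by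
  funext i
  unfold up
  rw [if_pos (mem_univ i)]
  have := h i
  show s i - 1 + 1 = s i
  omega

theorem good_mono {X' : Fin d → ℕ → ℝ} {y : Ce d → ℝ} {q p : Ce d} (h : Good m η X' y p)
    (hqp : ∀ i, q i ≤ p i) : Good m η X' y q :=
  fun r hr => h r fun i => (hr i).trans (hqp i)

theorem E_inv (g : Ω → ℝ) (τ : Ω → Ω) (hτ : ∀ x, τ (τ x) = x) :
    E (fun x => g (τ x)) = E g := by
  unfold E
  congr 1
  exact Equiv.sum_comp (Function.Involutive.toPerm τ hτ) g

theorem es_nonneg (hP : S_POS) (hd : 2 ≤ d) (hH : Hyp n T X f) (s : Ce d) (x : Ω) :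
    0 ≤ es m η ρ X f s x := by
  unfold es
  split_ifs with h1 h2
  · exact zero_le_one
  · push Not at h1
    have h3 := h2 _ (fun i => le_rfl)
    obtain ⟨h4, h5, -⟩ := h3
    have h6 := (hP d (Xx X x) (yx ρ f x) (fun i => s i - 1) hd (fun i v => hH.sgn i v x) h4 h5).1
      univ
    rw [up_univ s h1] at h6
    linarith [h6.1]
  · exact le_rfl

open Classical in
theorem step (h3 : S_LAW) (hP : S_POS) (h7 : S_PRE) (h8 : S_GPRE) (hd : 2 ≤ d)
    (hH : Hyp n T X f) (s : Ce d) (hs : ∀ i, s i ≤ n + 1) (i : Fin d) (hi : 1 ≤ s i)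
    (A : Ω → Prop) (hA : ∀ x, A (T i (s i - 1) x) ↔ A x) :
    E (fun x => if A x then es m η ρ X f s x else 0) ≤
      E (fun x => if A x then es m η ρ X f (Function.update s i (s i - 1)) x else 0) := by
  by_cases h0 : ∃ j, s j = 0
  · apply E_mono
    intro x
    obtain ⟨j, hj⟩ := h0
    have hji : j ≠ i := by
      rintro rfl
      omega
    have e1 : es m η ρ X f s x = 1 := by rw [es, if_pos ⟨j, hj⟩]
    have e2 : es m η ρ X f (Function.update s i (s i - 1)) x = 1 := by
      rw [es, if_pos ⟨j, by rw [Function.update_of_ne hji]; exact hj⟩]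
    rw [e1, e2]
  · obtain ⟨p, hp⟩ : ∃ p : Ce d, p = fun j => s j - 1 := ⟨_, rfl⟩
    obtain ⟨s', hs'⟩ : ∃ s' : Ce d, s' = Function.update s i (s i - 1) := ⟨_, rfl⟩
    have hs0 : ∀ j, s j ≠ 0 := by
      push Not at h0
      exact h0
    have hGT : ∀ x, Good m η (Xx X (T i (s i - 1) x)) (yx ρ f (T i (s i - 1) x)) p ↔
        Good m η (Xx X x) (yx ρ f x) p := fun x => by
      have hpn : ∀ j, p j ≤ n := fun j => by
        have := hs j
        rw [hp]
        show s j - 1 ≤ n
        omega
      have h9 := (h8 d n m η Ω T X f ρ hd hH p hpn).1 i (s i - 1)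
        (by rw [hp]) x
      exact iff_of_eq h9
    have e1 : ∀ x, (if A x then es m η ρ X f s x else 0) =
        if A x ∧ Good m η (Xx X x) (yx ρ f x) p then DD (yx ρ f x) s else 0 := by
      intro x
      have e0 : es m η ρ X f s x =
          if Good m η (Xx X x) (yx ρ f x) p then DD (yx ρ f x) s else 0 := by
        rw [es, if_neg h0, hp]
      by_cases hAx : A x <;> by_cases hGx : Good m η (Xx X x) (yx ρ f x) p <;>
        simp [e0, hAx, hGx]
    have e2 : ∀ x, (if A x ∧ Good m η (Xx X x) (yx ρ f x) p then DD (yx ρ f x) s' else 0) =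
        ((if A x ∧ Good m η (Xx X x) (yx ρ f x) p then DD (yx ρ f x) s else 0) +
        (if A (T i (s i - 1) x) ∧ Good m η (Xx X (T i (s i - 1) x)) (yx ρ f (T i (s i - 1) x)) p
          then DD (yx ρ f (T i (s i - 1) x)) s else 0)) / 2 := by
      intro x
      by_cases hAG : A x ∧ Good m η (Xx X x) (yx ρ f x) p
      · rw [if_pos hAG, if_pos hAG, if_pos ⟨(hA x).2 hAG.1, (hGT x).2 hAG.2⟩]
        rw [(h7 d n Ω T X f ρ hd hH).2.1 s i x hi, hs']
        intro q hq
        have h10 := hAG.2 q fun j => by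
          have := hq j
          rw [hp]
          show q j ≤ s j - 1
          omega
        exact h10.1.ne'
      · rw [if_neg hAG, if_neg hAG, if_neg, add_zero, zero_div]
        rintro ⟨h11, h12⟩
        exact hAG ⟨(hA x).1 h11, (hGT x).1 h12⟩
    rw [E_congr e1]
    have e3 := E_inv (fun x => if A x ∧ Good m η (Xx X x) (yx ρ f x) p then DD (yx ρ f x) s else 0)
      (T i (s i - 1)) (fun x => hH.inv _ _ _)
    have e4 : E (fun x => if A x ∧ Good m η (Xx X x) (yx ρ f x) p then DD (yx ρ f x) s' else 0) =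
        E (fun x => if A x ∧ Good m η (Xx X x) (yx ρ f x) p then DD (yx ρ f x) s else 0) := by
      rw [E_congr e2, E_div 2 (fun x =>
        ((if A x ∧ Good m η (Xx X x) (yx ρ f x) p then DD (yx ρ f x) s else 0) +
        (if A (T i (s i - 1) x) ∧ Good m η (Xx X (T i (s i - 1) x)) (yx ρ f (T i (s i - 1) x)) p
          then DD (yx ρ f (T i (s i - 1) x)) s else 0))),
        E_add (fun x => if A x ∧ Good m η (Xx X x) (yx ρ f x) p then DD (yx ρ f x) s else 0)
          (fun x => if A (T i (s i - 1) x) ∧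
            Good m η (Xx X (T i (s i - 1) x)) (yx ρ f (T i (s i - 1) x)) p
          then DD (yx ρ f (T i (s i - 1) x)) s else 0)]
      have e5 : E (fun x => if A (T i (s i - 1) x) ∧
            Good m η (Xx X (T i (s i - 1) x)) (yx ρ f (T i (s i - 1) x)) p
          then DD (yx ρ f (T i (s i - 1) x)) s else 0) =
          E (fun x => if A x ∧ Good m η (Xx X x) (yx ρ f x) p then DD (yx ρ f x) s else 0) := e3
      rw [e5]
      ring
    rw [← e4]
    apply E_mono
    intro x
    by_cases hAx : A x
    · rw [if_pos hAx]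
      by_cases hGx : Good m η (Xx X x) (yx ρ f x) p
      · rw [if_pos ⟨hAx, hGx⟩, ← hs', es]
        split_ifs with h13 h14
        · rw [((h3 d (Xx X x) (yx ρ f x) hd (fun i v => hH.sgn i v x)).1 s' h13)]
        · exact le_rfl
        · exfalso
          apply h14
          refine good_mono hGx fun j => ?_
          rw [hp, hs']
          show Function.update s i (s i - 1) j - 1 ≤ s j - 1
          by_cases hji : j = i
          · rw [hji, Function.update_self]
            omega
          · rw [Function.update_of_ne hji]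
      · rw [if_neg fun h => hGx h.2]
        exact es_nonneg hP hd hH _ x
    · rw [if_neg hAx, if_neg fun h => hAx h.1]

open Classical in
theorem sup2 (h3 : S_LAW) (hP : S_POS) (h7 : S_PRE) (h8 : S_GPRE) (hd : 2 ≤ d)
    (hH : Hyp n T X f) (q : Ce d) (A : Ω → Prop) (hA : ∀ i v, q i ≤ v → ∀ x, A (T i v x) ↔ A x) :
    ∀ (k : ℕ) (s : Ce d), ∑ i, s i = k → (∀ i, q i ≤ s i) → (∀ i, s i ≤ n + 1) →
      E (fun x => if A x then es m η ρ X f s x else 0) ≤
        E (fun x => if A x then es m η ρ X f q x else 0) := by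
  intro k
  induction k using Nat.strong_induction_on with
  | _ k ih =>
    intro s hk hqs hs
    by_cases hsq : s = q
    · rw [hsq]
    · obtain ⟨i, hi⟩ : ∃ i, q i < s i := by
        by_contra hcon
        push Not at hcon
        exact hsq (funext fun i => le_antisymm (hcon i) (hqs i))
      refine (step h3 hP h7 h8 hd hH s hs i (by omega) A
        (fun x => hA i (s i - 1) (by omega) x)).trans ?_
      refine ih (∑ j, Function.update s i (s i - 1) j) ?_ _ rfl ?_ ?_
      · rw [← hk]
        refine Finset.sum_lt_sum (fun j _ => ?_) ⟨i, mem_univ _, ?_⟩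
        · by_cases hji : j = i
          · rw [hji, Function.update_self]
            omega
          · rw [Function.update_of_ne hji]
        · rw [Function.update_self]
          omega
      · intro j
        by_cases hji : j = i
        · rw [hji, Function.update_self]
          omega
        · rw [Function.update_of_ne hji]
          exact hqs j
      · intro j
        by_cases hji : j = i
        · rw [hji, Function.update_self]
          have := hs i
          omega
        · rw [Function.update_of_ne hji]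
          exact hs j

theorem mem_cells {r p : Ce d} : r ∈ cells p ↔ ∀ i, r i ≤ p i := by
  unfold cells
  rw [Fintype.mem_piFinset]
  refine forall_congr' fun i => ?_
  rw [mem_range, Nat.lt_succ_iff]

theorem card_cells {p : Ce d} (hp : ∀ i, p i ≤ n) : ((cells p).card : ℝ) ≤ ((n : ℝ) + 1) ^ d := by
  have h1 : (cells p).card ≤ (n + 1) ^ d := by
    unfold cells
    rw [Fintype.card_piFinset]
    calc ∏ i, (range (p i + 1)).card ≤ ∏ _i : Fin d, (n + 1) :=
          Finset.prod_le_prod' fun i _ => by
            rw [card_range]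
            exact Nat.succ_le_succ (hp i)
      _ = (n + 1) ^ d := by
          rw [Finset.prod_const, Finset.card_univ, Fintype.card_fin]
  exact_mod_cast h1

/-- the first bad cell -/
theorem first_bad {X' : Fin d → ℕ → ℝ} {y : Ce d → ℝ} {p : Ce d} (h : ¬ Good m η X' y p) :
    ∃ q ∈ cells p, Pregood m η X' y q ∧ ¬ Cond m η X' y q := by
  classical
  have h1 : ((cells p).filter fun r => ¬ Cond m η X' y r).Nonempty := by
    by_contra hcon
    rw [Finset.not_nonempty_iff_eq_empty] at hcon
    apply h
    intro r hr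
    by_contra h2
    have h3 : r ∈ (cells p).filter fun r => ¬ Cond m η X' y r :=
      mem_filter.2 ⟨mem_cells.2 hr, h2⟩
    rw [hcon] at h3
    exact absurd h3 (Finset.notMem_empty r)
  obtain ⟨q, hq, hmin⟩ := Finset.exists_min_image _ (fun r => ∑ i, r i) h1
  have hq1 := mem_filter.1 hq
  have hq2 := mem_cells.1 hq1.1
  refine ⟨q, hq1.1, fun r hr hne => ?_, hq1.2⟩
  by_contra h2
  have h3 := hmin r (mem_filter.2 ⟨mem_cells.2 fun i => (hr i).trans (hq2 i), h2⟩)
  have h4 : ∑ i, r i < ∑ i, q i := by
    obtain ⟨i, hi⟩ : ∃ i, r i < q i := by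
      by_contra hcon
      push Not at hcon
      exact hne (funext fun i => le_antisymm (hr i) (hcon i))
    exact Finset.sum_lt_sum (fun j _ => hr j) ⟨i, mem_univ _, hi⟩
  omega

end

end Sup68

open Sup68

theorem t_SUP (h3 : S_LAW) (hP : S_POS) (h7 : S_PRE) (h8 : S_GPRE) : S_SUP := by
  classical
  intro d n m η Ω _ _ T X f ρ hd hH s q hqs hs
  refine ⟨fun x => es_nonneg hP hd hH s x, fun A hA => ?_, ?_⟩
  · have := sup2 (m := m) (η := η) (ρ := ρ) h3 hP h7 h8 hd hH q A hA _ s rfl hqs hs
    convert this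
  · have h1 := sup2 (m := m) (η := η) (ρ := ρ) h3 hP h7 h8 hd hH (fun _ => 0) (fun _ => True)
      (fun _ _ _ _ => Iff.rfl) _ s rfl (fun i => Nat.zero_le _) hs
    refine le_trans (le_trans (E_mono fun x => ?_) h1)
      (le_trans (E_mono fun x => ?_) (le_of_eq (E_const 1)))
    · rw [if_pos trivial]
    · rw [if_pos trivial, es, if_pos ⟨⟨0, by omega⟩, rfl⟩]

theorem t_GD (h3 : S_LAW) (_hP : S_POS) (_h8 : S_GPRE) (h9 : S_SUP) : S_GD := by
  classical
  intro d n m η Ω _ _ T X f ρ κ hd hH hκ hPF
  have hd0 : 0 < d := by omega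
  refine ⟨fun p hp hsum => ?_, fun p hp => ?_⟩
  · have hpt : ∀ x : Ω, (if Good m η (Xx X x) (yx ρ f x) p then (0 : ℝ) else 1) ≤
        ∑ q ∈ cells p, (if Pregood m η (Xx X x) (yx ρ f x) q ∧ ¬ Cond m η (Xx X x) (yx ρ f x) q
          then DD (yx ρ f x) q else 0) := by
      intro x
      have hDD : ∀ q ∈ cells p, DD (yx ρ f x) q = 1 := by
        intro q hq
        have hq2 := mem_cells.1 hq
        refine (h3 d (Xx X x) (yx ρ f x) hd (fun i v => hH.sgn i v x)).2.2.1 q fun r hr => ?_
        have h10 : ∑ i, r i ≠ n := by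
          have h11 : ∑ i, r i < ∑ i, q i :=
            Finset.sum_lt_sum (fun j _ => (hr j).le) ⟨⟨0, hd0⟩, mem_univ _, hr _⟩
          have h12 : ∑ i, q i ≤ ∑ i, p i := Finset.sum_le_sum fun j _ => hq2 j
          omega
        show ρ * f r x = 0
        rw [hH.zero r x h10, mul_zero]
      have hnn : ∀ q ∈ cells p, (0 : ℝ) ≤ (if Pregood m η (Xx X x) (yx ρ f x) q ∧
          ¬ Cond m η (Xx X x) (yx ρ f x) q then DD (yx ρ f x) q else 0) := by
        intro q hq
        split_ifs
        · rw [hDD q hq]
          exact zero_le_one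
        · exact le_rfl
      by_cases hG : Good m η (Xx X x) (yx ρ f x) p
      · rw [if_pos hG]
        exact Finset.sum_nonneg hnn
      · rw [if_neg hG]
        obtain ⟨q, hq, hq1⟩ := first_bad hG
        refine le_trans ?_ (Finset.single_le_sum hnn hq)
        rw [if_pos hq1, hDD q hq]
    have h1 := (E_mono hpt).trans_eq (E_sum (cells p) (fun q x =>
      (if Pregood m η (Xx X x) (yx ρ f x) q ∧ ¬ Cond m η (Xx X x) (yx ρ f x) q
          then DD (yx ρ f x) q else 0)))
    have h2 : ∑ q ∈ cells p, E (fun x => (if Pregood m η (Xx X x) (yx ρ f x) q ∧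
        ¬ Cond m η (Xx X x) (yx ρ f x) q then DD (yx ρ f x) q else 0)) ≤
        ∑ _q ∈ cells p, κ := by
      refine Finset.sum_le_sum fun q hq => ?_
      have h4 := hPF q fun i => (mem_cells.1 hq i).trans (hp i)
      unfold PF at h4
      convert h4
    rw [Finset.sum_const, nsmul_eq_mul] at h2
    have h5 := mul_le_mul_of_nonneg_right (card_cells (n := n) hp) hκ
    have h6 := (h1.trans h2).trans h5
    convert h6
  · have h1 := (h9 d n m η Ω T X f ρ hd hH p p (fun _ => le_rfl)
      (fun i => (hp i).trans (Nat.le_succ n))).2.2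
    refine le_trans (E_mono fun x => ?_) h1
    have h0 := (h9 d n m η Ω T X f ρ hd hH p p (fun _ => le_rfl)
      (fun i => (hp i).trans (Nat.le_succ n))).1 x
    by_cases hG : Good m η (Xx X x) (yx ρ f x) p
    · rw [if_pos hG, es]
      split_ifs with h4 h5
      · rw [(h3 d (Xx X x) (yx ρ f x) hd (fun i v => hH.sgn i v x)).1 p h4]
      · exact le_rfl
      · exact absurd (good_mono hG fun i => Nat.sub_le _ _) h5
    · rw [if_neg hG]
      exact h0

end Pool.Agent.NH43.AD
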