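import Pool.Agent.NH43.AD.StmP
import Pool.Agent.H397R2.SD.B

set_option autoImplicit false

/-!
# Project AD, job AD-34: union bound over all the flattenings
-/

namespace Pool.Agent.NH43.AD

open Finset
open Pool.Agent.H397R2.SD (E)
open Pool.Agent.NH44.AD (Kn MO SB inn LL HH MM AC sd HM G0 bx box pr Th HB U1)

namespace Uni

variable {d : ℕ}

/-- the negation of the condition gives a flattening with large norm -/
theorem exists_flat (h24 : Pool.Agent.NH44.AD.S_HMF) {m : ℕ} {η : ℕ → ℝ} {X : Fin d → ℕ → ℝ}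
    {y : Ce d → ℝ} {Q : Ce d} (hD : 0 < DD y Q)
    (hK : ∀ S : Finset (Fin d), S.Nonempty → |KK X y S Q| ≤ cz d) (hc : ¬ Cond m η X y Q) :
    ∃ (A B : Finset (Fin d)) (θ : Ce d), A.Nonempty ∧ B.Nonempty ∧ A ∪ B ≠ univ ∧ θ ∈ Th d m ∧
      ¬ MO (bx A Q) (bx B Q) (HM m Q (A ∪ B) A B θ (KK X y (A ∪ B))) (η (A ∪ B).card) := by
  unfold Cond at hc
  have h1 : ∃ S : Finset (Fin d), S.Nonempty ∧ S ≠ univ ∧ ¬ HB m Q S (KK X y S) (η S.card) := by
    by_contra hcon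
    push Not at hcon
    exact hc ⟨hD, hK, hcon⟩
  obtain ⟨S, -, hS1, hS2⟩ := h1
  unfold HB at hS2
  push Not at hS2
  obtain ⟨θ, hθ, hF⟩ := hS2
  unfold Pool.Agent.NH44.AD.FB at hF
  push Not at hF
  obtain ⟨A, B, hA, hB, hAB, x, z, hxz⟩ := hF
  subst hAB
  refine ⟨A, B, θ, hA, hB, hS1, hθ, fun hMO => ?_⟩
  have h2 := hMO x z
  rw [← h24 d m Q θ (A ∪ B) A B (KK X y (A ∪ B)) hA hB rfl x z] at h2
  exact absurd h2 (not_le.2 hxz)

end Uni

open Classical in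
theorem t_UNI (h24 : Pool.Agent.NH44.AD.S_HMF) : S_UNI := by
  intro d n m η Ω _ _ X f ρ hd Q κ hκ hP hE
  set g : Finset (Fin d) × Finset (Fin d) × Ce d → Ω → ℝ := fun t x =>
    if t.1.Nonempty ∧ t.2.1.Nonempty ∧ t.1 ∪ t.2.1 ≠ univ ∧ Pregood m η (Xx X x) (yx ρ f x) Q ∧
      ¬ MO (bx t.1 Q) (bx t.2.1 Q)
        (HM m Q (t.1 ∪ t.2.1) t.1 t.2.1 t.2.2 (KK (Xx X x) (yx ρ f x) (t.1 ∪ t.2.1)))
        (η (t.1 ∪ t.2.1).card)
    then DD (yx ρ f x) Q else 0 with hg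
  set I : Finset (Finset (Fin d) × Finset (Fin d) × Ce d) := univ ×ˢ univ ×ˢ Th d m with hI
  have hg0 : ∀ t x, 0 ≤ g t x := by
    intro t x
    simp only [hg]
    split_ifs with h
    · exact (hP x h.2.2.2.1).1.le
    · exact le_rfl
  have h1 : PF m η ρ X f Q ≤ E (fun x => ∑ t ∈ I, g t x) := by
    unfold PF
    refine Pool.Agent.H397R2.SD.E_mono fun x => ?_
    split_ifs with h
    · obtain ⟨h2, h3⟩ := hP x h.1
      obtain ⟨A, B, θ, hA, hB, hAB, hθ, hM⟩ := Uni.exists_flat h24 h2 h3 h.2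
      have h4 : (A, B, θ) ∈ I := by
        rw [hI]
        exact mem_product.2 ⟨mem_univ _, mem_product.2 ⟨mem_univ _, hθ⟩⟩
      have h5 : g (A, B, θ) x = DD (yx ρ f x) Q := by
        simp only [hg]
        rw [if_pos ⟨hA, hB, hAB, h.1, hM⟩]
      rw [← h5]
      exact single_le_sum (fun t _ => hg0 t x) h4
    · exact sum_nonneg fun t _ => hg0 t x
  refine h1.trans ?_
  rw [Pool.Agent.H397R2.SD.E_sum]
  have h2 : ∀ t ∈ I, E (g t) ≤ κ := by
    rintro ⟨A, B, θ⟩ ht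
    have hθ : θ ∈ Th d m := (mem_product.1 (mem_product.1 ht).2).2
    by_cases hc : A.Nonempty ∧ B.Nonempty ∧ A ∪ B ≠ univ
    · have h3 := hE (A ∪ B) A B θ hc.1 hc.2.1 rfl hc.2.2 hθ
      refine le_trans (Pool.Agent.H397R2.SD.E_mono fun x => ?_) h3
      simp only [hg]
      by_cases h4 : Pregood m η (Xx X x) (yx ρ f x) Q ∧ ¬ MO (bx A Q) (bx B Q)
        (HM m Q (A ∪ B) A B θ (KK (Xx X x) (yx ρ f x) (A ∪ B))) (η (A ∪ B).card)
      · rw [if_pos h4, if_pos ⟨hc.1, hc.2.1, hc.2.2, h4.1, h4.2⟩]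
      · rw [if_neg h4, if_neg]
        rintro ⟨-, -, -, h5, h6⟩
        exact h4 ⟨h5, h6⟩
    · have h3 : ∀ x, g (A, B, θ) x ≤ 0 := by
        intro x
        simp only [hg]
        rw [if_neg]
        rintro ⟨h5, h6, h7, -, -⟩
        exact hc ⟨h5, h6, h7⟩
      refine le_trans (Pool.Agent.H397R2.SD.E_mono h3) ?_
      rw [Pool.Agent.H397R2.SD.E_zero]
      exact hκ
  refine (sum_le_card_nsmul _ _ _ h2).trans (le_of_eq ?_)
  have h3 : I.card = 4 ^ d * (2 ^ m) ^ d := by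
    rw [hI, card_product, card_product, card_univ, Fintype.card_finset, Fintype.card_fin]
    unfold Th
    rw [Fintype.card_piFinset_const, card_range, ← mul_assoc, ← mul_pow]
    norm_num
  rw [h3, nsmul_eq_mul]
  push_cast
  ring

end Pool.Agent.NH43.AD
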