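import Pool.Agent.NH43.AD.Ex
import Pool.Agent.NH43.AD.Exb
import Pool.Agent.NH43.AD.Law
import Pool.Agent.NH43.AD.Pos
import Pool.Agent.NH43.AD.Pre
import Pool.Agent.NH43.AD.Gpre
import Pool.Agent.NH43.AD.Sup
import Pool.Agent.NH43.AD.L1
import Pool.Agent.NH43.AD.Loc
import Pool.Agent.NH43.AD.Cor
import Pool.Agent.NH43.AD.Pair
import Pool.Agent.NH43.AD.Fin
import Pool.Agent.NH43.AD.Fr2
import Pool.Agent.NH43.AD.Mt
import Pool.Agent.NH43.AD.Pkc
import Pool.Agent.NH43.AD.Tup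
import Pool.Agent.NH43.AD.Uni
import Pool.Agent.NH43.AD.Nump
import Pool.Agent.NH43.AD.Pfa
import Pool.Agent.NH43.AD.Pgq
import Pool.Agent.NH43.AD.Dtm
import Pool.Agent.NH44.AD.All
import Pool.Agent.NH99.WZ.Frd
import Pool.Agent.NH99.WZ.Gt
import Pool.Agent.NH99.WZ.Tr

set_option autoImplicit false

/-!
# Project AD: everything put together (no hypotheses)
-/

namespace Pool.Agent.NH43.AD

open Pool.Agent.NH44.AD (all_HBT all_DET all_SDN all_CHI all_CHN all_KSB all_REM all_G0N all_DEC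
  all_RMN all_KNT all_PDC all_HMF)

theorem all_LAW : S_LAW := t_LAW t_EX t_TILT
theorem all_EXB : S_EXB := t_EXB t_EX
theorem all_U : S_U := t_U t_EX all_LAW
theorem all_POS : S_POS := t_POS t_EX all_EXB all_LAW
theorem all_PRE : S_PRE := t_PRE t_EX all_LAW
theorem all_GPRE : S_GPRE := t_GPRE all_LAW all_POS all_PRE
theorem all_SUP : S_SUP := t_SUP all_LAW all_POS all_PRE all_GPRE
theorem all_GD : S_GD := t_GD all_LAW all_POS all_GPRE all_SUP
theorem all_L1 : S_L1 := t_L1 all_LAW all_POS all_GPRE all_SUP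
theorem all_LOC : S_LOC := t_LOC t_EX all_EXB all_LAW
theorem all_PAIR : S_PAIR :=
  t_PAIR all_LAW all_POS all_PRE all_GPRE all_GD all_LOC t_COR t_HYP
theorem all_FR2 : S_FR2 :=
  t_FR2 (Pool.Agent.NH99.WZ.t_FRD (Pool.Agent.NH99.WZ.t_GT Pool.Agent.NH99.WZ.t_TR))
theorem all_MT : S_MT := t_MT all_FR2 all_LAW all_U all_POS all_PRE all_GPRE
theorem all_PKC : S_PKC := t_PKC all_PDC all_PRE all_GPRE
theorem all_TUP : S_TUP := t_TUP all_MT all_PKC
theorem all_UNI : S_UNI := t_UNI all_HMF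
theorem all_PGQ : S_PGQ := t_PGQ all_EXB all_LAW all_U all_POS all_HBT

theorem all_TOPC : Pool.Agent.NH44.AD.S_DET :=
  all_DET fun d X y hd hX => (all_LAW d X y hd hX).2.2.2.1

theorem all_DTM : S_DTM :=
  t_DTM all_PGQ all_HBT all_TOPC all_SDN all_CHI all_CHN all_KSB all_REM all_G0N all_DEC all_RMN
    all_KNT

theorem all_PF : S_PF := t_PFA all_DTM all_TUP all_UNI t_NUMP

theorem all_GRID : S_GRID := t_GRIDP all_PF all_L1 all_PAIR t_HYP

theorem all_FIN : S_FIN := t_GFIN all_GRID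

end Pool.Agent.NH43.AD
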