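import Pool.Agent.NH44.AD.Nrm

set_option autoImplicit false

/-!
# Project AD: exact positive laws in every dimension

Definitions.  A cell is a vector of levels `s : Fin d → ℕ`.  `X i v = ± 1` is the sign of the digit
`v` of the coordinate `i`, `y r` is the birth at the cell `r` (the top cumulant of the `d` digits
`X i (r i)` given all the digits below the cell).
-/

namespace Pool.Agent.NH43.AD

open Finset
open Pool.Agent.H397R2.SD (E)
open Pool.Agent.NH99.WZ (wal)
open Pool.Agent.NH44.AD (HB)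

variable {d : ℕ}

/-- cells -/
abbrev Ce (d : ℕ) : Type := Fin d → ℕ

/-- raise the coordinates in `U` by one -/
def up (U : Finset (Fin d)) (s : Ce d) : Ce d := fun i => if i ∈ U then s i + 1 else s i

/-! ### Set functions: exponential and logarithm (pointed recursions) -/

/-- the exponential of a set function: the sum over the partitions of `S` of the products -/
noncomputable def ex (f : Finset (Fin d) → ℝ) (S : Finset (Fin d)) : ℝ :=
  if h : S.Nonempty then
    ∑ B ∈ S.powerset, if _hB : S.min' h ∈ B then f B * ex f (S \ B) else 0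
  else 1
termination_by S.card
decreasing_by
  exact card_lt_card ⟨sdiff_subset, fun hc => (mem_sdiff.1 (hc (S.min'_mem h))).2 _hB⟩

/-- the logarithm (joint cumulants) of a set function with `g ∅ = 1` -/
noncomputable def lo (g : Finset (Fin d) → ℝ) (S : Finset (Fin d)) : ℝ :=
  g S - if h : S.Nonempty then
    ∑ B ∈ S.powerset, if _hB : S.min' h ∈ B ∧ B ⊂ S then lo g B * g (S \ B) else 0
  else 0
termination_by S.card
decreasing_by
  exact card_lt_card _hB.2

/-! ### The law -/

open Classical in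
/-- the densities of the laws of the digits below the cell `s` -/
noncomputable def DD (y : Ce d → ℝ) (s : Ce d) : ℝ :=
  if h : d = 0 ∨ ∃ i, s i = 0 then 1 else
    DD y (fun i => s i - 1) * (y (fun i => s i - 1) -
      lo (fun U => if _hU : U = univ then 0 else
        DD y (up U (fun i => s i - 1)) / DD y (fun i => s i - 1)) univ)
termination_by ∑ i, s i
decreasing_by
  all_goals
    push Not at h
    obtain ⟨hd, h0⟩ := h
    haveI : NeZero d := ⟨hd⟩
    have h1 : ∀ i, 1 ≤ s i := fun i => Nat.one_le_iff_ne_zero.2 (h0 i)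
  · refine sum_lt_sum (fun i _ => Nat.sub_le _ _) ⟨0, mem_univ _, ?_⟩
    have := h1 0
    show s 0 - 1 < s 0
    omega
  · obtain ⟨j, hj⟩ : ∃ j, j ∉ U := by
      by_contra hcon
      push Not at hcon
      exact _hU (eq_univ_iff_forall.2 hcon)
    refine sum_lt_sum (fun i _ => ?_) ⟨j, mem_univ _, ?_⟩
    · unfold up
      have := h1 i
      dsimp only
      split_ifs <;> omega
    · unfold up
      have := h1 j
      rw [if_neg hj]
      dsimp only
      omega

/-- the ratios -/
noncomputable def RR (y : Ce d → ℝ) (s : Ce d) (U : Finset (Fin d)) : ℝ := DD y (up U s) / DD y s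

/-- the joint cumulants of the digits `X i (s i)`, `i ∈ S`, given all the digits below the cell -/
noncomputable def KK (X : Fin d → ℕ → ℝ) (y : Ce d → ℝ) (S : Finset (Fin d)) (s : Ce d) : ℝ :=
  (∏ i ∈ S, X i (s i)) * (lo (RR y s) S - if S.card = 1 then 1 else 0)

/-- the bias of the digit `X i (s i)` -/
noncomputable def be (X : Fin d → ℕ → ℝ) (y : Ce d → ℝ) (i : Fin d) (s : Ce d) : ℝ := KK X y {i} s

/-- the tilt factor of the coordinate `k` -/
noncomputable def om (X : Fin d → ℕ → ℝ) (y : Ce d → ℝ) (k : Fin d) (s : Ce d) : ℝ :=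
  X k (s k) / (1 + X k (s k) * be X y k s)

/-- the cumulants of the tilt: `φ ∅ = 1`, `φ B = om k * KK (B ∪ k)` -/
noncomputable def ph (X : Fin d → ℕ → ℝ) (y : Ce d → ℝ) (k : Fin d) (s : Ce d)
    (B : Finset (Fin d)) : ℝ :=
  if B = ∅ then 1 else om X y k s * KK X y (insert k B) s

/-- the coefficient of the innovation of the coordinate `k` in the increment of `KK S` -/
noncomputable def gg (X : Fin d → ℕ → ℝ) (y : Ce d → ℝ) (k : Fin d) (S : Finset (Fin d))
    (s : Ce d) : ℝ := KK X y (insert k S) s / (1 - be X y k s ^ 2)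

/-- the non-linear part of the increment of `KK S` in the direction `k` -/
noncomputable def ps (X : Fin d → ℕ → ℝ) (y : Ce d → ℝ) (k : Fin d) (S : Finset (Fin d))
    (s : Ce d) : ℝ := lo (ph X y k s) S - ph X y k s S

/-- odd part in all the top digits (`D (p + 1)` at the cell `p`), as a function of the values at the
corners -/
noncomputable def top (y : Ce d → ℝ) (p : Ce d) : ℝ :=
  ∑ U : Finset (Fin d), (-1 : ℝ) ^ (d - U.card) * DD y (up U p)

/-! ### Conditions -/

/-- bound for the cumulants -/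
noncomputable def cz (d : ℕ) : ℝ := 1 / (16 * (2 * ((d : ℝ) + 1)) ^ (d + 1))

/-- the condition at the cell `q` (`η k` is the bound for the cumulants of order `k`) -/
def Cond (m : ℕ) (η : ℕ → ℝ) (X : Fin d → ℕ → ℝ) (y : Ce d → ℝ) (q : Ce d) : Prop :=
  0 < DD y q ∧ (∀ S : Finset (Fin d), S.Nonempty → |KK X y S q| ≤ cz d) ∧
  (∀ S : Finset (Fin d), S.Nonempty → S ≠ univ → HB m q S (KK X y S) (η S.card))

/-- good cells: the condition holds at all the cells below -/
def Good (m : ℕ) (η : ℕ → ℝ) (X : Fin d → ℕ → ℝ) (y : Ce d → ℝ) (q : Ce d) : Prop :=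
  ∀ r : Ce d, (∀ i, r i ≤ q i) → Cond m η X y r

/-- the condition holds at all the cells strictly below -/
def Pregood (m : ℕ) (η : ℕ → ℝ) (X : Fin d → ℕ → ℝ) (y : Ce d → ℝ) (q : Ce d) : Prop :=
  ∀ r : Ce d, (∀ i, r i ≤ q i) → r ≠ q → Cond m η X y r

/-! ### Probability -/

/-- signs and births of order `n` on a space with the flips `T i v` -/
structure Hyp {Ω : Type} (n : ℕ) (T : Fin d → ℕ → Ω → Ω) (X : Fin d → ℕ → Ω → ℝ)
    (f : Ce d → Ω → ℝ) : Prop where
  inv : ∀ i v x, T i v (T i v x) = x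
  comm : ∀ i v j u x, T i v (T j u x) = T j u (T i v x)
  sgn : ∀ i v x, X i v x = 1 ∨ X i v x = -1
  odd : ∀ i v x, v ≤ n → X i v (T i v x) = -X i v x
  fixX : ∀ i v j u x, (i, v) ≠ (j, u) → X i v (T j u x) = X i v x
  le : ∀ r x, |f r x| ≤ 1
  zero : ∀ r x, ∑ i, r i ≠ n → f r x = 0
  oddf : ∀ r i x, f r (T i (r i) x) = -f r x
  fixf : ∀ r i v x, r i < v → f r (T i v x) = f r x

/-- the signs at a point -/
def Xx {Ω : Type} (X : Fin d → ℕ → Ω → ℝ) (x : Ω) : Fin d → ℕ → ℝ := fun i v => X i v x

/-- the births at a point -/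
def yx {Ω : Type} (ρ : ℝ) (f : Ce d → Ω → ℝ) (x : Ω) : Ce d → ℝ := fun r => ρ * f r x

/-- a function of the digits below `s` -/
def Pre {Ω α : Type} (T : Fin d → ℕ → Ω → Ω) (s : Ce d) (g : Ω → α) : Prop :=
  ∀ i v, s i ≤ v → ∀ x, g (T i v x) = g x

/-- the cells below `s` -/
def cells (s : Ce d) : Finset (Ce d) := Fintype.piFinset (fun i => range (s i + 1))

open Classical in
/-- the probability, under the law of the digits below `q`, that `q` is the first bad cell -/
noncomputable def PF {Ω : Type} [Fintype Ω] (m : ℕ) (η : ℕ → ℝ) (ρ : ℝ) (X : Fin d → ℕ → Ω → ℝ)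
    (f : Ce d → Ω → ℝ) (q : Ce d) : ℝ :=
  E (fun x => if Pregood m η (Xx X x) (yx ρ f x) q ∧ ¬ Cond m η (Xx X x) (yx ρ f x) q then
    DD (yx ρ f x) q else 0)

open Classical in
/-- the test function -/
noncomputable def Psi {Ω : Type} (n m : ℕ) (η : ℕ → ℝ) (ρ : ℝ) (X : Fin d → ℕ → Ω → ℝ)
    (f : Ce d → Ω → ℝ) (x : Ω) : ℝ :=
  1 + ∑ r ∈ cells (fun _ => n),
    if Good m η (Xx X x) (yx ρ f x) r then top (yx ρ f x) r else 0

end Pool.Agent.NH43.AD
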