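import Pool.Agent.NH43.AD.StmL

set_option autoImplicit false

/-!
# Project AD: exponential and logarithm of set functions
-/

namespace Pool.Agent.NH43.AD

open Finset

namespace ExP

variable {d : ℕ}

theorem ex_empty (f : Finset (Fin d) → ℝ) : ex f ∅ = 1 := by
  rw [ex, dif_neg (by simp)]

theorem ex_min (f : Finset (Fin d) → ℝ) (S : Finset (Fin d)) (h : S.Nonempty) :
    ex f S = ∑ B ∈ S.powerset, if S.min' h ∈ B then f B * ex f (S \ B) else 0 := by
  rw [ex, dif_pos h]
  rfl

theorem lo_min (g : Finset (Fin d) → ℝ) (S : Finset (Fin d)) (h : S.Nonempty) :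
    lo g S = g S - ∑ B ∈ S.powerset,
      if S.min' h ∈ B ∧ B ⊂ S then lo g B * g (S \ B) else 0 := by
  rw [lo, dif_pos h]
  rfl

theorem lo_empty (g : Finset (Fin d) → ℝ) : lo g ∅ = g ∅ := by
  rw [lo, dif_neg (by simp), sub_zero]

theorem powerset_sdiff (S B : Finset (Fin d)) :
    (S \ B).powerset = S.powerset.filter (fun C => Disjoint B C) := by
  ext C
  rw [mem_powerset, mem_filter, mem_powerset, subset_sdiff, disjoint_comm]

theorem card_sdiff_lt {S B : Finset (Fin d)} {i : Fin d} (hi : i ∈ S) (hB : i ∈ B) :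
    (S \ B).card < S.card :=
  card_lt_card ⟨sdiff_subset, fun hc => (mem_sdiff.1 (hc hi)).2 hB⟩

/-- expansion of a double sum -/
theorem dbl (f : Finset (Fin d) → ℝ) (S : Finset (Fin d)) (m i : Fin d)
    (ih : ∀ B ⊆ S, m ∈ B → i ∉ B → ex f (S \ B) =
      ∑ C ∈ (S \ B).powerset, if i ∈ C then f C * ex f ((S \ B) \ C) else 0) :
    ∑ B ∈ S.powerset, (if m ∈ B then f B * ex f (S \ B) else 0) =
      ∑ B ∈ S.powerset, (if m ∈ B ∧ i ∈ B then f B * ex f (S \ B) else 0) +
      ∑ B ∈ S.powerset, ∑ C ∈ S.powerset, (if m ∈ B ∧ i ∈ C ∧ Disjoint B C then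
        f B * f C * ex f (S \ (B ∪ C)) else 0) := by
  rw [← sum_add_distrib]
  refine sum_congr rfl fun B hB => ?_
  have hB' := mem_powerset.1 hB
  by_cases hm : m ∈ B
  · by_cases hi : i ∈ B
    · rw [if_pos hm, if_pos ⟨hm, hi⟩]
      have : ∑ C ∈ S.powerset, (if m ∈ B ∧ i ∈ C ∧ Disjoint B C then
          f B * f C * ex f (S \ (B ∪ C)) else 0) = 0 := by
        refine sum_eq_zero fun C _ => ?_
        rw [if_neg]
        rintro ⟨_, h2, h3⟩
        exact (disjoint_left.1 h3 hi) h2
      rw [this, add_zero]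
    · rw [if_pos hm, if_neg (fun h => hi h.2), zero_add, ih B hB' hm hi, powerset_sdiff,
        sum_filter, mul_sum]
      refine sum_congr rfl fun C _ => ?_
      by_cases hd : Disjoint B C
      · by_cases hc : i ∈ C
        · rw [if_pos hd, if_pos hc, if_pos ⟨hm, hc, hd⟩, sdiff_sdiff_left]
          rw [sup_eq_union]
          ring
        · rw [if_pos hd, if_neg hc, if_neg (fun h => hc h.2.1), mul_zero]
      · rw [if_neg hd, if_neg (fun h => hd h.2.2), mul_zero]
  · rw [if_neg hm, if_neg (fun h => hm h.1), zero_add]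
    symm
    refine sum_eq_zero fun C _ => ?_
    rw [if_neg (fun h => hm h.1)]

/-- the recursion at every point -/
theorem ex_pt (f : Finset (Fin d) → ℝ) : ∀ (k : ℕ) (S : Finset (Fin d)), S.card = k → ∀ i ∈ S,
    ex f S = ∑ B ∈ S.powerset, if i ∈ B then f B * ex f (S \ B) else 0 := by
  intro k
  induction k using Nat.strong_induction_on with
  | _ k ih =>
    intro S hS i hi
    have hne : S.Nonempty := ⟨i, hi⟩
    set m := S.min' hne with hm
    have hmS : m ∈ S := S.min'_mem hne
    rw [ex_min f S hne, ← hm]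
    rw [dbl f S m i (fun B hB hmB hiB => ih _ (hS ▸ card_sdiff_lt hmS hmB) _ rfl i
      (mem_sdiff.2 ⟨hi, hiB⟩))]
    rw [dbl f S i m (fun B hB hiB hmB => ih _ (hS ▸ card_sdiff_lt hi hiB) _ rfl m
      (mem_sdiff.2 ⟨hmS, hmB⟩))]
    congr 1
    · refine sum_congr rfl fun B _ => ?_
      simp only [and_comm]
    · rw [sum_comm]
      refine sum_congr rfl fun C _ => sum_congr rfl fun B _ => ?_
      by_cases h : m ∈ B ∧ i ∈ C ∧ Disjoint B C
      · rw [if_pos h, if_pos ⟨h.2.1, h.1, h.2.2.symm⟩, union_comm, mul_comm (f B)]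
      · rw [if_neg h, if_neg (fun h' => h ⟨h'.2.1, h'.1, h'.2.2.symm⟩)]

theorem ex_at (f : Finset (Fin d) → ℝ) (S : Finset (Fin d)) (i : Fin d) (hi : i ∈ S) :
    ex f S = ∑ B ∈ S.powerset, if i ∈ B then f B * ex f (S \ B) else 0 :=
  ex_pt f _ S rfl i hi

theorem ex_congr (f h : Finset (Fin d) → ℝ) : ∀ (k : ℕ) (S : Finset (Fin d)), S.card = k →
    (∀ U ⊆ S, U.Nonempty → f U = h U) → ex f S = ex h S := by
  intro k
  induction k using Nat.strong_induction_on with
  | _ k ih =>
    intro S hS H
    by_cases hne : S.Nonempty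
    · rw [ex_min f S hne, ex_min h S hne]
      refine sum_congr rfl fun B hB => ?_
      by_cases hm : S.min' hne ∈ B
      · rw [if_pos hm, if_pos hm, H B (mem_powerset.1 hB) ⟨_, hm⟩,
          ih _ (hS ▸ card_sdiff_lt (S.min'_mem hne) hm) _ rfl
            (fun U hU hU' => H U (hU.trans sdiff_subset) hU')]
      · rw [if_neg hm, if_neg hm]
    · rw [not_nonempty_iff_eq_empty] at hne
      subst hne
      rw [ex_empty, ex_empty]

theorem lo_congr (f h : Finset (Fin d) → ℝ) : ∀ (k : ℕ) (S : Finset (Fin d)), S.card = k →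
    (∀ U ⊆ S, f U = h U) → lo f S = lo h S := by
  intro k
  induction k using Nat.strong_induction_on with
  | _ k ih =>
    intro S hS H
    by_cases hne : S.Nonempty
    · rw [lo_min f S hne, lo_min h S hne, H S Subset.rfl]
      congr 1
      refine sum_congr rfl fun B hB => ?_
      by_cases hm : S.min' hne ∈ B ∧ B ⊂ S
      · rw [if_pos hm, if_pos hm, H (S \ B) sdiff_subset,
          ih _ (hS ▸ card_lt_card hm.2) _ rfl (fun U hU => H U (hU.trans hm.2.subset))]
      · rw [if_neg hm, if_neg hm]
    · rw [not_nonempty_iff_eq_empty] at hne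
      subst hne
      rw [lo_empty, lo_empty, H ∅ Subset.rfl]

/-- separation of the block `S` -/
theorem split_top (F : Finset (Fin d) → ℝ) (S : Finset (Fin d)) (i : Fin d) (hi : i ∈ S) :
    ∑ B ∈ S.powerset, (if i ∈ B then F B else 0) =
      F S + ∑ B ∈ S.powerset, (if i ∈ B ∧ B ⊂ S then F B else 0) := by
  rw [← add_sum_erase _ _ (mem_powerset_self S), if_pos hi]
  congr 1
  rw [← add_sum_erase _ (fun B => if i ∈ B ∧ B ⊂ S then F B else 0) (mem_powerset_self S)]
  rw [if_neg (fun h => (ssubset_irrefl S) h.2), zero_add]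
  refine sum_congr rfl fun B hB => ?_
  rw [mem_erase, mem_powerset] at hB
  have hss : B ⊂ S := lt_of_le_of_ne hB.2 hB.1
  by_cases h : i ∈ B
  · rw [if_pos h, if_pos ⟨h, hss⟩]
  · rw [if_neg h, if_neg (fun h' => h h'.1)]

theorem ex_lo (g : Finset (Fin d) → ℝ) (hg : g ∅ = 1) : ∀ (k : ℕ) (S : Finset (Fin d)),
    S.card = k → ex (lo g) S = g S := by
  intro k
  induction k using Nat.strong_induction_on with
  | _ k ih =>
    intro S hS
    by_cases hne : S.Nonempty
    · rw [ex_min _ S hne, split_top (fun B => lo g B * ex (lo g) (S \ B)) S _ (S.min'_mem hne)]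
      rw [sdiff_self, bot_eq_empty, ex_empty, mul_one, lo_min g S hne]
      have : ∑ B ∈ S.powerset, (if S.min' hne ∈ B ∧ B ⊂ S then lo g B * ex (lo g) (S \ B) else 0)
          = ∑ B ∈ S.powerset, (if S.min' hne ∈ B ∧ B ⊂ S then lo g B * g (S \ B) else 0) := by
        refine sum_congr rfl fun B hB => ?_
        by_cases hm : S.min' hne ∈ B ∧ B ⊂ S
        · rw [if_pos hm, if_pos hm, ih _ (hS ▸ card_sdiff_lt (S.min'_mem hne) hm.1) _ rfl]
        · rw [if_neg hm, if_neg hm]
      rw [this]
      ring
    · rw [not_nonempty_iff_eq_empty] at hne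
      subst hne
      rw [ex_empty, hg]

theorem lo_ex (f : Finset (Fin d) → ℝ) : ∀ (k : ℕ) (S : Finset (Fin d)),
    S.card = k → S.Nonempty → lo (ex f) S = f S := by
  intro k
  induction k using Nat.strong_induction_on with
  | _ k ih =>
    intro S hS hne
    rw [lo_min _ S hne, ex_min f S hne,
      split_top (fun B => f B * ex f (S \ B)) S _ (S.min'_mem hne), sdiff_self, bot_eq_empty,
      ex_empty, mul_one]
    have : ∑ B ∈ S.powerset, (if S.min' hne ∈ B ∧ B ⊂ S then lo (ex f) B * ex f (S \ B) else 0)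
        = ∑ B ∈ S.powerset, (if S.min' hne ∈ B ∧ B ⊂ S then f B * ex f (S \ B) else 0) := by
      refine sum_congr rfl fun B hB => ?_
      by_cases hm : S.min' hne ∈ B ∧ B ⊂ S
      · rw [if_pos hm, if_pos hm, ih _ (hS ▸ card_lt_card hm.2) _ rfl ⟨_, hm.1⟩]
      · rw [if_neg hm, if_neg hm]
    rw [this]
    ring

/-- sums over the subsets: with or without a point -/
theorem sum_pw (F : Finset (Fin d) → ℝ) (S : Finset (Fin d)) (i : Fin d) (hi : i ∈ S) :
    ∑ U ∈ S.powerset, F U = ∑ U ∈ S.powerset, (if i ∈ U then F U else 0) +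
      ∑ U ∈ S.powerset, (if i ∈ U then 0 else F U) := by
  rw [← sum_add_distrib]
  refine sum_congr rfl fun U _ => ?_
  by_cases h : i ∈ U
  · rw [if_pos h, if_pos h, add_zero]
  · rw [if_neg h, if_neg h, zero_add]

/-- the double sum over pairs of disjoint sets -/
theorem pair1 (a b c : Finset (Fin d) → ℝ) (S : Finset (Fin d)) (i : Fin d) :
    ∑ U ∈ S.powerset, (if i ∈ U then (∑ B ∈ U.powerset, if i ∈ B then a B * b (U \ B) else 0) *
        c (S \ U) else 0) =
      ∑ B ∈ S.powerset, (if i ∈ B then a B * ∑ V ∈ (S \ B).powerset, b V * c ((S \ B) \ V) else 0)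
    := by
  have e1 : ∀ U ∈ S.powerset, (if i ∈ U then (∑ B ∈ U.powerset,
      if i ∈ B then a B * b (U \ B) else 0) * c (S \ U) else 0) =
      ∑ B ∈ S.powerset, (if i ∈ B ∧ B ⊆ U then a B * b (U \ B) * c (S \ U) else 0) := by
    intro U hU
    have hU' := mem_powerset.1 hU
    have h1 : U.powerset = S.powerset.filter (fun B => B ⊆ U) := by
      ext B
      rw [mem_powerset, mem_filter, mem_powerset]
      exact ⟨fun h => ⟨h.trans hU', h⟩, fun h => h.2⟩
    by_cases hi : i ∈ U
    · rw [if_pos hi, sum_mul, h1, sum_filter]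
      refine sum_congr rfl fun B _ => ?_
      by_cases h2 : B ⊆ U
      · by_cases h3 : i ∈ B
        · rw [if_pos h2, if_pos h3, if_pos ⟨h3, h2⟩]
        · rw [if_pos h2, if_neg h3, if_neg (fun h => h3 h.1), zero_mul]
      · rw [if_neg h2, if_neg (fun h => h2 h.2)]
    · rw [if_neg hi]
      symm
      refine sum_eq_zero fun B _ => ?_
      rw [if_neg (fun h => hi (h.2 h.1))]
  rw [sum_congr rfl e1, sum_comm]
  refine sum_congr rfl fun B hB => ?_
  have hB' := mem_powerset.1 hB
  by_cases hi : i ∈ B
  · rw [if_pos hi, mul_sum]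
    -- bijection U = B ∪ V
    have e2 : ∑ U ∈ S.powerset, (if i ∈ B ∧ B ⊆ U then a B * b (U \ B) * c (S \ U) else 0) =
        ∑ U ∈ S.powerset.filter (fun U => B ⊆ U), a B * b (U \ B) * c (S \ U) := by
      rw [sum_filter]
      refine sum_congr rfl fun U _ => ?_
      by_cases h : B ⊆ U
      · rw [if_pos ⟨hi, h⟩, if_pos h]
      · rw [if_neg (fun h' => h h'.2), if_neg h]
    rw [e2]
    refine sum_bij' (fun U _ => U \ B) (fun V _ => B ∪ V) ?_ ?_ ?_ ?_ ?_
    · intro U hU
      rw [mem_filter, mem_powerset] at hU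
      rw [mem_powerset]
      exact sdiff_subset_sdiff hU.1 Subset.rfl
    · intro V hV
      rw [mem_powerset, subset_sdiff] at hV
      rw [mem_filter, mem_powerset]
      exact ⟨union_subset hB' hV.1, subset_union_left⟩
    · intro U hU
      rw [mem_filter, mem_powerset] at hU
      exact union_sdiff_of_subset hU.2
    · intro V hV
      rw [mem_powerset, subset_sdiff] at hV
      rw [union_sdiff_cancel_left hV.2.symm]
    · intro U hU
      rw [mem_filter, mem_powerset] at hU
      have : (S \ B) \ (U \ B) = S \ U := by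
        ext x
        simp only [mem_sdiff, not_and, not_not]
        constructor
        · rintro ⟨⟨h1, h2⟩, h3⟩
          exact ⟨h1, fun h4 => h2 (h3 h4)⟩
        · rintro ⟨h1, h2⟩
          exact ⟨⟨h1, fun h3 => h2 (hU.2 h3)⟩, fun h3 => absurd h3 h2⟩
      rw [this]
      ring
  · rw [if_neg hi]
    refine sum_eq_zero fun U _ => ?_
    rw [if_neg (fun h => hi h.1)]

/-- complementation in the convolution -/
theorem conv_comm (a b : Finset (Fin d) → ℝ) (S : Finset (Fin d)) :
    ∑ U ∈ S.powerset, a U * b (S \ U) = ∑ U ∈ S.powerset, b U * a (S \ U) := by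
  refine sum_bij' (fun U _ => S \ U) (fun U _ => S \ U) ?_ ?_ ?_ ?_ ?_
  · intro U _
    exact mem_powerset.2 sdiff_subset
  · intro U _
    exact mem_powerset.2 sdiff_subset
  · intro U hU
    exact Finset.sdiff_sdiff_eq_self (mem_powerset.1 hU)
  · intro U hU
    exact Finset.sdiff_sdiff_eq_self (mem_powerset.1 hU)
  · intro U hU
    rw [Finset.sdiff_sdiff_eq_self (mem_powerset.1 hU)]
    ring

theorem ex_add (f h : Finset (Fin d) → ℝ) : ∀ (k : ℕ) (S : Finset (Fin d)), S.card = k →
    ex (fun B => f B + h B) S = ∑ U ∈ S.powerset, ex f U * ex h (S \ U) := by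
  intro k
  induction k using Nat.strong_induction_on with
  | _ k ih =>
    intro S hS
    by_cases hne : S.Nonempty
    · obtain ⟨i, hi⟩ := hne
      rw [ex_at _ S i hi, sum_pw (fun U => ex f U * ex h (S \ U)) S i hi]
      -- the part with `i ∈ U`
      have e1 : ∑ U ∈ S.powerset, (if i ∈ U then ex f U * ex h (S \ U) else 0) =
          ∑ B ∈ S.powerset, (if i ∈ B then f B * ex (fun B => f B + h B) (S \ B) else 0) := by
        have e3 : ∀ U ∈ S.powerset, (if i ∈ U then ex f U * ex h (S \ U) else 0) =
            (if i ∈ U then (∑ B ∈ U.powerset, if i ∈ B then f B * ex f (U \ B) else 0) *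
              ex h (S \ U) else 0) := by
          intro U _
          by_cases hU : i ∈ U
          · rw [if_pos hU, if_pos hU, ← ex_at f U i hU]
          · rw [if_neg hU, if_neg hU]
        rw [sum_congr rfl e3, pair1 f (ex f) (ex h) S i]
        refine sum_congr rfl fun B _ => ?_
        by_cases hB : i ∈ B
        · rw [if_pos hB, if_pos hB, ih _ (hS ▸ card_sdiff_lt hi hB) _ rfl]
        · rw [if_neg hB, if_neg hB]
      have e2 : ∑ U ∈ S.powerset, (if i ∈ U then 0 else ex f U * ex h (S \ U)) =
          ∑ B ∈ S.powerset, (if i ∈ B then h B * ex (fun B => f B + h B) (S \ B) else 0) := by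
        have e4 : ∑ U ∈ S.powerset, (if i ∈ U then 0 else ex f U * ex h (S \ U)) =
            ∑ U ∈ S.powerset, (if i ∈ U then ex h U * ex f (S \ U) else 0) := by
          refine sum_bij' (fun U _ => S \ U) (fun U _ => S \ U) ?_ ?_ ?_ ?_ ?_
          · intro U _
            exact mem_powerset.2 sdiff_subset
          · intro U _
            exact mem_powerset.2 sdiff_subset
          · intro U hU
            exact Finset.sdiff_sdiff_eq_self (mem_powerset.1 hU)
          · intro U hU
            exact Finset.sdiff_sdiff_eq_self (mem_powerset.1 hU)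
          · intro U hU
            rw [Finset.sdiff_sdiff_eq_self (mem_powerset.1 hU)]
            by_cases h1 : i ∈ U
            · rw [if_pos h1, if_neg (fun h2 => (mem_sdiff.1 h2).2 h1)]
            · rw [if_neg h1, if_pos (mem_sdiff.2 ⟨hi, h1⟩)]
              ring
        have e3 : ∀ U ∈ S.powerset, (if i ∈ U then ex h U * ex f (S \ U) else 0) =
            (if i ∈ U then (∑ B ∈ U.powerset, if i ∈ B then h B * ex h (U \ B) else 0) *
              ex f (S \ U) else 0) := by
          intro U _
          by_cases hU : i ∈ U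
          · rw [if_pos hU, if_pos hU, ← ex_at h U i hU]
          · rw [if_neg hU, if_neg hU]
        rw [e4, sum_congr rfl e3, pair1 h (ex h) (ex f) S i]
        refine sum_congr rfl fun B _ => ?_
        by_cases hB : i ∈ B
        · rw [if_pos hB, if_pos hB, ih _ (hS ▸ card_sdiff_lt hi hB) _ rfl, conv_comm]
        · rw [if_neg hB, if_neg hB]
      rw [e1, e2, ← sum_add_distrib]
      refine sum_congr rfl fun B _ => ?_
      by_cases hB : i ∈ B
      · rw [if_pos hB, if_pos hB, if_pos hB]
        ring
      · rw [if_neg hB, if_neg hB, if_neg hB, add_zero]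
    · rw [not_nonempty_iff_eq_empty] at hne
      subst hne
      simp [ex_empty]

theorem ex_hom (f : Finset (Fin d) → ℝ) (a : Fin d → ℝ) : ∀ (k : ℕ) (S : Finset (Fin d)),
    S.card = k → ex (fun B => (∏ i ∈ B, a i) * f B) S = (∏ i ∈ S, a i) * ex f S := by
  intro k
  induction k using Nat.strong_induction_on with
  | _ k ih =>
    intro S hS
    by_cases hne : S.Nonempty
    · rw [ex_min _ S hne, ex_min _ S hne, mul_sum]
      refine sum_congr rfl fun B hB => ?_
      by_cases hm : S.min' hne ∈ B
      · rw [if_pos hm, if_pos hm, ih _ (hS ▸ card_sdiff_lt (S.min'_mem hne) hm) _ rfl,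
          ← prod_sdiff (mem_powerset.1 hB)]
        ring
      · rw [if_neg hm, if_neg hm, mul_zero]
    · rw [not_nonempty_iff_eq_empty] at hne
      subst hne
      simp [ex_empty]

theorem lo_hom (g : Finset (Fin d) → ℝ) (a : Fin d → ℝ) : ∀ (k : ℕ) (S : Finset (Fin d)),
    S.card = k → lo (fun B => (∏ i ∈ B, a i) * g B) S = (∏ i ∈ S, a i) * lo g S := by
  intro k
  induction k using Nat.strong_induction_on with
  | _ k ih =>
    intro S hS
    by_cases hne : S.Nonempty
    · rw [lo_min _ S hne, lo_min _ S hne, mul_sub, mul_sum]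
      congr 1
      refine sum_congr rfl fun B hB => ?_
      by_cases hm : S.min' hne ∈ B ∧ B ⊂ S
      · rw [if_pos hm, if_pos hm, ih _ (hS ▸ card_lt_card hm.2) _ rfl,
          ← prod_sdiff (mem_powerset.1 hB)]
        ring
      · rw [if_neg hm, if_neg hm, mul_zero]
    · rw [not_nonempty_iff_eq_empty] at hne
      subst hne
      simp [lo_empty]

theorem ex_one : ∀ (k : ℕ) (S : Finset (Fin d)), S.card = k →
    ex (fun B => if B.card = 1 then 1 else 0) S = 1 := by
  intro k
  induction k using Nat.strong_induction_on with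
  | _ k ih =>
    intro S hS
    by_cases hne : S.Nonempty
    · rw [ex_min _ S hne, sum_eq_single {S.min' hne}]
      · rw [if_pos (mem_singleton_self _), card_singleton, if_pos rfl, one_mul]
        exact ih _ (hS ▸ card_sdiff_lt (S.min'_mem hne) (mem_singleton_self _)) _ rfl
      · intro B _ hB
        by_cases hm : S.min' hne ∈ B
        · rw [if_pos hm, if_neg, zero_mul]
          intro h1
          obtain ⟨j, rfl⟩ := card_eq_one.1 h1
          rw [mem_singleton] at hm
          exact hB (by rw [hm])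
        · rw [if_neg hm]
      · intro h
        exact absurd (mem_powerset.2 (singleton_subset_iff.2 (S.min'_mem hne))) h
    · rw [not_nonempty_iff_eq_empty] at hne
      subst hne
      rw [ex_empty]

theorem lo_one (S : Finset (Fin d)) (hS : S.Nonempty) :
    lo (fun _ : Finset (Fin d) => (1:ℝ)) S = if S.card = 1 then 1 else 0 := by
  have h1 : lo (fun _ : Finset (Fin d) => (1:ℝ)) S =
      lo (ex (fun B => if B.card = 1 then 1 else 0)) S :=
    lo_congr _ _ _ S rfl (fun U _ => (ex_one _ U rfl).symm)
  rw [h1, lo_ex _ _ S rfl hS]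

end ExP

open ExP in
theorem t_EX : S_EX := by
  intro d f g h a S
  refine ⟨ex_empty f, ?_, fun hg => ex_lo g hg _ S rfl, lo_ex f _ S rfl, ex_add f h _ S rfl,
    ex_hom f a _ S rfl, lo_hom g a _ S rfl, lo_congr g h _ S rfl, ex_congr f h _ S rfl,
    ex_one _ S rfl, lo_one S⟩
  intro i hi
  rw [ex_at f S i hi, sum_filter]

open ExP in
theorem t_TILT : S_TILT := by
  intro d g S k hg hk hkS hS
  -- `φ`
  set φ : Finset (Fin d) → ℝ := fun U => if U = ∅ then 1 else lo g (insert k U) / g {k} with hφ
  have hlk : lo g {k} = g {k} := by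
    rw [lo_min g {k} (singleton_nonempty k)]
    have : ∑ B ∈ ({k} : Finset (Fin d)).powerset,
        (if ({k} : Finset (Fin d)).min' (singleton_nonempty k) ∈ B ∧ B ⊂ {k} then
          lo g B * g ({k} \ B) else 0) = 0 := by
      refine sum_eq_zero fun B _ => ?_
      rw [if_neg]
      rintro ⟨h1, h2⟩
      rw [ssubset_singleton_iff] at h2
      rw [h2] at h1
      exact absurd h1 (notMem_empty _)
    rw [this, sub_zero]
  -- the expansion at `k`
  have hexp : ∀ U : Finset (Fin d), k ∉ U → g (insert k U) / g {k} =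
      ∑ B ∈ U.powerset, φ B * g (U \ B) := by
    intro U hU
    have h1 : g (insert k U) = ex (lo g) (insert k U) := (ex_lo g hg _ _ rfl).symm
    rw [h1, ex_at _ _ k (mem_insert_self k U), sum_div]
    rw [← sum_filter_add_sum_filter_not (insert k U).powerset (fun B => k ∈ B)]
    have h2 : ∑ B ∈ (insert k U).powerset.filter (fun B => ¬ k ∈ B),
        (if k ∈ B then lo g B * ex (lo g) (insert k U \ B) else 0) / g {k} = 0 := by
      refine sum_eq_zero fun B hB => ?_
      rw [mem_filter] at hB
      rw [if_neg hB.2, zero_div]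
    rw [h2, add_zero]
    refine sum_bij' (fun B _ => B.erase k) (fun B _ => insert k B) ?_ ?_ ?_ ?_ ?_
    · intro B hB
      rw [mem_filter, mem_powerset] at hB
      rw [mem_powerset]
      intro x hx
      rw [mem_erase] at hx
      exact (mem_insert.1 (hB.1 hx.2)).resolve_left hx.1
    · intro B hB
      rw [mem_powerset] at hB
      rw [mem_filter, mem_powerset]
      exact ⟨insert_subset_insert k hB, mem_insert_self k B⟩
    · intro B hB
      rw [mem_filter] at hB
      exact insert_erase hB.2
    · intro B hB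
      rw [mem_powerset] at hB
      exact erase_insert (fun h => hU (hB h))
    · intro B hB
      rw [mem_filter, mem_powerset] at hB
      rw [if_pos hB.2, ex_lo g hg _ _ rfl]
      have h3 : insert k U \ B = U \ B.erase k := by
        ext x
        simp only [mem_sdiff, mem_insert, mem_erase, not_and]
        constructor
        · rintro ⟨h4 | h4, h5⟩
          · exact absurd (h4 ▸ hB.2) h5
          · exact ⟨h4, fun _ => h5⟩
        · rintro ⟨h4, h5⟩
          refine ⟨Or.inr h4, h5 ?_⟩
          rintro rfl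
          exact hU h4
      rw [h3]
      have h6 : φ (B.erase k) = lo g B / g {k} := by
        rw [hφ]
        dsimp only
        by_cases h7 : B.erase k = ∅
        · rw [if_pos h7]
          have : B = {k} := by
            rw [← insert_erase hB.2, h7]
            rfl
          rw [this, hlk, div_self hk]
        · rw [if_neg h7, insert_erase hB.2]
      rw [h6]
      ring
  have hφ1 : φ ∅ = 1 := by rw [hφ]; exact if_pos rfl
  have h4 : lo (fun U => g (insert k U) / g {k}) S =
      lo (ex (fun B => lo g B + lo φ B)) S := by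
    refine lo_congr _ _ _ S rfl fun U hU => ?_
    have hkU : k ∉ U := fun h => hkS (hU h)
    show g (insert k U) / g {k} = _
    rw [hexp U hkU, ex_add _ _ _ U rfl, conv_comm]
    refine sum_congr rfl fun B _ => ?_
    rw [ex_lo g hg _ _ rfl, ex_lo φ hφ1 _ _ rfl]
  rw [h4, lo_ex _ _ S rfl hS]

end Pool.Agent.NH43.AD
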