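import Pool.Agent.NH43.AD.Defs
import Pool.Agent.TH973.SD.T

set_option autoImplicit false

/-!
# Project AD: statements (algebra, law, `L_1` norm, pairing, assembly)
-/

namespace Pool.Agent.NH43.AD

open Finset MeasureTheory
open Pool.Agent.H397R2.SD (E)
open Pool.Agent.W776.GD (Om flp rad fE empt)
open Pool.Agent.TH973.SD (discw locD)

/-! ### Algebra of set functions -/

/-- AD-1: exponential and logarithm of set functions -/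
def S_EX : Prop := ∀ (d : ℕ) (f g h : Finset (Fin d) → ℝ) (a : Fin d → ℝ) (S : Finset (Fin d)),
  (ex f ∅ = 1) ∧
  (∀ i ∈ S, ex f S = ∑ B ∈ S.powerset.filter (fun B => i ∈ B), f B * ex f (S \ B)) ∧
  (g ∅ = 1 → ex (lo g) S = g S) ∧
  (S.Nonempty → lo (ex f) S = f S) ∧
  (ex (fun B => f B + h B) S = ∑ U ∈ S.powerset, ex f U * ex h (S \ U)) ∧
  (ex (fun B => (∏ i ∈ B, a i) * f B) S = (∏ i ∈ S, a i) * ex f S) ∧
  (lo (fun B => (∏ i ∈ B, a i) * g B) S = (∏ i ∈ S, a i) * lo g S) ∧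
  ((∀ U ⊆ S, g U = h U) → lo g S = lo h S) ∧
  ((∀ U ⊆ S, U.Nonempty → f U = h U) → ex f S = ex h S) ∧
  (ex (fun B => if B.card = 1 then 1 else 0) S = 1) ∧
  (S.Nonempty → lo (fun _ => 1) S = if S.card = 1 then 1 else 0)

/-- AD-2: the tilt -/
def S_TILT : Prop := ∀ (d : ℕ) (g : Finset (Fin d) → ℝ) (S : Finset (Fin d)) (k : Fin d),
  g ∅ = 1 → g {k} ≠ 0 → k ∉ S → S.Nonempty →
    lo (fun U => g (insert k U) / g {k}) S =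
      lo g S + lo (fun U => if U = ∅ then 1 else lo g (insert k U) / g {k}) S

/-- AD-3: bounds -/
def S_EXB : Prop := ∀ (d : ℕ) (f : Finset (Fin d) → ℝ) (S : Finset (Fin d)) (c : ℝ), S.Nonempty →
  0 ≤ c → c ≤ 1 → (∀ B ⊆ S, B.Nonempty → |f B| ≤ c) →
    |ex f S| ≤ c * ((d : ℝ) + 1) ^ d ∧ |ex f S - f S| ≤ c ^ 2 * ((d : ℝ) + 1) ^ d ∧
    |lo (fun B => if B = ∅ then 1 else f B) S| ≤ c * (4 * ((d : ℝ) + 1)) ^ (2 * d) ∧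
    |lo (fun B => if B = ∅ then 1 else f B) S - f S| ≤ c ^ 2 * (4 * ((d : ℝ) + 1)) ^ (2 * d)

/-! ### The law -/

/-- AD-4: the law at a point -/
def S_LAW : Prop := ∀ (d : ℕ) (X : Fin d → ℕ → ℝ) (y : Ce d → ℝ), 2 ≤ d →
  (∀ i v, X i v = 1 ∨ X i v = -1) →
  (∀ s : Ce d, (∃ i, s i = 0) → DD y s = 1) ∧
  (∀ (y' : Ce d → ℝ) (s : Ce d), (∀ r : Ce d, (∀ i, r i < s i) → y r = y' r) → DD y s = DD y' s) ∧
  (∀ s : Ce d, (∀ r : Ce d, (∀ i, r i < s i) → y r = 0) → DD y s = 1) ∧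
  (∀ s : Ce d, DD y s ≠ 0 → KK X y univ s = (∏ i, X i (s i)) * y s) ∧
  (∀ (S : Finset (Fin d)) (k : Fin d) (s : Ce d), S.Nonempty → k ∉ S → DD y s ≠ 0 →
    DD y (up {k} s) ≠ 0 → KK X y S (up {k} s) = KK X y S s + lo (ph X y k s) S) ∧
  (∀ (S : Finset (Fin d)) (s : Ce d), S.Nonempty → (∃ j, j ∉ S ∧ s j = 0) → KK X y S s = 0) ∧
  (∀ (U : Finset (Fin d)) (s : Ce d), DD y s ≠ 0 → DD y (up U s) = DD y s *
    ex (fun B => (∏ i ∈ B, X i (s i)) * KK X y B s + if B.card = 1 then 1 else 0) U) ∧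
  (∀ s : Ce d, DD y s ≠ 0 → top y s = DD y s * ex (fun B => (∏ i ∈ B, X i (s i)) * KK X y B s) univ) ∧
  (∀ s : Ce d, (∀ r : Ce d, (∀ i, r i ≤ s i) → y r = 0) → top y s = 0) ∧
  (∀ (S : Finset (Fin d)) (s : Ce d), S.Nonempty → S ≠ univ →
    (∀ r : Ce d, (∀ i, r i ≤ s i) → r ≠ s → y r = 0) → KK X y S s = 0)

/-- AD-5: the increments of the cumulants in the form needed for the martingale arguments -/
def S_U : Prop := ∀ (d : ℕ) (X : Fin d → ℕ → ℝ) (y : Ce d → ℝ), 2 ≤ d →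
  (∀ i v, X i v = 1 ∨ X i v = -1) → ∀ (k : Fin d) (s : Ce d), 0 < DD y s → 0 < DD y (up {k} s) →
    |be X y k s| < 1 →
    (∀ S : Finset (Fin d), S.Nonempty → k ∉ S →
      KK X y S (up {k} s) = KK X y S s + (X k (s k) - be X y k s) * gg X y k S s + ps X y k S s) ∧
    (∀ i : Fin d, ps X y k {i} s = 0) ∧
    DD y (up {k} s) = DD y s * (1 + X k (s k) * be X y k s)

/-- AD-6: positivity -/
def S_POS : Prop := ∀ (d : ℕ) (X : Fin d → ℕ → ℝ) (y : Ce d → ℝ) (s : Ce d), 2 ≤ d →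
  (∀ i v, X i v = 1 ∨ X i v = -1) → 0 < DD y s →
  (∀ S : Finset (Fin d), S.Nonempty → |KK X y S s| ≤ cz d) →
    (∀ U : Finset (Fin d), DD y s / 2 ≤ DD y (up U s) ∧ DD y (up U s) ≤ 2 * DD y s) ∧
    |top y s| ≤ DD y s

/-- AD-7: measurability and the mean value property -/
def S_PRE : Prop := ∀ (d n : ℕ) (Ω : Type) [Fintype Ω] (T : Fin d → ℕ → Ω → Ω)
  (X : Fin d → ℕ → Ω → ℝ) (f : Ce d → Ω → ℝ) (ρ : ℝ), 2 ≤ d → Hyp n T X f →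
  (∀ s : Ce d, Pre T s (fun x => DD (yx ρ f x) s)) ∧
  (∀ (s : Ce d) (i : Fin d) (x : Ω), 1 ≤ s i →
    (∀ q : Ce d, (∀ j, q j + 1 ≤ s j) → DD (yx ρ f x) q ≠ 0) →
    (DD (yx ρ f x) s + DD (yx ρ f (T i (s i - 1) x)) s) / 2 =
      DD (yx ρ f x) (Function.update s i (s i - 1))) ∧
  (∀ (S : Finset (Fin d)) (s : Ce d) (x : Ω), S.Nonempty → (∀ i, s i ≤ n) →
    (∀ q : Ce d, (∀ j, q j ≤ s j) → DD (yx ρ f x) q ≠ 0) → ∀ (i : Fin d) (v : ℕ), s i ≤ v →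
    KK (Xx X (T i v x)) (yx ρ f (T i v x)) S s = KK (Xx X x) (yx ρ f x) S s) ∧
  (∀ (s : Ce d) (x : Ω), (∀ i, s i ≤ n) → (∀ q : Ce d, (∀ j, q j ≤ s j) → DD (yx ρ f x) q ≠ 0) →
    ∀ i : Fin d, top (yx ρ f (T i (s i) x)) s = - top (yx ρ f x) s)

/-- AD-8: the conditions are functions of the digits below the cell -/
def S_GPRE : Prop := ∀ (d n m : ℕ) (η : ℕ → ℝ) (Ω : Type) [Fintype Ω] (T : Fin d → ℕ → Ω → Ω)
  (X : Fin d → ℕ → Ω → ℝ) (f : Ce d → Ω → ℝ) (ρ : ℝ), 2 ≤ d → Hyp n T X f →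
  ∀ q : Ce d, (∀ i, q i ≤ n) →
    Pre T q (fun x => Good m η (Xx X x) (yx ρ f x) q) ∧
    Pre T q (fun x => Pregood m η (Xx X x) (yx ρ f x) q) ∧
    Pre T q (fun x => Pregood m η (Xx X x) (yx ρ f x) q ∧ ¬ Cond m η (Xx X x) (yx ρ f x) q)

/-! ### The `L_1` norm -/

open Classical in
/-- the stopped densities -/
noncomputable def es {Ω : Type} (m : ℕ) (η : ℕ → ℝ) (ρ : ℝ) {d : ℕ} (X : Fin d → ℕ → Ω → ℝ)
    (f : Ce d → Ω → ℝ) (s : Ce d) (x : Ω) : ℝ :=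
  if ∃ i, s i = 0 then 1 else
    if Good m η (Xx X x) (yx ρ f x) (fun i => s i - 1) then DD (yx ρ f x) s else 0

open Classical in
/-- AD-9: the stopped densities are supermartingales -/
def S_SUP : Prop := ∀ (d n m : ℕ) (η : ℕ → ℝ) (Ω : Type) [Fintype Ω] [Nonempty Ω]
  (T : Fin d → ℕ → Ω → Ω) (X : Fin d → ℕ → Ω → ℝ) (f : Ce d → Ω → ℝ) (ρ : ℝ), 2 ≤ d →
  Hyp n T X f → ∀ (s q : Ce d), (∀ i, q i ≤ s i) → (∀ i, s i ≤ n + 1) →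
    (∀ x, 0 ≤ es m η ρ X f s x) ∧
    (∀ A : Ω → Prop, (∀ i v, q i ≤ v → ∀ x, A (T i v x) ↔ A x) →
      E (fun x => if A x then es m η ρ X f s x else 0) ≤
        E (fun x => if A x then es m η ρ X f q x else 0)) ∧
    E (es m η ρ X f s) ≤ 1

/-- AD-10: the `L_1` norm of the test function, and the mass of the bad cells -/
def S_L1 : Prop := ∀ (d n m : ℕ) (η : ℕ → ℝ) (Ω : Type) [Fintype Ω] [Nonempty Ω]
  (T : Fin d → ℕ → Ω → Ω) (X : Fin d → ℕ → Ω → ℝ) (f : Ce d → Ω → ℝ) (ρ κ : ℝ), 2 ≤ d →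
  Hyp n T X f → 0 ≤ κ → (∀ q : Ce d, (∀ i, q i ≤ n) → PF m η ρ X f q ≤ κ) →
    E (fun x => |Psi n m η ρ X f x|) ≤ 1 + 2 ^ d * ((n : ℝ) + 1) ^ (2 * d) * κ

open Classical in
/-- AD-11: the good cells -/
def S_GD : Prop := ∀ (d n m : ℕ) (η : ℕ → ℝ) (Ω : Type) [Fintype Ω] [Nonempty Ω]
  (T : Fin d → ℕ → Ω → Ω) (X : Fin d → ℕ → Ω → ℝ) (f : Ce d → Ω → ℝ) (ρ κ : ℝ), 2 ≤ d →
  Hyp n T X f → 0 ≤ κ → (∀ q : Ce d, (∀ i, q i ≤ n) → PF m η ρ X f q ≤ κ) →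
    (∀ p : Ce d, (∀ i, p i ≤ n) → ∑ i, p i ≤ n →
      E (fun x => if Good m η (Xx X x) (yx ρ f x) p then (0 : ℝ) else 1) ≤
        ((n : ℝ) + 1) ^ d * κ) ∧
    (∀ p : Ce d, (∀ i, p i ≤ n) →
      E (fun x => if Good m η (Xx X x) (yx ρ f x) p then DD (yx ρ f x) p else 0) ≤ 1)

/-! ### Pairing -/

/-- AD-12: local bounds for the components -/
def S_LOC : Prop := ∀ d : ℕ, 2 ≤ d → ∃ C : ℕ, ∀ (n m : ℕ) (η : ℕ → ℝ) (X : Fin d → ℕ → ℝ)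
  (y : Ce d → ℝ) (ρ : ℝ), (∀ i v, X i v = 1 ∨ X i v = -1) → 0 ≤ ρ → (∀ r, |y r| ≤ ρ) →
  (∀ r : Ce d, ∑ i, r i ≠ n → y r = 0) → ∀ p : Ce d, Good m η X y p →
    (∑ i, p i < n → top y p = 0) ∧
    (∑ i, p i = n → top y p = y p) ∧
    (∀ σ : ℕ, ∑ i, p i = n + σ → (C : ℝ) * ((σ : ℝ) + 1) ^ C * ρ ≤ 1 →
      |top y p - DD y p * y p| ≤ DD y p * (C * ((σ : ℝ) + 1) ^ C * ρ ^ 2))

/-- AD-13: correlations of the discrepancy with odd functions supported on empty boxes -/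
def S_COR : Prop := ∀ (d n : ℕ) (ι : Type) (P : Finset ι) (w : ι → ℝ) (V : ℝ)
  (o : ι → Fin d → ℕ) (u : Fin d → ℝ) (a : Ce d) (g : Om d n → ℝ), 0 ≤ V → (∀ i, a i ≤ n) →
  (∀ c x, g (flp c (a c) x) = - g x) → (∀ x, g x ≠ 0 → empt P o a x) →
    |E (fun x => discw P w V o u x * g x)| ≤
      V * (1 / 2 : ℝ) ^ (∑ c, a c) * (1 / 4) ^ d * E (fun x => |g x|) ∧
    (∀ G : Om d n → ℝ, (∀ x, 0 ≤ G x) → ∑ c, a c = n → (∀ x, g x = fE P o a x * G x) →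
      E (fun x => discw P w V o u x * g x) =
        V * (1 / 2 : ℝ) ^ n * (1 / 4) ^ d * E (fun x => |g x|))

/-- AD-14: the r-functions satisfy the hypotheses -/
def S_HYP : Prop := ∀ (d n : ℕ) (ι : Type) (P : Finset ι) (o : ι → Fin d → ℕ), 1 ≤ d →
  Hyp n (fun i v (x : Om d n) => flp i v x) (fun i v x => rad i v x) (fun r x => fE P o r x) ∧
  (∀ (r p : Ce d) (x : Om d n), (∀ i, r i ≤ p i) → (∀ i, p i ≤ n) → ¬ empt P o p x →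
    fE P o r x = 0) ∧
  (∀ a : Ce d, ∑ c, a c = n → 2 * P.card ≤ 2 ^ n →
    1 / 2 ≤ E (fun x : Om d n => |fE P o a x|))

/-- AD-15: the pairing -/
def S_PAIR : Prop := ∀ d : ℕ, 2 ≤ d → ∃ c C : ℝ, 0 < c ∧ 0 < C ∧ ∀ (n m : ℕ) (η : ℕ → ℝ)
  (ι : Type) (P : Finset ι) (w : ι → ℝ) (V : ℝ) (o : ι → Fin d → ℕ) (u : Fin d → ℝ) (ρ κ : ℝ),
  0 < ρ → C * ρ ≤ 1 → 2 * P.card ≤ 2 ^ n → (2 : ℝ) ^ n ≤ 4 * V → V ≤ 2 ^ n → 0 ≤ κ →
  8 * ((n : ℝ) + 1) ^ d * κ ≤ 1 →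
  (∀ q : Ce d, (∀ i, q i ≤ n) →
    PF m η ρ (fun i v (x : Om d n) => rad i v x) (fun r x => fE P o r x) q ≤ κ) →
    c * ((n : ℝ) + 1) ^ (d - 1) * ρ ≤
      E (fun x : Om d n => discw P w V o u x *
        (Psi n m η ρ (fun i v (x : Om d n) => rad i v x) (fun r x => fE P o r x) x - 1))

/-! ### Parameters and assembly -/

/-- the bound for the top cumulants -/
noncomputable def dl (n : ℕ) (a : ℝ) : ℝ := ((n : ℝ) + 1) ^ (-a)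

/-- the size of the births -/
noncomputable def rh (d n : ℕ) (a : ℝ) : ℝ := ((n : ℝ) + 1) ^ (-(((d : ℝ) - 2) / 2) - a)

/-- the number of binary digits for the Walsh functions -/
def mm (n : ℕ) : ℕ := Nat.log 2 (n + 2) + 2

/-- the bounds for the cumulants of order `k` -/
noncomputable def et (C d n : ℕ) (a : ℝ) (k : ℕ) : ℝ :=
  dl n a * ((C : ℝ) * ((mm n : ℝ) + 1)) ^ (C * (d - k))

/-- AD-20: the main estimate: the first bad cells have small probability (middle part) -/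
def S_PF : Prop := ∀ d C₀ : ℕ, 3 ≤ d → ∃ C : ℕ, ∀ a : ℝ, 0 < a → ∃ n₀ : ℕ, ∀ n : ℕ, n₀ ≤ n →
  ∀ (Ω : Type) [Fintype Ω] [Nonempty Ω] (T : Fin d → ℕ → Ω → Ω) (X : Fin d → ℕ → Ω → ℝ)
    (f : Ce d → Ω → ℝ), Hyp n T X f → ∀ q : Ce d, (∀ i, q i ≤ n) →
      PF (mm n) (et C d n a) (rh d n a) X f q ≤ 1 / ((n : ℝ) + 1) ^ C₀

/-- AD-16: the main statement on the grid -/
def S_GRID : Prop := ∀ d : ℕ, 3 ≤ d → ∀ a : ℝ, 0 < a → ∃ c : ℝ, 0 < c ∧ ∃ n₀ : ℕ, ∀ n : ℕ, n₀ ≤ n →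
  ∀ (ι : Type) (P : Finset ι) (w : ι → ℝ) (V : ℝ) (o : ι → Fin d → ℕ) (u : Fin d → ℝ),
    2 * P.card ≤ 2 ^ n → (2 : ℝ) ^ n ≤ 4 * V → V ≤ 2 ^ n →
    ∃ x : Om d n, c * ((n : ℝ) + 1) ^ ((d : ℝ) / 2 - a) ≤ |discw P w V o u x|

/-- AD-17: the grid statement from the parts -/
def S_GRIDP : Prop := S_PF → S_L1 → S_PAIR → S_HYP → S_GRID

/-- AD-18: the final statement -/
def S_FIN : Prop := ∀ d : ℕ, 3 ≤ d → ∀ ε : ℝ, 0 < ε → ∃ c : ℝ, 0 < c ∧ ∀ m : ℕ, 3 ≤ m →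
  ∀ (lam : Fin m → ℝ) (ξ : Fin m → Fin d → ℝ), (∀ μ, ξ μ ∈ Set.Icc (0 : Fin d → ℝ) 1) →
    ENNReal.ofReal (c * (Real.log m) ^ ((d : ℝ) / 2 - ε) / m) ≤
      eLpNorm (locD lam ξ) ⊤ (volume.restrict (Set.Icc (0 : Fin d → ℝ) 1))

/-- AD-19: from the grid to the cube -/
def S_GFIN : Prop := S_GRID → S_FIN

end Pool.Agent.NH43.AD
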