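import Pool.Agent.NH44.AD.StmM
import Pool.Agent.NH43.AD.StmL

set_option autoImplicit false

/-!
# Project AD: statements of the probabilistic part and of the assembly of `S_PF`
-/

namespace Pool.Agent.NH43.AD

open Finset
open Pool.Agent.H397R2.SD (E)
open Pool.Agent.NH44.AD (Kn MO SB inn LL HH MM AC sd HM G0 bx box pr Th HB U1)

variable {d : ℕ}

/-! ### Families cut off outside of the good cells -/

open Classical in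
/-- the biases -/
noncomputable def bc (m : ℕ) (η : ℕ → ℝ) (X : Fin d → ℕ → ℝ) (y : Ce d → ℝ) (i : Fin d)
    (s : Ce d) : ℝ := if Good m η X y s then be X y i s else 0

open Classical in
/-- the coefficients of the innovations of the coordinate `k` in the cumulants `S` -/
noncomputable def gc (m : ℕ) (η : ℕ → ℝ) (X : Fin d → ℕ → ℝ) (y : Ce d → ℝ) (k : Fin d)
    (S : Finset (Fin d)) (s : Ce d) : ℝ := if Good m η X y s then gg X y k S s else 0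

/-- the coefficients of the innovations of the coordinate `c` in the bias of the coordinate `τ` -/
noncomputable def hc (m : ℕ) (η : ℕ → ℝ) (X : Fin d → ℕ → ℝ) (y : Ce d → ℝ) (c τ : Fin d)
    (s : Ce d) : ℝ := gc m η X y c {τ} s

/-- the seeds -/
noncomputable def GA (m : ℕ) (η : ℕ → ℝ) (X : Fin d → ℕ → ℝ) (y : Ce d → ℝ) (Q : Ce d)
    (S A B : Finset (Fin d)) (θ : Ce d) (k : Fin d) : Fin d → Kn d :=
  sd m (hc m η X y) Q θ ((insert k S)ᶜ.sort (· ≤ ·)) k (G0 m Q A B θ k (gc m η X y k S))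

/-- the chains -/
noncomputable def GJ (m : ℕ) (η : ℕ → ℝ) (X : Fin d → ℕ → ℝ) (y : Ce d → ℝ) (Q : Ce d)
    (S A B : Finset (Fin d)) (θ : Ce d) (k : Fin d) (j : ℕ) : Fin d → Kn d :=
  (AC (hc m η X y) Q)^[j] (GA m η X y Q S A B θ k)

/-- predictable kernels -/
def PK {Ω : Type} (T : Fin d → ℕ → Ω → Ω) (Q : Ce d) (Γ : Ω → Kn d) : Prop :=
  ∀ q ∈ box Q, ∀ a e, Pre T q (fun x => Γ x q a e)

/-- the deterministic facts at a cell `Q` for one flattening -/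
structure DTF (m J : ℕ) (η : ℕ → ℝ) (X : Fin d → ℕ → ℝ) (y : Ce d → ℝ) (Q : Ce d)
    (S A B : Finset (Fin d)) (θ : Ce d) (k : Fin d) (ν : ℕ → ℝ) (w μ : ℝ) : Prop where
  sb : ∀ j < J, ∀ τ, SB (bx A Q) (bx B Q) (Q τ) (HH Q τ (GJ m η X y Q S A B θ k j τ)) (ν j)
  ch : ∀ j < J, ∀ a e : Ce d, LL X (bc m η X y) Q (GJ m η X y Q S A B θ k j) a e =
    ∑ τ, MM X (bc m η X y) Q τ (GJ m η X y Q S A B θ k j τ) a e +
      LL X (bc m η X y) Q (GJ m η X y Q S A B θ k (j + 1)) a e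
  lst : MO (bx A Q) (bx B Q) (LL X (bc m η X y) Q (GJ m η X y Q S A B θ k J)) w
  dec : MO (bx A Q) (bx B Q) (fun a e => HM m Q S A B θ (KK X y S) a e -
    LL X (bc m η X y) Q (GJ m η X y Q S A B θ k 0) a e) μ

/-! ### Statements -/

open Classical in
/-- AD-30: matrix Freedman inequality for finite sets of rows and columns -/
def S_FR2 : Prop := ∀ (d : ℕ) (R C : Finset (Ce d)) (Ω : Type) [Fintype Ω] [Nonempty Ω] (V : ℕ)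
  (T : ℕ → Ω → Ω) (X α : ℕ → Ω → ℝ) (M : ℕ → Ω → Ce d → Ce d → ℝ) (ν a : ℝ),
  (∀ v x, T v (T v x) = x) → (∀ v x, X v x = 1 ∨ X v x = -1) →
  (∀ v, v < V → ∀ x, X v (T v x) = -X v x) → (∀ v u x, v ≠ u → X v (T u x) = X v x) →
  (∀ v u x, v ≤ u → α v (T u x) = α v x) → (∀ v u x, v ≤ u → M v (T u x) = M v x) →
  (∀ v x, |α v x| ≤ 1) → 0 < ν → 0 ≤ a →
  E (fun x => if SB R C V (fun v => M v x) ν ∧
      ¬ MO R C (fun k j => ∑ v ∈ range V, (X v x - α v x) * M v x k j) a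
      then ∏ v ∈ range V, (1 + X v x * α v x) else 0) ≤
    4 * ((R.card : ℝ) + C.card + 1) * Real.exp (-(a ^ 2 / (2 * ν ^ 2)))

open Classical in
/-- AD-31: tail of the fresh part -/
def S_MT : Prop := ∀ (d n m : ℕ) (η : ℕ → ℝ) (Ω : Type) [Fintype Ω] [Nonempty Ω]
  (T : Fin d → ℕ → Ω → Ω) (X : Fin d → ℕ → Ω → ℝ) (f : Ce d → Ω → ℝ) (ρ : ℝ), 2 ≤ d →
  Hyp n T X f → ∀ (R C : Finset (Ce d)) (Q : Ce d) (τ : Fin d) (G : Ω → Prop) (Γ : Ω → Kn d)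
  (ν a : ℝ), (∀ i, Q i ≤ n) → (∀ x, G x → Pregood m η (Xx X x) (yx ρ f x) Q) → PK T Q Γ →
  (∀ x, G x → SB R C (Q τ) (HH Q τ (Γ x)) ν) → 0 < ν → 0 ≤ a →
  E (fun x => if G x ∧ ¬ MO R C (MM (Xx X x) (bc m η (Xx X x) (yx ρ f x)) Q τ (Γ x)) a
      then DD (yx ρ f x) Q else 0) ≤
    4 * ((R.card : ℝ) + C.card + 1) * Real.exp (-(a ^ 2 / (2 * ν ^ 2)))

/-- AD-32: the cut off families and the chains are predictable -/
def S_PKC : Prop := ∀ (d n m : ℕ) (η : ℕ → ℝ) (Ω : Type) [Fintype Ω] (T : Fin d → ℕ → Ω → Ω)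
  (X : Fin d → ℕ → Ω → ℝ) (f : Ce d → Ω → ℝ) (ρ : ℝ), 2 ≤ d → Hyp n T X f →
  ∀ (Q : Ce d), (∀ i, Q i ≤ n) → ∀ (S A B : Finset (Fin d)) (θ : Ce d) (k : Fin d) (j : ℕ)
  (τ : Fin d), PK T Q (fun x => GJ m η (Xx X x) (yx ρ f x) Q S A B θ k j τ)

open Classical in
/-- AD-33: one flattening -/
def S_TUP : Prop := ∀ (d n m J : ℕ) (η : ℕ → ℝ) (Ω : Type) [Fintype Ω] [Nonempty Ω]
  (T : Fin d → ℕ → Ω → Ω) (X : Fin d → ℕ → Ω → ℝ) (f : Ce d → Ω → ℝ) (ρ : ℝ), 2 ≤ d →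
  Hyp n T X f → ∀ (Q : Ce d) (S A B : Finset (Fin d)) (θ : Ce d) (k : Fin d) (ν : ℕ → ℝ)
  (w μ lam : ℝ), (∀ i, Q i ≤ n) → 0 ≤ lam → (∀ j, 0 < ν j) →
  (∀ x, Pregood m η (Xx X x) (yx ρ f x) Q → 0 < DD (yx ρ f x) Q ∧
    DTF m J η (Xx X x) (yx ρ f x) Q S A B θ k ν w μ) →
  E (fun x => if Pregood m η (Xx X x) (yx ρ f x) Q ∧ ¬ MO (bx A Q) (bx B Q)
      (HM m Q S A B θ (KK (Xx X x) (yx ρ f x) S)) (lam * (d * ∑ j ∈ range J, ν j) + w + μ)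
      then DD (yx ρ f x) Q else 0) ≤
    (d : ℝ) * J * (4 * (((bx A Q).card : ℝ) + (bx B Q).card + 1) * Real.exp (-(lam ^ 2 / 2)))

open Classical in
/-- AD-34: union bound over all the flattenings -/
def S_UNI : Prop := ∀ (d n m : ℕ) (η : ℕ → ℝ) (Ω : Type) [Fintype Ω] [Nonempty Ω]
  (X : Fin d → ℕ → Ω → ℝ) (f : Ce d → Ω → ℝ) (ρ : ℝ), 2 ≤ d →
  ∀ (Q : Ce d) (κ : ℝ), 0 ≤ κ → (∀ x, Pregood m η (Xx X x) (yx ρ f x) Q →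
    0 < DD (yx ρ f x) Q ∧ ∀ S : Finset (Fin d), S.Nonempty →
      |KK (Xx X x) (yx ρ f x) S Q| ≤ cz d) →
  (∀ (S A B : Finset (Fin d)) (θ : Ce d), A.Nonempty → B.Nonempty → A ∪ B = S → S ≠ univ →
    θ ∈ Th d m → E (fun x => if Pregood m η (Xx X x) (yx ρ f x) Q ∧ ¬ MO (bx A Q) (bx B Q)
      (HM m Q S A B θ (KK (Xx X x) (yx ρ f x) S)) (η S.card)
      then DD (yx ρ f x) Q else 0) ≤ κ) →
    PF m η ρ X f Q ≤ 4 ^ d * (2 ^ m) ^ d * κ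

/-- AD-35: the deterministic facts (the results of the middle part) -/
def S_DTM : Prop := ∀ d : ℕ, 3 ≤ d → ∃ K : ℕ, 1 ≤ K ∧ ∀ (n m : ℕ) (η : ℕ → ℝ) (ρ h : ℝ)
  (X : Fin d → ℕ → ℝ) (y : Ce d → ℝ), n + 2 ≤ 2 ^ m →
  (∀ i v, X i v = 1 ∨ X i v = -1) → (∀ r, |y r| ≤ ρ) → (∀ r : Ce d, ∑ i, r i ≠ n → y r = 0) →
  0 < ρ → ρ * ((n : ℝ) + 1) ^ (((d : ℝ) - 2) / 2) ≤ η d →
  (∀ k, 1 ≤ k → k ≤ d → 0 < η k ∧ η k ≤ h) → (K : ℝ) * ((m : ℝ) + 1) ^ K * h ≤ 1 →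
  ∀ Q : Ce d, (∀ i, Q i ≤ n) → Pregood m η X y Q →
    0 < DD y Q ∧ (∀ S : Finset (Fin d), S.Nonempty → |KK X y S Q| ≤ cz d) ∧
    ∀ (S A B : Finset (Fin d)) (θ : Ce d) (k : Fin d) (J : ℕ), A.Nonempty → B.Nonempty →
      A ∪ B = S → k ∉ S → θ ∈ Th d m →
      DTF m J η X y Q S A B θ k
        (fun j => K * η (S.card + 1) * (K * ((m : ℝ) + 1) ^ K * h) ^ j)
        (K * ((n : ℝ) + 1) * η (S.card + 1) * (K * ((m : ℝ) + 1) ^ K * h) ^ J)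
        (K * ((m : ℝ) + 1) ^ K * h ^ 2)

/-- AD-36: choice of the parameters -/
def S_NUMP : Prop := ∀ d C₀ K : ℕ, 3 ≤ d → 1 ≤ K → ∃ C : ℕ, 1 ≤ C ∧ ∀ a : ℝ, 0 < a →
  ∃ J n₀ : ℕ, ∀ n : ℕ, n₀ ≤ n →
    n + 2 ≤ 2 ^ mm n ∧ 0 < rh d n a ∧
    rh d n a * ((n : ℝ) + 1) ^ (((d : ℝ) - 2) / 2) ≤ et C d n a d ∧
    (∀ k, 1 ≤ k → k ≤ d → 0 < et C d n a k ∧ et C d n a k ≤ et C d n a 1) ∧
    (K : ℝ) * ((mm n : ℝ) + 1) ^ K * et C d n a 1 ≤ 1 ∧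
    ∃ lam : ℝ, 0 ≤ lam ∧
      (∀ k, 1 ≤ k → k < d →
        lam * (d * ∑ j ∈ range J, K * et C d n a (k + 1) *
            (K * ((mm n : ℝ) + 1) ^ K * et C d n a 1) ^ j) +
          K * ((n : ℝ) + 1) * et C d n a (k + 1) *
            (K * ((mm n : ℝ) + 1) ^ K * et C d n a 1) ^ J +
          K * ((mm n : ℝ) + 1) ^ K * et C d n a 1 ^ 2 ≤ et C d n a k) ∧
      4 ^ d * (2 ^ mm n) ^ d * ((d : ℝ) * J *
        (4 * (((n : ℝ) + 1) ^ d + ((n : ℝ) + 1) ^ d + 1) * Real.exp (-(lam ^ 2 / 2)))) ≤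
          1 / ((n : ℝ) + 1) ^ C₀

/-- AD-37: the first bad cells have small probability -/
def S_PFA : Prop := S_DTM → S_TUP → S_UNI → S_NUMP → S_PF

/-- AD-38: biases, cut off families and evolution at the first bad cell -/
def S_PGQ : Prop := ∀ (d n m : ℕ) (η : ℕ → ℝ) (X : Fin d → ℕ → ℝ) (y : Ce d → ℝ) (ρ h : ℝ),
  2 ≤ d → n + 2 ≤ 2 ^ m →
  (∀ i v, X i v = 1 ∨ X i v = -1) → (∀ r, |y r| ≤ ρ) → (∀ r : Ce d, ∑ i, r i ≠ n → y r = 0) →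
  0 < ρ → ρ * ((n : ℝ) + 1) ^ (((d : ℝ) - 2) / 2) ≤ η d →
  (∀ k, 1 ≤ k → k ≤ d → 0 < η k ∧ η k ≤ h) →
  (16 * (4 * ((d : ℝ) + 1)) ^ (4 * d + 4)) * (Pool.Agent.NH44.AD.cd d m * h) ≤ 1 →
  ∀ Q : Ce d, (∀ i, Q i ≤ n) → Pregood m η X y Q →
    0 < DD y Q ∧ (∀ S : Finset (Fin d), S.Nonempty → |KK X y S Q| ≤ cz d) ∧
    U1 X (bc m η X y) (hc m η X y) Q ∧
    ∀ (S : Finset (Fin d)) (k : Fin d), S.Nonempty → k ∉ S →
      (∀ q ∈ box Q, q k < Q k → KK X y S (Function.update q k (q k + 1)) =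
        KK X y S q + inn X (bc m η X y) k q * gc m η X y k S q + ps X y k S q) ∧
      (∀ q ∈ box Q, q k = 0 → KK X y S q = 0)

end Pool.Agent.NH43.AD
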