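import Pool.Agent.NH43.AD.StmP

set_option autoImplicit false

/-!
# Project AD, job AD-33: one flattening (`S_TUP` from `S_MT` and `S_PKC`)
-/

namespace Pool.Agent.NH43.AD

open Finset
open Pool.Agent.H397R2.SD (E)
open Pool.Agent.NH44.AD (Kn MO SB inn LL HH MM AC sd HM G0 bx box pr Th HB U1)

namespace TupP

variable {d : ℕ}

lemma mo_congr {R C : Finset (Fin d → ℕ)} {M N : (Fin d → ℕ) → (Fin d → ℕ) → ℝ} {κ κ' : ℝ}
    (h : ∀ a e, M a e = N a e) (hk : κ = κ') (h1 : MO R C M κ) : MO R C N κ' := by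
  have e : M = N := funext fun a => funext fun e => h a e
  rw [← e, ← hk]
  exact h1

lemma mo_add {R C : Finset (Fin d → ℕ)} {M N : (Fin d → ℕ) → (Fin d → ℕ) → ℝ} {κ κ' : ℝ}
    (h1 : MO R C M κ) (h2 : MO R C N κ') : MO R C (fun a e => M a e + N a e) (κ + κ') := by
  intro x z
  have e : ∑ a ∈ R, ∑ e ∈ C, x a * z e * (M a e + N a e) =
      ∑ a ∈ R, ∑ e ∈ C, x a * z e * M a e + ∑ a ∈ R, ∑ e ∈ C, x a * z e * N a e := by
    rw [← sum_add_distrib]
    refine sum_congr rfl fun a _ => ?_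
    rw [← sum_add_distrib]
    exact sum_congr rfl fun e _ => by ring
  rw [e]
  refine (abs_add_le _ _).trans ?_
  have := h1 x z
  have := h2 x z
  linarith

lemma mo_zero {R C : Finset (Fin d → ℕ)} : MO R C (fun _ _ => 0) 0 := by
  intro x z
  simp

lemma mo_sum {R C : Finset (Fin d → ℕ)} {ι : Type} (s : Finset ι)
    (M : ι → (Fin d → ℕ) → (Fin d → ℕ) → ℝ) (κ : ι → ℝ) (h : ∀ i ∈ s, MO R C (M i) (κ i)) :
    MO R C (fun a e => ∑ i ∈ s, M i a e) (∑ i ∈ s, κ i) := by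
  classical
  induction s using Finset.induction_on with
  | empty => simpa using (mo_zero (R := R) (C := C))
  | insert i s hi ih =>
    have h1 := h i (mem_insert_self _ _)
    have h2 := ih fun j hj => h j (mem_insert_of_mem hj)
    refine mo_congr (fun a e => ?_) ?_ (mo_add h1 h2)
    · rw [sum_insert hi]
    · rw [sum_insert hi]

lemma det {m J : ℕ} {η : ℕ → ℝ} {X : Fin d → ℕ → ℝ} {y : Ce d → ℝ} {Q : Ce d}
    {S A B : Finset (Fin d)} {θ : Ce d} {k : Fin d} {ν : ℕ → ℝ} {w μ : ℝ} (lam : ℝ)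
    (hD : DTF m J η X y Q S A B θ k ν w μ)
    (h : ∀ j < J, ∀ τ, MO (bx A Q) (bx B Q)
      (MM X (bc m η X y) Q τ (GJ m η X y Q S A B θ k j τ)) (lam * ν j)) :
    MO (bx A Q) (bx B Q) (HM m Q S A B θ (KK X y S))
      (lam * (d * ∑ j ∈ range J, ν j) + w + μ) := by
  have tel : ∀ K : ℕ, K ≤ J → ∀ a e : Ce d, LL X (bc m η X y) Q (GJ m η X y Q S A B θ k 0) a e =
      ∑ j ∈ range K, ∑ τ, MM X (bc m η X y) Q τ (GJ m η X y Q S A B θ k j τ) a e +
        LL X (bc m η X y) Q (GJ m η X y Q S A B θ k K) a e := by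
    intro K
    induction K with
    | zero => intro _ a e; simp
    | succ K ih =>
      intro hK a e
      rw [ih (by omega) a e, hD.ch K (by omega) a e, sum_range_succ]
      ring
  have h1 : MO (bx A Q) (bx B Q)
      (fun a e => ∑ j ∈ range J, ∑ τ, MM X (bc m η X y) Q τ (GJ m η X y Q S A B θ k j τ) a e)
      (∑ j ∈ range J, ∑ _τ : Fin d, lam * ν j) := by
    refine mo_sum (range J) (fun j a e =>
      ∑ τ, MM X (bc m η X y) Q τ (GJ m η X y Q S A B θ k j τ) a e) _ fun j hj => ?_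
    exact mo_sum univ (fun τ => MM X (bc m η X y) Q τ (GJ m η X y Q S A B θ k j τ)) _
      fun τ _ => h j (mem_range.1 hj) τ
  refine mo_congr (fun a e => ?_) ?_ (mo_add (mo_add h1 hD.lst) hD.dec)
  · have := tel J le_rfl a e
    linarith
  · have : ∑ j ∈ range J, ∑ _τ : Fin d, lam * ν j = lam * (d * ∑ j ∈ range J, ν j) := by
      simp only [sum_const, card_univ, Fintype.card_fin, nsmul_eq_mul]
      rw [mul_sum, mul_sum]
      exact sum_congr rfl fun j _ => by ring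
    rw [this]

lemma E_mono {Ω : Type} [Fintype Ω] {f g : Ω → ℝ} (h : ∀ x, f x ≤ g x) : E f ≤ E g := by
  unfold E
  gcongr
  exact h _

lemma E_sum {Ω ι : Type} [Fintype Ω] (s : Finset ι) (f : ι → Ω → ℝ) :
    E (fun x => ∑ i ∈ s, f i x) = ∑ i ∈ s, E (f i) := by
  unfold E
  rw [sum_comm, sum_div]

end TupP

open TupP in
theorem t_TUP (hM : S_MT) (hK : S_PKC) : S_TUP := by
  classical
  intro d n m J η Ω _ _ T X f ρ hd hH Q S A B θ k ν w μ lam hQ hlam hν h
  set F : ℕ → Fin d → Ω → ℝ := fun j τ x =>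
    if Pregood m η (Xx X x) (yx ρ f x) Q ∧ ¬ MO (bx A Q) (bx B Q)
      (MM (Xx X x) (bc m η (Xx X x) (yx ρ f x)) Q τ
        (GJ m η (Xx X x) (yx ρ f x) Q S A B θ k j τ)) (lam * ν j)
    then DD (yx ρ f x) Q else 0 with hF
  have hF0 : ∀ j τ x, 0 ≤ F j τ x := by
    intro j τ x
    simp only [hF]
    split_ifs with hc
    · exact (h x hc.1).1.le
    · exact le_rfl
  have hpt : ∀ x, (if Pregood m η (Xx X x) (yx ρ f x) Q ∧ ¬ MO (bx A Q) (bx B Q)
      (HM m Q S A B θ (KK (Xx X x) (yx ρ f x) S)) (lam * (d * ∑ j ∈ range J, ν j) + w + μ)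
      then DD (yx ρ f x) Q else 0) ≤ ∑ j ∈ range J, ∑ τ, F j τ x := by
    intro x
    split_ifs with hc
    · obtain ⟨hP, hN⟩ := hc
      have : ∃ j < J, ∃ τ, ¬ MO (bx A Q) (bx B Q)
          (MM (Xx X x) (bc m η (Xx X x) (yx ρ f x)) Q τ
            (GJ m η (Xx X x) (yx ρ f x) Q S A B θ k j τ)) (lam * ν j) := by
        by_contra hcon
        push Not at hcon
        exact hN (det lam (h x hP).2 hcon)
      obtain ⟨j, hj, τ, hjt⟩ := this
      have h1 : F j τ x = DD (yx ρ f x) Q := by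
        simp only [hF]
        rw [if_pos ⟨hP, hjt⟩]
      rw [← h1]
      refine le_trans ?_ (single_le_sum (f := fun j => ∑ τ, F j τ x)
        (fun i _ => sum_nonneg fun τ _ => hF0 i τ x) (mem_range.2 hj))
      exact single_le_sum (f := fun τ => F j τ x) (fun i _ => hF0 j i x) (mem_univ τ)
    · exact sum_nonneg fun j _ => sum_nonneg fun τ _ => hF0 j τ x
  refine (E_mono hpt).trans ?_
  have e1 : E (fun x => ∑ j ∈ range J, ∑ τ, F j τ x) = ∑ j ∈ range J, ∑ τ, E (F j τ) := by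
    rw [E_sum (range J) (fun j x => ∑ τ, F j τ x)]
    exact sum_congr rfl fun j _ => E_sum univ (F j)
  rw [e1]
  have e2 : ∀ j ∈ range J, ∀ τ ∈ (univ : Finset (Fin d)), E (F j τ) ≤
      4 * (((bx A Q).card : ℝ) + (bx B Q).card + 1) * Real.exp (-(lam ^ 2 / 2)) := by
    intro j hj τ _
    have h2 := hM d n m η Ω T X f ρ hd hH (bx A Q) (bx B Q) Q τ
      (fun x => Pregood m η (Xx X x) (yx ρ f x) Q)
      (fun x => GJ m η (Xx X x) (yx ρ f x) Q S A B θ k j τ) (ν j) (lam * ν j) hQ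
      (fun x hx => hx) (hK d n m η Ω T X f ρ hd hH Q hQ S A B θ k j τ)
      (fun x hx => (h x hx).2.sb j (mem_range.1 hj) τ) (hν j) (mul_nonneg hlam (hν j).le)
    have e3 : (lam * ν j) ^ 2 / (2 * ν j ^ 2) = lam ^ 2 / 2 := by
      have := (hν j).ne'
      field_simp
    rw [e3] at h2
    refine le_trans (le_of_eq ?_) h2
    congr 1
  refine (sum_le_sum fun j hj => sum_le_sum fun τ hτ => e2 j hj τ hτ).trans (le_of_eq ?_)
  simp only [sum_const, card_univ, Fintype.card_fin, nsmul_eq_mul, card_range]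
  ring

end Pool.Agent.NH43.AD
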